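import Pool.Agent.H.MP_0447ec_lc.PS.Alg

/-!
# Extended Frege simulates Frege with the permutation rule: algorithm and correctness
-/

namespace Pool.Agent.H.MP_0447ec_lc.PS

open Fm

/-! ### Tails -/

/-- All pairs of an element and the part of the list after it. -/
def tl {β : Type} (l : List β) : List (β × List β) := (sp [] l).map (fun p => p.2)

theorem sp_snd {β : Type} (l : List β) : ∀ pre : List β,
    (sp pre l).map (fun p => p.2) = tl l := by
  induction l with
  | nil => intro pre; rfl
  | cons e l ih =>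
    intro pre
    unfold tl
    simp only [sp, List.map_cons, ih]

theorem tl_nil {β : Type} : tl ([] : List β) = [] := rfl

theorem tl_cons {β : Type} (e : β) (l : List β) : tl (e :: l) = (e, l) :: tl l := by
  have : tl (e :: l) = (e, l) :: (sp ([] ++ [e]) l).map (fun p => p.2) := rfl
  rw [this, sp_snd]

theorem tl_length {β : Type} (l : List β) : (tl l).length = l.length := by
  induction l with
  | nil => rfl
  | cons e l ih => rw [tl_cons, List.length_cons, ih, List.length_cons]

theorem mem_tl {β : Type} {l : List β} {x : β} {t : List β} :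
    (x, t) ∈ tl l ↔ ∃ p, l = p ++ x :: t := by
  induction l with
  | nil => simp [tl_nil]
  | cons e l ih =>
    rw [tl_cons, List.mem_cons, ih]
    constructor
    · rintro (h | ⟨p, hp⟩)
      · rw [Prod.mk.injEq] at h
        obtain ⟨rfl, rfl⟩ := h
        exact ⟨[], rfl⟩
      · exact ⟨e :: p, by rw [hp]; rfl⟩
    · rintro ⟨p, hp⟩
      cases p with
      | nil =>
        simp only [List.nil_append, List.cons.injEq] at hp
        left; rw [hp.1, hp.2]
      | cons a p =>
        simp only [List.cons_append, List.cons.injEq] at hp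
        exact Or.inr ⟨p, hp.2⟩

/-! ### Names -/

/-- The name of `t` at stage `s`; at stage zero it is the name itself. -/
def qn (L s : ℕ) (t : Nm) : Nm :=
  if s = 0 then t else t ++ false :: List.replicate (L + s) true

theorem qn_zero (L : ℕ) (t : Nm) : qn L 0 t = t := rfl

theorem trail_inj : ∀ (a b : ℕ) (t t' : Nm),
    t ++ false :: List.replicate a true = t' ++ false :: List.replicate b true →
    a = b ∧ t = t' := by
  intro a
  induction a with
  | zero =>
    intro b t t' h
    cases b with
    | zero => simpa using h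
    | succ b =>
      have e : t' ++ false :: List.replicate (b + 1) true =
          (t' ++ false :: List.replicate b true) ++ [true] := by
        rw [List.replicate_succ']; simp
      rw [e] at h
      have h1 := congrArg List.getLast? h
      rw [List.getLast?_concat] at h1
      simp at h1
  | succ a ih =>
    intro b t t' h
    cases b with
    | zero =>
      have e : t ++ false :: List.replicate (a + 1) true =
          (t ++ false :: List.replicate a true) ++ [true] := by
        rw [List.replicate_succ']; simp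
      rw [e] at h
      have h1 := congrArg List.getLast? h
      rw [List.getLast?_concat] at h1
      simp at h1
    | succ b =>
      rw [List.replicate_succ', List.replicate_succ'] at h
      have h1 : (t ++ false :: List.replicate a true) ++ [true] =
          (t' ++ false :: List.replicate b true) ++ [true] := by simpa using h
      have h2 := ih b t t' (List.append_cancel_right h1)
      exact ⟨by rw [h2.1], h2.2⟩

theorem qn_inj {L s s' : ℕ} {t t' : Nm} (hs : s ≠ 0) (hs' : s' ≠ 0)
    (h : qn L s t = qn L s' t') : s = s' ∧ t = t' := by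
  unfold qn at h
  rw [if_neg hs, if_neg hs'] at h
  obtain ⟨h1, h2⟩ := trail_inj _ _ _ _ h
  exact ⟨by omega, h2⟩

theorem qn_length {L s : ℕ} {t : Nm} (hs : s ≠ 0) : (qn L s t).length = t.length + 1 + (L + s) := by
  unfold qn
  rw [if_neg hs]
  simp
  omega

/-- The renaming given by two lists of names. -/
def ren (xs ys : List Nm) (w : Nm) : Nm :=
  (ys.drop (xs.takeWhile (fun x => !decide (x = w))).length).headD w

theorem ren_nil (w : Nm) : ren [] [] w = w := rfl

theorem ren_map (ρ : Nm → Nm) (w : Nm) : ∀ (xs : List Nm), w ∈ xs →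
    ren xs (xs.map ρ) w = ρ w := by
  intro xs
  induction xs with
  | nil => intro h; simp at h
  | cons x xs ih =>
    intro h
    by_cases hx : x = w
    · subst hx
      simp [ren]
    · have h1 := ih (by
        rcases List.mem_cons.1 h with h | h
        · exact absurd h.symm hx
        · exact h)
      unfold ren at h1 ⊢
      rw [List.takeWhile_cons_of_pos (by simpa using hx)]
      simpa using h1

theorem ren_mem (xs ys : List Nm) (w : Nm) : ren xs ys w = w ∨ ren xs ys w ∈ ys := by
  unfold ren
  cases h : ys.drop (xs.takeWhile (fun x => !decide (x = w))).length with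
  | nil => left; rfl
  | cons y l =>
    right
    have : y ∈ ys.drop (xs.takeWhile (fun x => !decide (x = w))).length := by rw [h]; simp
    exact List.mem_of_mem_drop this

/-- The assignment at a stage, after a renaming. -/
def qr (L s : ℕ) (xs ys : List Nm) : Nm → Fm := fun w => var (qn L s (ren xs ys w))

/-- A formula under the assignment of a stage, after a renaming. -/
def ap (L s : ℕ) (xs ys : List Nm) (C : Fm) : Fm := C.subst (qr L s xs ys)

theorem ap_zero (L : ℕ) (C : Fm) : ap L 0 [] [] C = C := Fm.subst_var C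

theorem nms_subst (C : Fm) (ρ : Nm → Nm) :
    nms (C.subst (fun w => var (ρ w))) = (nms C).map ρ := by
  induction C with
  | var w => rfl
  | neg A ih => simpa [Fm.subst, nms] using ih
  | and A B ih1 ih2 => simp [Fm.subst, nms, ih1, ih2]
  | or A B ih1 ih2 => simp [Fm.subst, nms, ih1, ih2]
  | imp A B ih1 ih2 => simp [Fm.subst, nms, ih1, ih2]

/-- A renamed formula is recovered from its list of variables. -/
theorem ap_ren (L s : ℕ) (B : Fm) (ρ : Nm → Nm) :
    ap L s (nms B) (nms (B.subst (fun w => var (ρ w)))) B =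
      ap L s [] [] (B.subst (fun w => var (ρ w))) := by
  unfold ap
  rw [Fm.subst_subst]
  apply Fm.subst_congr
  intro x hx
  simp only [Fm.subst, qr, nms_subst, ren_nil]
  rw [ren_map ρ x (nms B) (mem_nms.2 hx)]

theorem vars_subst {A : Fm} {s : Nm → Fm} {x : Nm} (h : x ∈ (A.subst s).vars) :
    ∃ w ∈ A.vars, x ∈ (s w).vars := by
  induction A with
  | var w => exact ⟨w, rfl, h⟩
  | neg A ih => exact ih h
  | and A B ih1 ih2 =>
    rcases h with h | h
    · obtain ⟨w, h1, h2⟩ := ih1 h; exact ⟨w, Or.inl h1, h2⟩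
    · obtain ⟨w, h1, h2⟩ := ih2 h; exact ⟨w, Or.inr h1, h2⟩
  | or A B ih1 ih2 =>
    rcases h with h | h
    · obtain ⟨w, h1, h2⟩ := ih1 h; exact ⟨w, Or.inl h1, h2⟩
    · obtain ⟨w, h1, h2⟩ := ih2 h; exact ⟨w, Or.inr h1, h2⟩
  | imp A B ih1 ih2 =>
    rcases h with h | h
    · obtain ⟨w, h1, h2⟩ := ih1 h; exact ⟨w, Or.inl h1, h2⟩
    · obtain ⟨w, h1, h2⟩ := ih2 h; exact ⟨w, Or.inr h1, h2⟩

/-! ### Candidates and extension axioms -/

/-- A candidate: a later line, its stage, and a renaming. -/
abbrev Cd : Type := Fm × ℕ × List Nm × List Nm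

/-- The candidates for the line `C` followed by the lines `rest`. -/
def candsOf (C : Fm) (rest : List Fm) : List Cd :=
  (tl rest).flatMap (fun p => [(p.1, p.2.length * (p.2.length + 1), [], []),
    (p.1, p.2.length * (p.2.length + 1), nms C, nms p.1)])

theorem candsOf_length (C : Fm) (rest : List Fm) :
    (candsOf C rest).length = 2 * rest.length := by
  unfold candsOf
  rw [List.length_flatMap]
  simp [tl_length]
  omega

/-- The condition of a candidate. -/
def cnd (L : ℕ) (C : Fm) (c : Cd) : Fm :=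
  Fm.and (neg (ap L c.2.1 [] [] c.1)) (neg (ap L c.2.1 c.2.2.1 c.2.2.2 C))

/-- If-then-else. -/
def ite3 (G X Y : Fm) : Fm := Fm.or (Fm.and G X) (Fm.and (neg G) Y)

/-- The extension axioms for one candidate. -/
def axs (V : List Nm) (L : ℕ) (C : Fm) (c : Cd) (s' s'' : ℕ) : List (Nm × Fm) :=
  V.map (fun t => (qn L s' t,
    ite3 (cnd L C c) (var (qn L c.2.1 (ren c.2.2.1 c.2.2.2 t))) (var (qn L s'' t))))

/-- The stage number of the `m`-th candidate from the end. -/
def stg (r m : ℕ) : ℕ := if m = 0 then 0 else r * (r - 1) + m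

theorem stg_full (r : ℕ) : stg r (2 * r) = r * (r + 1) := by
  unfold stg
  cases r with
  | zero => rfl
  | succ r => rw [if_neg (by omega), Nat.add_sub_cancel]; ring

/-- The extension axioms for one line. -/
def chainAx (V : List Nm) (L : ℕ) (C : Fm) (r : ℕ) (cs : List Cd) : List (Nm × Fm) :=
  (tl cs).reverse.flatMap (fun p => axs V L C p.1 (stg r (p.2.length + 1)) (stg r p.2.length))

theorem chainAx_cons (V : List Nm) (L : ℕ) (C : Fm) (r : ℕ) (c : Cd) (cs : List Cd) :
    chainAx V L C r (c :: cs) =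
      chainAx V L C r cs ++ axs V L C c (stg r (cs.length + 1)) (stg r cs.length) := by
  unfold chainAx
  rw [tl_cons, List.reverse_cons, List.flatMap_append]
  simp

/-- The extension axioms for a list of lines. -/
def AxP (V : List Nm) (L : ℕ) (π : List Fm) : List (Nm × Fm) :=
  (tl π).reverse.flatMap (fun p => chainAx V L p.1 p.2.length (candsOf p.1 p.2))

theorem AxP_cons (V : List Nm) (L : ℕ) (C : Fm) (rest : List Fm) :
    AxP V L (C :: rest) = AxP V L rest ++ chainAx V L C rest.length (candsOf C rest) := by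
  unfold AxP
  rw [tl_cons, List.reverse_cons, List.flatMap_append]
  simp

/-! ### The new variables are new -/

/-- Names up to stage `s`. -/
def Nb (L s : ℕ) (x : Nm) : Prop :=
  x.length < L ∨ ∃ s' t, s' ≠ 0 ∧ s' ≤ s ∧ x = qn L s' t

theorem Nb.mono {L s s' : ℕ} {x : Nm} (h : Nb L s x) (hs : s ≤ s') : Nb L s' x := by
  rcases h with h | ⟨a, t, h1, h2, h3⟩
  · exact Or.inl h
  · exact Or.inr ⟨a, t, h1, h2.trans hs, h3⟩

theorem Nb_qn {L s : ℕ} {t : Nm} (ht : t.length < L) : Nb L s (qn L s t) := by
  by_cases h : s = 0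
  · subst h; exact Or.inl ht
  · exact Or.inr ⟨s, t, h, le_rfl, rfl⟩

theorem Nb.ne {L s s' : ℕ} {x t : Nm} (h : Nb L s x) (hs : s < s') : x ≠ qn L s' t := by
  rintro rfl
  rcases h with h | ⟨a, t', h1, h2, h3⟩
  · rw [qn_length (by omega)] at h; omega
  · have := (qn_inj (by omega) h1 h3).1
    omega

/-- In the list of pairs every first component is new: long, not in the set `S`, not in its own
second component and not in the earlier pairs. -/
def GA (L : ℕ) : Set Nm → List (Nm × Fm) → Prop
  | _, [] => True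
  | S, e :: l => L < e.1.length ∧ e.1 ∉ S ∧ e.1 ∉ e.2.vars ∧ GA L (S ∪ ({e.1} ∪ e.2.vars)) l

theorem GA.mono {L : ℕ} {l : List (Nm × Fm)} : ∀ {S S' : Set Nm}, S ⊆ S' → GA L S' l →
    GA L S l := by
  induction l with
  | nil => intro S S' _ _; trivial
  | cons e l ih =>
    intro S S' h h1
    obtain ⟨a, b, c, d⟩ := h1
    exact ⟨a, fun h2 => b (h h2), c, ih (Set.union_subset_union_left _ h) d⟩

/-- All names in a list of pairs. -/
def nmSet (l : List (Nm × Fm)) : Set Nm := {x | ∃ e ∈ l, x ∈ ({e.1} ∪ e.2.vars : Set Nm)}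

theorem GA.append {L : ℕ} {l l' : List (Nm × Fm)} : ∀ {S : Set Nm}, GA L S l →
    GA L (S ∪ nmSet l) l' → GA L S (l ++ l') := by
  induction l with
  | nil =>
    intro S _ h
    exact GA.mono Set.subset_union_left h
  | cons e l ih =>
    intro S h1 h2
    obtain ⟨a, b, c, d⟩ := h1
    refine ⟨a, b, c, ih d (GA.mono ?_ h2)⟩
    rintro x ((hx | hx) | ⟨e', he', hx⟩)
    · exact Or.inl hx
    · exact Or.inr ⟨e, by simp, hx⟩
    · exact Or.inr ⟨e', List.mem_cons_of_mem _ he', hx⟩

theorem vars_ap {L s : ℕ} {xs ys : List Nm} {C : Fm} (hC : ∀ x ∈ C.vars, x.length < L)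
    (hy : ∀ y ∈ ys, y.length < L) {x : Nm} (h : x ∈ (ap L s xs ys C).vars) : Nb L s x := by
  obtain ⟨w, hw, hx⟩ := vars_subst h
  have hx : x = qn L s (ren xs ys w) := hx
  rw [hx]
  apply Nb_qn
  rcases ren_mem xs ys w with h1 | h1
  · rw [h1]; exact hC w hw
  · exact hy _ h1

/-- A candidate uses only short names and stages up to `b`. -/
def CdOK (L b : ℕ) (c : Cd) : Prop :=
  (∀ x ∈ c.1.vars, x.length < L) ∧ c.2.1 ≤ b ∧ (∀ y ∈ c.2.2.2, y.length < L)

theorem vars_cnd {L b : ℕ} {C : Fm} {c : Cd} (hC : ∀ x ∈ C.vars, x.length < L)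
    (hc : CdOK L b c) {x : Nm} (h : x ∈ (cnd L C c).vars) : Nb L b x := by
  obtain ⟨h1, h2, h3⟩ := hc
  rcases h with h | h
  · exact (vars_ap h1 (by simp) h).mono h2
  · exact (vars_ap hC h3 h).mono h2

theorem axs_GA {L : ℕ} {C : Fm} {c : Cd} {s : ℕ} {s' : ℕ} (hs : s < s')
    (hC : ∀ x ∈ C.vars, x.length < L) (hc : CdOK L s c) (s'' : ℕ) (hs'' : s'' ≤ s) :
    ∀ (V : List Nm), V.Nodup → (∀ t ∈ V, t.length < L) → ∀ (S : Set Nm),
    (∀ x ∈ S, Nb L s x ∨ ∃ t, t ∉ V ∧ x = qn L s' t) → GA L S (axs V L C c s' s'') := by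
  intro V
  induction V with
  | nil => intro _ _ S _; trivial
  | cons t V ih =>
    intro hnd hV S hS
    rw [List.nodup_cons] at hnd
    have hφ : ∀ x ∈ (ite3 (cnd L C c) (var (qn L c.2.1 (ren c.2.2.1 c.2.2.2 t)))
        (var (qn L s'' t))).vars, Nb L s x := by
      intro x hx
      have ht := hV t (by simp)
      rcases hx with (hx | hx) | (hx | hx)
      · exact vars_cnd hC hc hx
      · have hx : x = qn L c.2.1 (ren c.2.2.1 c.2.2.2 t) := hx
        rw [hx]
        refine (Nb_qn ?_).mono hc.2.1
        rcases ren_mem c.2.2.1 c.2.2.2 t with h1 | h1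
        · rw [h1]; exact ht
        · exact hc.2.2 _ h1
      · exact vars_cnd hC hc hx
      · have hx : x = qn L s'' t := hx
        rw [hx]
        exact (Nb_qn ht).mono hs''
    refine ⟨?_, ?_, ?_, ?_⟩
    · show L < (qn L s' t).length
      rw [qn_length (by omega)]; omega
    · intro h
      rcases hS _ h with h1 | ⟨t', h1, h2⟩
      · exact h1.ne hs rfl
      · have := (qn_inj (by omega) (by omega) h2).2
        subst this
        exact h1 (by simp)
    · intro h
      exact (hφ _ h).ne hs rfl
    · refine ih hnd.2 (fun t' ht' => hV t' (List.mem_cons_of_mem _ ht')) _ ?_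
      rintro x (hx | (hx | hx))
      · rcases hS x hx with h1 | ⟨t', h1, h2⟩
        · exact Or.inl h1
        · exact Or.inr ⟨t', fun h => h1 (List.mem_cons_of_mem _ h), h2⟩
      · exact Or.inr ⟨t, hnd.1, hx⟩
      · exact Or.inl (hφ x hx)

theorem nmSet_axs {L : ℕ} {C : Fm} {c : Cd} {s : ℕ} {s' : ℕ} (hs : s < s')
    (hC : ∀ x ∈ C.vars, x.length < L) (hc : CdOK L s c) (s'' : ℕ) (hs'' : s'' ≤ s)
    (V : List Nm) (hV : ∀ t ∈ V, t.length < L) : ∀ x ∈ nmSet (axs V L C c s' s''),
    Nb L s' x := by
  rintro x ⟨e, he, hx⟩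
  obtain ⟨t, ht, rfl⟩ := List.mem_map.1 he
  have ht' := hV t ht
  rcases hx with hx | ((hx | hx) | (hx | hx))
  · have hx : x = qn L s' t := hx
    rw [hx]; exact Nb_qn ht'
  · exact (vars_cnd hC hc hx).mono hs.le
  · have hx : x = qn L c.2.1 (ren c.2.2.1 c.2.2.2 t) := hx
    rw [hx]
    refine (Nb_qn ?_).mono (hc.2.1.trans hs.le)
    rcases ren_mem c.2.2.1 c.2.2.2 t with h1 | h1
    · rw [h1]; exact ht'
    · exact hc.2.2 _ h1
  · exact (vars_cnd hC hc hx).mono hs.le
  · have hx : x = qn L s'' t := hx
    rw [hx]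
    exact (Nb_qn ht').mono (hs''.trans hs.le)

theorem nmSet_append (l l' : List (Nm × Fm)) : nmSet (l ++ l') = nmSet l ∪ nmSet l' := by
  ext x
  constructor
  · rintro ⟨e, he, hx⟩
    rcases List.mem_append.1 he with he | he
    · exact Or.inl ⟨e, he, hx⟩
    · exact Or.inr ⟨e, he, hx⟩
  · rintro (⟨e, he, hx⟩ | ⟨e, he, hx⟩)
    · exact ⟨e, List.mem_append_left _ he, hx⟩
    · exact ⟨e, List.mem_append_right _ he, hx⟩

theorem chain_GA {L : ℕ} {C : Fm} (hC : ∀ x ∈ C.vars, x.length < L) (V : List Nm)
    (hnd : V.Nodup) (hV : ∀ t ∈ V, t.length < L) (r : ℕ) : ∀ (cs : List Cd),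
    (∀ c ∈ cs, CdOK L (r * (r - 1)) c) → ∀ S : Set Nm, (∀ x ∈ S, Nb L (r * (r - 1)) x) →
    GA L S (chainAx V L C r cs) ∧
      ∀ x ∈ nmSet (chainAx V L C r cs), Nb L (r * (r - 1) + cs.length) x := by
  intro cs
  induction cs with
  | nil =>
    intro _ S _
    refine ⟨trivial, ?_⟩
    rintro x ⟨e, he, _⟩
    simp [chainAx, tl_nil] at he
  | cons c cs ih =>
    intro hcs S hS
    obtain ⟨h1, h2⟩ := ih (fun c' hc' => hcs c' (List.mem_cons_of_mem _ hc')) S hS
    have hc : CdOK L (r * (r - 1) + cs.length) c := by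
      obtain ⟨a, b, d⟩ := hcs c (by simp)
      exact ⟨a, by omega, d⟩
    have e1 : stg r (cs.length + 1) = r * (r - 1) + cs.length + 1 := by
      unfold stg; rw [if_neg (by omega)]; omega
    have e2 : stg r cs.length ≤ r * (r - 1) + cs.length := by
      unfold stg; split_ifs <;> omega
    rw [chainAx_cons, nmSet_append]
    constructor
    · refine GA.append h1 ?_
      refine axs_GA (s := r * (r - 1) + cs.length) (by omega) hC hc _ e2 V hnd hV _ ?_
      rintro x (hx | hx)
      · exact Or.inl ((hS x hx).mono (by omega))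
      · exact Or.inl (h2 x hx)
    · rintro x (hx | hx)
      · exact (h2 x hx).mono (by simp)
      · have := nmSet_axs (s := r * (r - 1) + cs.length) (s' := stg r (cs.length + 1))
          (by omega) hC hc _ e2 V hV x hx
        rw [e1] at this
        exact this.mono (by rw [List.length_cons]; omega)

theorem candsOf_OK {L : ℕ} {C : Fm} {rest : List Fm}
    (hr : ∀ D ∈ rest, ∀ x ∈ D.vars, x.length < L) :
    ∀ c ∈ candsOf C rest, CdOK L (rest.length * (rest.length - 1)) c := by
  intro c hc
  obtain ⟨⟨D, t⟩, hp, hc⟩ := List.mem_flatMap.1 hc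
  obtain ⟨p, hp⟩ := mem_tl.1 hp
  have hD : ∀ x ∈ D.vars, x.length < L := hr D (by rw [hp]; simp)
  have hlen : rest.length = p.length + (t.length + 1) := by rw [hp]; simp
  have hle : t.length * (t.length + 1) ≤ rest.length * (rest.length - 1) := by
    rw [Nat.mul_comm]
    apply Nat.mul_le_mul <;> omega
  simp only [List.mem_cons, List.not_mem_nil, or_false] at hc
  rcases hc with rfl | rfl
  · exact ⟨hD, hle, by simp⟩
  · exact ⟨hD, hle, fun y hy => hD y (mem_nms.1 hy)⟩

theorem AxP_GA {L : ℕ} (V : List Nm) (hnd : V.Nodup) (hV : ∀ t ∈ V, t.length < L) :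
    ∀ (π : List Fm), (∀ D ∈ π, ∀ x ∈ D.vars, x.length < L) →
    GA L {x | x.length < L} (AxP V L π) ∧
      ∀ x ∈ nmSet (AxP V L π), Nb L (π.length * (π.length - 1)) x := by
  intro π
  induction π with
  | nil =>
    intro _
    refine ⟨trivial, ?_⟩
    rintro x ⟨e, he, _⟩
    simp [AxP, tl_nil] at he
  | cons C rest ih =>
    intro hπ
    have hrest : ∀ D ∈ rest, ∀ x ∈ D.vars, x.length < L :=
      fun D hD => hπ D (List.mem_cons_of_mem _ hD)
    obtain ⟨h1, h2⟩ := ih hrest
    obtain ⟨h3, h4⟩ := chain_GA (hπ C (by simp)) V hnd hV rest.length (candsOf C rest)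
      (candsOf_OK hrest) ({x | x.length < L} ∪ nmSet (AxP V L rest)) (by
        rintro x (hx | hx)
        · exact Or.inl hx
        · exact h2 x hx)
    rw [AxP_cons, nmSet_append]
    refine ⟨GA.append h1 h3, ?_⟩
    have hle : rest.length * (rest.length - 1) + 2 * rest.length ≤
        (C :: rest).length * ((C :: rest).length - 1) := by
      rw [List.length_cons, Nat.add_sub_cancel]
      have := stg_full rest.length
      unfold stg at this
      split_ifs at this with h
      · have : rest.length = 0 := by omega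
        rw [this]
      · rw [this, Nat.mul_comm]
    rintro x (hx | hx)
    · exact (h2 x hx).mono (by omega)
    · have := h4 x hx
      rw [candsOf_length] at this
      exact this.mono hle

/-- New variables stay new after a substitution that fixes long names. -/
theorem GA.deriv {L : ℕ} {A : Fm} (hA : ∀ x ∈ A.vars, x.length < L) {F : List Rule}
    (σ : Nm → Fm) (hσ : ∀ w x, x ∈ (σ w).vars → L < x.length → x = w)
    (hσ' : ∀ w, L < w.length → σ w = var w) :
    ∀ (l : List (Nm × Fm)) (S : Set Nm) (π : List Fm),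
    Deriv (fun σ B => RuleStep F σ B ∨ ExtStep A σ B) π →
    (∀ C ∈ π, ∀ x ∈ C.vars, L < x.length → x ∈ S) → GA L S l →
    Deriv (fun σ B => RuleStep F σ B ∨ ExtStep A σ B) (π ++ l.map (fun e => (eAx e).subst σ)) := by
  intro l
  induction l with
  | nil => intro S π h _ _; simpa using h
  | cons e l ih =>
    intro S π h hS hG
    obtain ⟨a, b, c, d⟩ := hG
    have e1 : (eAx e).subst σ = Fm.iff (var e.1) (e.2.subst σ) := by
      have : σ e.1 = var e.1 := hσ' _ a
      simp only [eAx, Fm.iff, Fm.subst, this]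
    have hφ : ∀ x ∈ (e.2.subst σ).vars, L < x.length → x ∈ e.2.vars := by
      intro x hx hL
      obtain ⟨w, hw, hx⟩ := vars_subst hx
      rw [hσ w x hx hL]
      exact hw
    have h1 : Deriv (fun σ B => RuleStep F σ B ∨ ExtStep A σ B)
        (π ++ [(eAx e).subst σ]) := by
      refine Deriv.snoc h (Or.inr ⟨e.1, e.2.subst σ, e1, ?_, ?_, ?_⟩)
      · exact fun hh => c (hφ _ hh a)
      · exact fun C hC hh => b (hS C hC _ hh a)
      · intro hh
        have := hA _ hh
        omega
    have h2 := ih (S ∪ ({e.1} ∪ e.2.vars)) (π ++ [(eAx e).subst σ]) h1 (by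
      intro C hC x hx hL
      rcases List.mem_append.1 hC with hC | hC
      · exact Or.inl (hS C hC x hx hL)
      · rw [List.mem_singleton] at hC
        subst hC
        rw [e1] at hx
        right
        rcases hx with (hx | hx) | (hx | hx)
        · exact Or.inl hx
        · exact Or.inr (hφ x hx hL)
        · exact Or.inr (hφ x hx hL)
        · exact Or.inl hx) d
    simpa [List.append_assoc] using h2

end Pool.Agent.H.MP_0447ec_lc.PS
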