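import Pool.Agent.H.MP_0447ec_lc.PS.PolySim

/-!
# The simulation by extended Frege is computable in polynomial time, continued
-/

namespace Pool.Agent.H.MP_0447ec_lc.PS

open Pool.Agent.H.MP_0447ec_lc.PT

section

variable {F : List Rule} (k : Kit2 F)

/-- Instances of the congruence lines for a binary connective. -/
def inst2 (n : ℕ) (s : Nm → Fm) : List Fm :=
  if n = 2 then inst k.Ea s else if n = 3 then inst k.Eo s else inst k.Ei s

theorem eqL_sz : ∃ c : ℕ, ∀ (H : Fm) (σ τ : Nm → Fm) (leaf : Nm → List Fm) (C : Fm) (K M : ℕ),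
    1 ≤ K → (∀ w ∈ C.vars, sz (σ w) ≤ K ∧ sz (τ w) ≤ K ∧ sz (leaf w) ≤ K) →
    sz H ≤ M → K * sz C ≤ M → ∀ A : Fm, sz A ≤ sz C → (∀ w ∈ A.vars, w ∈ C.vars) →
    sz (eqL k H σ τ leaf A) ≤ sz A * (K + c * (M + 1)) := by
  obtain ⟨c1, h1⟩ := sz_instC k.En
  obtain ⟨c2, h2⟩ := sz_instC k.Ea
  obtain ⟨c3, h3⟩ := sz_instC k.Eo
  obtain ⟨c4, h4⟩ := sz_instC k.Ei
  refine ⟨c1 + c2 + c3 + c4, fun H σ τ leaf C K M hK hb hH hM A => ?_⟩
  have hsub : ∀ B : Fm, sz B ≤ sz C → (∀ w ∈ B.vars, w ∈ C.vars) →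
      sz (B.subst σ) ≤ M ∧ sz (B.subst τ) ≤ M := by
    intro B hB hv
    have e1 := sz_subst_le hK B (fun w hw => (hb w (hv w hw)).1)
    have e2 := sz_subst_le hK B (fun w hw => (hb w (hv w hw)).2.1)
    have e3 : K * sz B ≤ K * sz C := Nat.mul_le_mul_left K hB
    omega
  have hle : ∀ c' : ℕ, c' ≤ c1 + c2 + c3 + c4 → ∀ x : ℕ, x ≤ c' * (M + 1) →
      x ≤ (c1 + c2 + c3 + c4) * (M + 1) := fun c' hc' x hx =>
    hx.trans (Nat.mul_le_mul_right _ hc')
  set W := K + (c1 + c2 + c3 + c4) * (M + 1) with hW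
  have bin : ∀ (x y z : List Fm) (a b d : ℕ), sz x ≤ a * W → sz y ≤ b * W → sz z ≤ W →
      7 ≤ d → sz ((x ++ y) ++ z) ≤ (a + b + d) * W := by
    intro x y z a b d hx hy hz hd
    have e1 := sz_append x y
    have e2 := sz_append (x ++ y) z
    have e3 : 7 * W ≤ d * W := Nat.mul_le_mul_right W hd
    rw [Nat.add_mul, Nat.add_mul]
    omega
  induction A with
  | var w =>
    intro hA hv
    have e1 := (hb w (hv w rfl)).2.2
    have e2 : 1 * W ≤ sz (Fm.var w) * W := Nat.mul_le_mul_right _ (sz_pos _)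
    show sz (leaf w) ≤ _
    omega
  | neg A ih =>
    intro hA hv
    rw [sz_neg] at hA
    obtain ⟨f1, f2⟩ := hsub A (by omega) hv
    have f3 := h1 (s3 H (A.subst σ) (A.subst τ)) M (sz_s3_le hH f1 f2)
    have f4 := hle c1 (by omega) _ f3
    have f5 := ih (by omega) hv
    have e1 := sz_append (eqL k H σ τ leaf A) (inst k.En (s3 H (A.subst σ) (A.subst τ)))
    rw [eqL, sz_neg, Nat.add_mul]
    omega
  | and A B ih1 ih2 =>
    intro hA hv
    rw [sz_and] at hA
    obtain ⟨f1, f2⟩ := hsub A (by omega) (fun w hw => hv w (Or.inl hw))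
    obtain ⟨g1, g2⟩ := hsub B (by omega) (fun w hw => hv w (Or.inr hw))
    have f3 := h2 (s5 H (A.subst σ) (A.subst τ) (B.subst σ) (B.subst τ)) M
      (sz_s5_le hH f1 f2 g1 g2)
    have f4 := hle c2 (by omega) _ f3
    rw [eqL, sz_and]
    exact bin _ _ _ _ _ _ (ih1 (by omega) (fun w hw => hv w (Or.inl hw)))
      (ih2 (by omega) (fun w hw => hv w (Or.inr hw))) (by omega) (by omega)
  | or A B ih1 ih2 =>
    intro hA hv
    rw [sz_or] at hA
    obtain ⟨f1, f2⟩ := hsub A (by omega) (fun w hw => hv w (Or.inl hw))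
    obtain ⟨g1, g2⟩ := hsub B (by omega) (fun w hw => hv w (Or.inr hw))
    have f3 := h3 (s5 H (A.subst σ) (A.subst τ) (B.subst σ) (B.subst τ)) M
      (sz_s5_le hH f1 f2 g1 g2)
    have f4 := hle c3 (by omega) _ f3
    rw [eqL, sz_or]
    exact bin _ _ _ _ _ _ (ih1 (by omega) (fun w hw => hv w (Or.inl hw)))
      (ih2 (by omega) (fun w hw => hv w (Or.inr hw))) (by omega) (by omega)
  | imp A B ih1 ih2 =>
    intro hA hv
    rw [sz_imp] at hA
    obtain ⟨f1, f2⟩ := hsub A (by omega) (fun w hw => hv w (Or.inl hw))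
    obtain ⟨g1, g2⟩ := hsub B (by omega) (fun w hw => hv w (Or.inr hw))
    have f3 := h4 (s5 H (A.subst σ) (A.subst τ) (B.subst σ) (B.subst τ)) M
      (sz_s5_le hH f1 f2 g1 g2)
    have f4 := hle c4 (by omega) _ f3
    rw [eqL, sz_imp]
    exact bin _ _ _ _ _ _ (ih1 (by omega) (fun w hw => hv w (Or.inl hw)))
      (ih2 (by omega) (fun w hw => hv w (Or.inr hw))) (by omega) (by omega)

theorem vars_of_mem_subs {C A : Fm} (h : A ∈ subs C) : ∀ w ∈ A.vars, w ∈ C.vars := by
  induction C with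
  | var w => simp only [subs, List.mem_singleton] at h; subst h; exact fun _ hw => hw
  | neg B ih =>
    simp only [subs, List.mem_cons] at h
    rcases h with h | h
    · subst h; exact fun _ hw => hw
    · exact ih h
  | and B D ih1 ih2 =>
    simp only [subs, List.mem_cons, List.mem_append] at h
    rcases h with h | h | h
    · subst h; exact fun _ hw => hw
    · exact fun w hw => Or.inl (ih1 h w hw)
    · exact fun w hw => Or.inr (ih2 h w hw)
  | or B D ih1 ih2 =>
    simp only [subs, List.mem_cons, List.mem_append] at h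
    rcases h with h | h | h
    · subst h; exact fun _ hw => hw
    · exact fun w hw => Or.inl (ih1 h w hw)
    · exact fun w hw => Or.inr (ih2 h w hw)
  | imp B D ih1 ih2 =>
    simp only [subs, List.mem_cons, List.mem_append] at h
    rcases h with h | h | h
    · subst h; exact fun _ hw => hw
    · exact fun w hw => Or.inl (ih1 h w hw)
    · exact fun w hw => Or.inr (ih2 h w hw)

variable {α β γ : Type} [Enc α] [Enc β] [Enc γ]

theorem Poly.eqL {H G : α → Fm} {σ τ : α → Nm → Fm} {leaf : α → Nm → List Fm} {K : α → ℕ}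
    (hH : Poly H) (hG : Poly G) (hσ : Poly (fun p : α × Nm => σ p.1 p.2))
    (hτ : Poly (fun p : α × Nm => τ p.1 p.2)) (hl : Poly (fun p : α × Nm => leaf p.1 p.2))
    (hK : PBdd K) (hK1 : ∀ a, 1 ≤ K a) (hb : ∀ a, ∀ w ∈ (G a).vars,
      sz (σ a w) ≤ K a ∧ sz (τ a w) ≤ K a ∧ sz (leaf a w) ≤ K a) :
    Poly (fun a => PS.eqL k (H a) (σ a) (τ a) (leaf a) (G a)) := by
  have e : ∀ (H : Fm) (σ τ : Nm → Fm) (leaf : Nm → List Fm) (A : Fm),
      fmFold (fun w => (σ w, τ w, leaf w))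
      (fun p => (Fm.neg p.1, Fm.neg p.2.1, p.2.2 ++ PS.inst k.En (PS.s3 H p.1 p.2.1)))
      (fun n p q => (PS.conn n p.1 q.1, PS.conn n p.2.1 q.2.1,
        (p.2.2 ++ q.2.2) ++ PS.inst2 k n (PS.s5 H p.1 p.2.1 q.1 q.2.1))) A =
      (A.subst σ, A.subst τ, PS.eqL k H σ τ leaf A) := by
    intro H σ τ leaf A
    induction A with
    | var w => rfl
    | neg A ih => simp only [fmFold, ih]; rfl
    | and A B ih1 ih2 => simp only [fmFold, ih1, ih2]; rfl
    | or A B ih1 ih2 => simp only [fmFold, ih1, ih2]; rfl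
    | imp A B ih1 ih2 => simp only [fmFold, ih1, ih2]; rfl
  obtain ⟨c, hc⟩ := eqL_sz k
  have hn : Poly (fun p : α × (Fm × Fm × List Fm) =>
      (Fm.neg p.2.1, Fm.neg p.2.2.1, p.2.2.2 ++ PS.inst k.En (PS.s3 (H p.1) p.2.1 p.2.2.1))) := by
    have : Poly (fun p : α × (Fm × Fm × List Fm) =>
        PS.inst k.En (PS.s3 (H p.1) p.2.1 p.2.2.1)) :=
      Poly.inst _ (Poly.s3 (by fun_prop) (by fun_prop) (by fun_prop))
    fun_prop
  have h2 : Poly (fun p : α × ℕ × (Fm × Fm × List Fm) × (Fm × Fm × List Fm) =>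
      (PS.conn p.2.1 p.2.2.1.1 p.2.2.2.1, PS.conn p.2.1 p.2.2.1.2.1 p.2.2.2.2.1,
        (p.2.2.1.2.2 ++ p.2.2.2.2.2) ++ PS.inst2 k p.2.1
          (PS.s5 (H p.1) p.2.2.1.1 p.2.2.1.2.1 p.2.2.2.1 p.2.2.2.2.1))) := by
    have h5 : ∀ D : List Fm, Poly (fun p : α × ℕ × (Fm × Fm × List Fm) × (Fm × Fm × List Fm) =>
        PS.inst D (PS.s5 (H p.1) p.2.2.1.1 p.2.2.1.2.1 p.2.2.2.1 p.2.2.2.2.1)) := fun D =>
      Poly.inst _ (Poly.s5 (by fun_prop) (by fun_prop) (by fun_prop) (by fun_prop)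
        (by fun_prop))
    have : Poly (fun p : α × ℕ × (Fm × Fm × List Fm) × (Fm × Fm × List Fm) =>
        PS.inst2 k p.2.1 (PS.s5 (H p.1) p.2.2.1.1 p.2.2.1.2.1 p.2.2.2.1 p.2.2.2.2.1)) := by
      unfold inst2
      exact Poly.ite (by fun_prop) (h5 k.Ea) (Poly.ite (by fun_prop) (h5 k.Eo) (h5 k.Ei))
    fun_prop
  have key := Poly.ofFold (gv := fun a w => (σ a w, τ a w, leaf a w))
    (gn := fun a (p : Fm × Fm × List Fm) =>
      (Fm.neg p.1, Fm.neg p.2.1, p.2.2 ++ PS.inst k.En (PS.s3 (H a) p.1 p.2.1)))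
    (g2 := fun a n p q => (PS.conn n p.1 q.1, PS.conn n p.2.1 q.2.1,
        (p.2.2 ++ q.2.2) ++ PS.inst2 k n (PS.s5 (H a) p.1 p.2.1 q.1 q.2.1)))
    (B := fun a => 2 * (K a * sz (G a)) + 2 +
      sz (G a) * (K a + c * ((sz (H a) + K a * sz (G a)) + 1)))
    hG (Poly.pair hσ (Poly.pair hτ hl)) hn h2
    ((((PBdd.const 2).mul (hK.mul hG.sz_le)).add (PBdd.const 2)).add
      (hG.sz_le.mul (hK.add ((PBdd.const c).mul
        (((hH.sz_le).add (hK.mul hG.sz_le)).add (PBdd.const 1)))))) (by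
      intro a A hA
      rw [e, sz_pair, sz_pair]
      have h1 := sz_le_of_mem_subs hA
      have hv := vars_of_mem_subs hA
      have h2 := sz_subst_le (hK1 a) A (fun w hw => (hb a w (hv w hw)).1)
      have h3 := sz_subst_le (hK1 a) A (fun w hw => (hb a w (hv w hw)).2.1)
      have h4 : K a * sz A ≤ K a * sz (G a) := Nat.mul_le_mul_left _ h1
      have h5 := hc (H a) (σ a) (τ a) (leaf a) (G a) (K a) (sz (H a) + K a * sz (G a))
        (hK1 a) (hb a) (by omega) (by omega) A h1 hv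
      have h6 : sz A * (K a + c * ((sz (H a) + K a * sz (G a)) + 1)) ≤
          sz (G a) * (K a + c * ((sz (H a) + K a * sz (G a)) + 1)) :=
        Nat.mul_le_mul_right _ h1
      omega)
  have h7 := Poly.comp (f := fun q : Fm × Fm × List Fm => q.2.2) (by fun_prop) key
  refine (show (fun a => PS.eqL k (H a) (σ a) (τ a) (leaf a) (G a)) = _ from ?_) ▸ h7
  funext a
  rw [e]

theorem Poly.lf {L s s' : α → ℕ} {C : α → Fm} {c : α → Cd} {w : α → Nm} (hL : Poly L)
    (hC : Poly C) (hc : Poly c) (hs : Poly s) (hs' : Poly s') (hw : Poly w) (x : Nm) :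
    Poly (fun a => PS.lf (L a) (C a) (c a) (s a) (s' a) (w a) x) := by
  unfold PS.lf
  exact Poly.s5 (by fun_prop) (by fun_prop) (by fun_prop) (by fun_prop) (by fun_prop) x

/-- A bound for the sizes of the values at the leaves. -/
def bndL (L s s' : ℕ) (C : Fm) (c : Cd) : ℕ :=
  sz C + sz c.2.2.2 + 4 * (L + s + s' + c.2.1) + 6 + sz (PS.cnd L C c)

theorem sz_lf_le {L s s' : ℕ} {C : Fm} {c : Cd} {w : Nm} (h : w ∈ C.vars) (x : Nm) :
    sz (PS.lf L C c s s' w x) ≤ bndL L s s' C c := by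
  have h1 := sz_name_le h
  have h2 := sz_qn_le L s w
  have h3 := sz_qn_le L s' w
  have h4 := sz_qn_le L c.2.1 (ren c.2.2.1 c.2.2.2 w)
  have h5 := sz_ren_le c.2.2.1 c.2.2.2 w
  apply sz_s5_le
  · rw [sz_var]; unfold bndL; omega
  · unfold bndL; omega
  · rw [sz_var]; unfold bndL; omega
  · rw [sz_var]; unfold bndL; omega
  · rw [sz_var]; unfold bndL; omega

theorem Poly.blkC {L s s' : α → ℕ} {C : α → Fm} {c : α → Cd} (hL : Poly L)
    (hC : Poly C) (hc : Poly c) (hs : Poly s) (hs' : Poly s') :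
    Poly (fun a => PS.blkC k (L a) (C a) (c a) (s a) (s' a)) := by
  unfold PS.blkC
  obtain ⟨c1, h1⟩ := sz_instC k.L1
  obtain ⟨c2, h2⟩ := sz_instC k.L2
  have hcnd : Poly (fun a => PS.cnd (L a) (C a) (c a)) := by fun_prop
  have hc4 : Poly (fun a => (c a).2.2.2) := by fun_prop
  have hc2 : Poly (fun a => (c a).2.1) := by fun_prop
  have hB : PBdd (fun a => sz (C a) + sz (c a).2.2.2 +
      4 * (sz (L a) + sz (s a) + sz (s' a) + sz (c a).2.1) + 6 +
      sz (PS.cnd (L a) (C a) (c a))) :=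
    (((hC.sz_le.add hc4.sz_le).add ((PBdd.const 4).mul
      (((hL.sz_le.add hs.sz_le).add hs'.sz_le).add hc2.sz_le))).add (PBdd.const 6)).add hcnd.sz_le
  have hle : ∀ a, bndL (L a) (s a) (s' a) (C a) (c a) ≤ sz (C a) + sz (c a).2.2.2 +
      4 * (sz (L a) + sz (s a) + sz (s' a) + sz (c a).2.1) + 6 +
      sz (PS.cnd (L a) (C a) (c a)) := by
    intro a
    unfold bndL
    have e1 : L a ≤ sz (L a) := by rw [sz_nat]; omega
    have e2 : s a ≤ sz (s a) := by rw [sz_nat]; omega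
    have e3 : s' a ≤ sz (s' a) := by rw [sz_nat]; omega
    have e4 : (c a).2.1 ≤ sz (c a).2.1 := by rw [sz_nat]; omega
    omega
  have hleaf : ∀ (D : List Fm), Poly (fun p : α × Nm =>
      PS.inst D (PS.lf (L p.1) (C p.1) (c p.1) (s p.1) (s' p.1) p.2)) := fun D =>
    Poly.inst _ (Poly.lf (L := fun p : α × Nm => L p.1) (s := fun p : α × Nm => s p.1)
      (s' := fun p : α × Nm => s' p.1) (C := fun p : α × Nm => C p.1)
      (c := fun p : α × Nm => c p.1) (w := fun p : α × Nm => p.2)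
      (by fun_prop) (by fun_prop) (by fun_prop) (by fun_prop) (by fun_prop) (by fun_prop))
  refine Poly.append (Poly.append (Poly.append ?_ ?_) ?_) ?_
  · refine Poly.eqL k (H := fun a => PS.cnd (L a) (C a) (c a)) (G := C)
      (σ := fun a => PS.qr (L a) (s a) [] []) (τ := fun a => PS.qr (L a) (c a).2.1 (c a).2.2.1
        (c a).2.2.2)
      (leaf := fun a w => PS.inst k.L1 (PS.lf (L a) (C a) (c a) (s a) (s' a) w))
      (K := fun a => (c1 + 1) * ((sz (C a) + sz (c a).2.2.2 +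
      4 * (sz (L a) + sz (s a) + sz (s' a) + sz (c a).2.1) + 6 +
      sz (PS.cnd (L a) (C a) (c a))) + 1)) hcnd hC (by fun_prop) (by fun_prop) (hleaf k.L1)
      ((PBdd.const (c1 + 1)).mul (hB.add (PBdd.const 1))) ?_ ?_
    · intro a
      exact Nat.succ_le_of_lt (Nat.mul_pos (by omega) (by omega))
    · intro a w hw
      have h3 := hle a
      have h4 := h1 _ _ (fun x => sz_lf_le (L := L a) (s := s a) (s' := s' a) (c := c a) hw x)
      have h5 := sz_qr_le (L := L a) (s := s a) (xs := []) (ys := []) hw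
      have h6 := sz_qr_le (L := L a) (s := (c a).2.1) (xs := (c a).2.2.1) (ys := (c a).2.2.2) hw
      have h7 : bndL (L a) (s a) (s' a) (C a) (c a) + 1 ≤ (sz (C a) + sz (c a).2.2.2 +
        4 * (sz (L a) + sz (s a) + sz (s' a) + sz (c a).2.1) + 6 +
        sz (PS.cnd (L a) (C a) (c a))) + 1 := by omega
      have h8 := Nat.mul_le_mul_left c1 h7
      have h9 : bndN (L a) (s a) [] (C a) ≤ bndL (L a) (s a) (s' a) (C a) (c a) := by
        unfold bndN bndL
        have := sz_pos (c a).2.2.2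
        rw [sz_lnil]
        omega
      have h10 : bndN (L a) (c a).2.1 (c a).2.2.2 (C a) ≤
          bndL (L a) (s a) (s' a) (C a) (c a) := by
        unfold bndN bndL
        omega
      simp only [Nat.add_mul, Nat.one_mul] at h8 ⊢
      refine ⟨by omega, by omega, by omega⟩
  · refine Poly.eqL k (H := fun a => Fm.neg (PS.cnd (L a) (C a) (c a))) (G := C)
      (σ := fun a => PS.qr (L a) (s a) [] []) (τ := fun a => PS.qr (L a) (s' a) [] [])
      (leaf := fun a w => PS.inst k.L2 (PS.lf (L a) (C a) (c a) (s a) (s' a) w))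
      (K := fun a => (c2 + 1) * ((sz (C a) + sz (c a).2.2.2 +
      4 * (sz (L a) + sz (s a) + sz (s' a) + sz (c a).2.1) + 6 +
      sz (PS.cnd (L a) (C a) (c a))) + 1)) (by fun_prop) hC (by fun_prop) (by fun_prop)
      (hleaf k.L2)
      ((PBdd.const (c2 + 1)).mul (hB.add (PBdd.const 1))) ?_ ?_
    · intro a
      exact Nat.succ_le_of_lt (Nat.mul_pos (by omega) (by omega))
    · intro a w hw
      have h3 := hle a
      have h4 := h2 _ _ (fun x => sz_lf_le (L := L a) (s := s a) (s' := s' a) (c := c a) hw x)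
      have h5 := sz_qr_le (L := L a) (s := s a) (xs := []) (ys := []) hw
      have h6 := sz_qr_le (L := L a) (s := s' a) (xs := []) (ys := []) hw
      have h7 : bndL (L a) (s a) (s' a) (C a) (c a) + 1 ≤ (sz (C a) + sz (c a).2.2.2 +
        4 * (sz (L a) + sz (s a) + sz (s' a) + sz (c a).2.1) + 6 +
        sz (PS.cnd (L a) (C a) (c a))) + 1 := by omega
      have h8 := Nat.mul_le_mul_left c2 h7
      have h9 : bndN (L a) (s a) [] (C a) ≤ bndL (L a) (s a) (s' a) (C a) (c a) := by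
        unfold bndN bndL
        have := sz_pos (c a).2.2.2
        rw [sz_lnil]
        omega
      have h10 : bndN (L a) (s' a) [] (C a) ≤
          bndL (L a) (s a) (s' a) (C a) (c a) := by
        unfold bndN bndL
        have := sz_pos (c a).2.2.2
        rw [sz_lnil]
        omega
      simp only [Nat.add_mul, Nat.one_mul] at h8 ⊢
      refine ⟨by omega, by omega, by omega⟩
  · exact Poly.inst _ (Poly.s3 (by fun_prop) (by fun_prop) (by fun_prop))
  · exact Poly.inst _ (Poly.s3 (by fun_prop) (by fun_prop) (by fun_prop))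

theorem Poly.blkCs {L r : α → ℕ} {C : α → Fm} {cs : α → List Cd} (hL : Poly L)
    (hC : Poly C) (hr : Poly r) (hcs : Poly cs) :
    Poly (fun a => PS.blkCs k (L a) (C a) (r a) (cs a)) := by
  unfold PS.blkCs
  refine PT.Poly.flatMap (f := fun a (p : Cd × List Cd) =>
    PS.blkC k (L a) (C a) p.1 (PS.stg (r a) (p.2.length + 1)) (PS.stg (r a) p.2.length))
    (l := fun a => PS.tl (cs a)) ?_ (by fun_prop)
  exact Poly.blkC k (L := fun p : α × (Cd × List Cd) => L p.1)
    (C := fun p : α × (Cd × List Cd) => C p.1) (c := fun p : α × (Cd × List Cd) => p.2.1)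
    (s := fun p : α × (Cd × List Cd) => PS.stg (r p.1) (p.2.2.length + 1))
    (s' := fun p : α × (Cd × List Cd) => PS.stg (r p.1) p.2.2.length)
    (by fun_prop) (by fun_prop) (by fun_prop) (by fun_prop) (by fun_prop)

theorem Poly.topR (t : Rule × List Nm × List Fm) {L s : α → ℕ} {c pre : α → List Fm}
    {C : α → Fm} (hL : Poly L) (hc : Poly c) (hp : Poly pre) (hC : Poly C) (hs : Poly s) :
    Poly (fun a => PS.topR (L a) t (c a) (pre a) (C a) (s a)) := by
  unfold PS.topR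
  refine PT.Poly.flatMap ?_ (Poly.assigns hc _)
  have hls : ∀ P : Fm, Poly (fun p : α × List Fm => P.subst (PS.lsub t.2.1 p.2)) := by
    intro P
    exact Poly.substConst (s := fun p : α × List Fm => PS.lsub t.2.1 p.2) P
      (fun x => Poly.lsub (vals := fun p : α × List Fm => p.2) (by fun_prop) _ _)
  refine Poly.ifb (Poly.and (Poly.allConst _ ?_) ?_) (Poly.inst _ ?_) (by fun_prop)
  · intro P
    exact Poly.decMem (hls P) (by fun_prop)
  · exact Poly.decEq (hls _) (by fun_prop)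
  · intro x
    have h1 : Poly (fun p : α × List Fm => PS.lsub t.2.1 p.2 x) :=
      Poly.lsub (vals := fun p : α × List Fm => p.2) (by fun_prop) _ _
    fun_prop

theorem Poly.topP {L s : α → ℕ} {pre : α → List Fm} {C : α → Fm} (hL : Poly L)
    (hp : Poly pre) (hC : Poly C) (hs : Poly s) :
    Poly (fun a => PS.topP k (L a) (pre a) (C a) (s a)) := by
  unfold PS.topP
  refine PT.Poly.flatMap (f := fun a B => if PS.ap (L a) (s a) (PS.nms B) (PS.nms (C a)) B =
    PS.ap (L a) (s a) [] [] (C a) then PS.inst k.Sf (PS.s3 (PS.ap (L a) (s a) [] [] (C a)) (C a) (C a))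
    else []) ?_ hp
  refine Poly.ite (c := fun p : α × Fm => PS.ap (L p.1) (s p.1) (PS.nms p.2) (PS.nms (C p.1)) p.2 =
    PS.ap (L p.1) (s p.1) [] [] (C p.1)) (by fun_prop) (Poly.inst _ ?_) (by fun_prop)
  exact Poly.s3 (by fun_prop) (by fun_prop) (by fun_prop)

theorem Poly.blk {L : α → ℕ} {c pre rest : α → List Fm} {C : α → Fm} (hL : Poly L)
    (hc : Poly c) (hp : Poly pre) (hC : Poly C) (hr : Poly rest) :
    Poly (fun a => PS.blk k (L a) (c a) (pre a) (C a) (rest a)) := by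
  unfold PS.blk
  refine Poly.append (Poly.append ?_ ?_) ?_
  · refine Poly.flatMapConst _ ?_
    intro t
    exact Poly.topR t hL hc hp hC (by fun_prop)
  · exact Poly.topP k hL hp hC (by fun_prop)
  · exact Poly.blkCs k hL hC (by fun_prop) (by fun_prop)

theorem Poly.blks {L : α → ℕ} {c π : α → List Fm} (hL : Poly L)
    (hc : Poly c) (hp : Poly π) : Poly (fun a => PS.blks k (L a) (c a) (π a)) := by
  unfold PS.blks
  refine PT.Poly.flatMap (f := fun a (p : List Fm × Fm × List Fm) =>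
    PS.blk k (L a) (c a) p.1 p.2.1 p.2.2) ?_ (by fun_prop)
  exact Poly.blk k (L := fun p : α × (List Fm × Fm × List Fm) => L p.1)
    (c := fun p : α × (List Fm × Fm × List Fm) => c p.1)
    (pre := fun p : α × (List Fm × Fm × List Fm) => p.2.1)
    (C := fun p : α × (List Fm × Fm × List Fm) => p.2.2.1)
    (rest := fun p : α × (List Fm × Fm × List Fm) => p.2.2.2)
    (by fun_prop) (by fun_prop) (by fun_prop) (by fun_prop) (by fun_prop)

theorem Poly.T0 {T U : α → List Nm} {L : α → ℕ} {π : α → List Fm} (hT : Poly T) (hU : Poly U)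
    (hL : Poly L) (hp : Poly π) : Poly (fun a => PS.T0 k (T a) (U a) (L a) (π a)) := by
  have h1 : Poly (fun a => PS.blks k (L a) ((π a).flatMap PS.subs) (π a)) :=
    Poly.blks k hL (by fun_prop) hp
  have h2 : Poly (fun p : α × (Nm × Fm) =>
      (PS.eAx p.2).subst (PS.cst (T p.1) (U p.1))) :=
    Poly.substCst (T := fun p : α × (Nm × Fm) => T p.1) (U := fun p : α × (Nm × Fm) => U p.1)
      (G := fun p : α × (Nm × Fm) => PS.eAx p.2) (by fun_prop) (by fun_prop) (by fun_prop)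
  have h3 : Poly (fun p : α × Fm => p.2.subst (PS.cst (T p.1) (U p.1))) :=
    Poly.substCst (T := fun p : α × Fm => T p.1) (U := fun p : α × Fm => U p.1)
      (G := fun p : α × Fm => p.2) (by fun_prop) (by fun_prop) (by fun_prop)
  have h4 : Poly (fun a => PS.AxP (PS.dd ((π a).flatMap PS.nms)) (L a) (π a)) :=
    Poly.AxP (V := fun a => PS.dd ((π a).flatMap PS.nms)) (by fun_prop) hL hp
  have h5 : Poly (fun a => (PS.AxP (PS.dd ((π a).flatMap PS.nms)) (L a) (π a)).map
      (fun e => (PS.eAx e).subst (PS.cst (T a) (U a)))) :=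
    PT.Poly.map (f := fun a (e : Nm × Fm) => (PS.eAx e).subst (PS.cst (T a) (U a)))
      (l := fun a => PS.AxP (PS.dd ((π a).flatMap PS.nms)) (L a) (π a)) h2 h4
  have h6 : Poly (fun a => (PS.blks k (L a) ((π a).flatMap PS.subs) (π a)).map
      (fun B => B.subst (PS.cst (T a) (U a)))) :=
    PT.Poly.map (f := fun a (B : Fm) => B.subst (PS.cst (T a) (U a)))
      (l := fun a => PS.blks k (L a) ((π a).flatMap PS.subs) (π a)) h3 h1
  have h7 : Poly (fun a => (PS.lastF (π a)).subst (PS.cst (T a) (U a))) :=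
    Poly.substCst (G := fun a => PS.lastF (π a)) hT hU (by fun_prop)
  exact Poly.cutAt h7 (Poly.app h5 h6)

end

end Pool.Agent.H.MP_0447ec_lc.PS
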