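import Pool.Agent.H.MP_0447ec_lc.PS.DefsR

/-!
# Frege with the permutation rule and one restriction
-/

namespace Pool.Agent.H.MP_0447ec_lc.PS

/-- `π` is a proof of `A` in Frege with the permutation rule and one final restriction: an initial
segment `π₁` of `π` is a derivation with the rules of `F` and the permutation rule, every later
line follows from earlier lines by a rule of `F` or is the restriction, given by `T` and `U`, of
the line `C` of `π₁`, and here `C`, `T` and `U` are the same for all later lines. -/
def OneRestrictionProof (F : List Rule) (A : Fm) (π : List Fm) : Prop :=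
  ∃ (π₁ π₂ : List Fm) (C : Fm) (T U : List (List Bool)),
    π = π₁ ++ π₂ ∧ Deriv (fun σ B => RuleStep F σ B ∨ PermStep σ B) π₁ ∧ C ∈ π₁ ∧
    (∀ (σ : List Fm) (B : Fm) (τ : List Fm), π₂ = σ ++ B :: τ →
      RuleStep F (π₁ ++ σ) B ∨ B = C.restrict T U) ∧
    π.getLast? = some A

end Pool.Agent.H.MP_0447ec_lc.PS
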