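import Pool.Agent.H.MP_0447ec_lc.PS.Final
import Pool.Agent.H.MP_0447ec_lc.PS.PolySim2
import Pool.Agent.H.MP_0447ec_lc.PS.DefsO

/-!
# Final theorems, as equivalences
-/

namespace Pool.Agent.H.MP_0447ec_lc.PS

open Pool.Agent.H.MP_0447ec_lc.PT

theorem subst_cst_nil (A : Fm) : A.subst (cst [] []) = A := by
  apply Fm.subst_eq_self
  intro x _
  simp [cst]

/-- Extended Frege p-simulates Frege with the permutation rule. -/
theorem ext_simulates_perm {F : List Rule} (hF : IsFrege F) :
    PSimulates (ExtProof F) (PermProof F) := by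
  obtain ⟨k⟩ := exists_kit2 hF
  rw [psim_iff]
  refine ⟨fun π => T0 k [] [] (lenB π) π, Poly.T0 k (by fun_prop) (by fun_prop) (by fun_prop)
    Poly.id, ?_⟩
  intro A π hπ
  have hA : A ∈ π := List.mem_of_getLast? hπ.2
  have h1 := T0_spec k hπ (T := []) (U := []) (L := lenB π)
    (fun C hC x hx => lenB_spec hC hx) (by simp) (by simp) A (fun x hx => lenB_spec hA hx)
  rw [subst_cst_nil] at h1
  exact h1

theorem PSimulates.trans {P Q R : Fm → List Fm → Prop} (h1 : PSimulates P Q)
    (h2 : PSimulates Q R) : PSimulates P R := by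
  rw [psim_iff] at *
  obtain ⟨f, hf, h1⟩ := h1
  obtain ⟨g, hg, h2⟩ := h2
  exact ⟨fun π => f (g π), Poly.comp hf hg, fun A π h => h1 A _ (h2 A π h)⟩

theorem collapse_iff {F : List Rule} (hF : IsFrege F) :
    PSimulates (FregeProof F) (PermProof F) ↔ PSimulates (FregeProof F) (ExtProof F) :=
  ⟨collapse hF, fun h => h.trans (ext_simulates_perm hF)⟩

theorem vars_restrict {A : Fm} {T U : List Nm} {x : Nm} (h : x ∈ (A.subst (cst T U)).vars) :
    x ∈ A.vars ∨ x = [] := by
  obtain ⟨w, hw, hx⟩ := vars_subst h
  unfold cst at hx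
  split_ifs at hx
  · right; simpa [tt, Fm.vars] using hx
  · right; simpa [ff, Fm.vars] using hx
  · left
    have : x = w := hx
    rw [this]; exact hw

/-- A length larger than those of all names in a restriction and in a proof. -/
def lenR (x : (List (List Bool) × List (List Bool)) × List Fm) : ℕ :=
  x.1.1.flatten.length + x.1.2.flatten.length + lenB x.2

theorem length_lt_lenR {T U : List (List Bool)} {π : List Fm} :
    (∀ C ∈ π, ∀ x ∈ C.vars, x.length < lenR ((T, U), π)) ∧
    (∀ x ∈ T, x.length < lenR ((T, U), π)) ∧ (∀ x ∈ U, x.length < lenR ((T, U), π)) ∧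
    0 < lenR ((T, U), π) := by
  have h0 : 0 < lenB π := by unfold lenB; omega
  have hm : ∀ (T : List (List Bool)) (x : List Bool), x ∈ T → x.length ≤ T.flatten.length := by
    intro T x hx
    exact (List.sublist_flatten_of_mem hx).length_le
  refine ⟨?_, ?_, ?_, ?_⟩
  · intro C hC x hx
    have := lenB_spec hC hx
    unfold lenR
    simp only
    omega
  · intro x hx
    have := hm T x hx
    unfold lenR
    simp only
    omega
  · intro x hx
    have := hm U x hx
    unfold lenR
    simp only
    omega
  · unfold lenR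
    simp only
    omega

theorem closed_of_simulates {F : List Rule} (hF : IsFrege F)
    (h : PSimulates (PermProof F) (ExtProof F)) : ClosedUnderRestrictions (PermProof F) := by
  obtain ⟨k⟩ := exists_kit2 hF
  rw [psim_iff] at h
  rw [closed_iff]
  obtain ⟨f, hf, hsim⟩ := h
  refine ⟨fun x => f (T0 k x.1.1 x.1.2 (lenR x) x.2), ?_, ?_⟩
  · refine Poly.comp hf (Poly.T0 k (by fun_prop) (by fun_prop) ?_ (by fun_prop))
    unfold lenR
    fun_prop
  · intro A π T U hπ
    obtain ⟨h1, h2, h3, h4⟩ := length_lt_lenR (T := T) (U := U) (π := π)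
    have hA : A ∈ π := List.mem_of_getLast? hπ.2
    apply hsim
    rw [restrict_eq]
    refine T0_spec k hπ h1 h2 h3 (A.subst (cst T U)) ?_
    intro x hx
    rcases vars_restrict hx with h | h
    · exact h1 A hA x h
    · rw [h]; exact h4

theorem closed_iff_simulates {F : List Rule} (hF : IsFrege F) :
    ClosedUnderRestrictions (PermProof F) ↔ PSimulates (PermProof F) (ExtProof F) :=
  ⟨simulates_of_closed hF, closed_of_simulates hF⟩

/-! ### One restriction -/

/-- Lines after an initial segment. -/
def Tail (F : List Rule) (X : Fm) (π₁ π₂ : List Fm) : Prop :=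
  ∀ (σ : List Fm) (B : Fm) (τ : List Fm), π₂ = σ ++ B :: τ →
      RuleStep F (π₁ ++ σ) B ∨ B = X

theorem Tail.snoc {F : List Rule} {X : Fm} {π₁ π₂ : List Fm} {B : Fm} (h : Tail F X π₁ π₂)
    (hB : RuleStep F (π₁ ++ π₂) B ∨ B = X) : Tail F X π₁ (π₂ ++ [B]) := by
  intro σ C τ h1
  rcases List.eq_nil_or_concat τ with rfl | ⟨τ', B', rfl⟩
  · obtain ⟨rfl, h4⟩ := List.append_inj' h1 rfl
    simp only [List.cons.injEq, and_true] at h4
    subst h4
    exact hB
  · have e : σ ++ C :: (τ' ++ [B']) = (σ ++ C :: τ') ++ [B'] := by simp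
    rw [List.concat_eq_append] at h1
    rw [e] at h1
    obtain ⟨h3, -⟩ := List.append_inj' h1 rfl
    exact h σ C τ' h3

theorem tail_app {F : List Rule} {X : Fm} {σ : List Fm} : ∀ {π₁ π₂ : List Fm},
    Tail F X π₁ π₂ → Just (RuleStep F) (π₁ ++ π₂) σ →
    ∃ π₃, app (π₁ ++ π₂) σ = π₁ ++ π₃ ∧ Tail F X π₁ π₃ := by
  induction σ with
  | nil => intro π₁ π₂ h _; exact ⟨π₂, rfl, h⟩
  | cons B σ ih =>
    intro π₁ π₂ h hj
    have h1 : app (π₁ ++ π₂) (B :: σ) =
        app (if B ∈ π₁ ++ π₂ then π₁ ++ π₂ else π₁ ++ π₂ ++ [B]) σ := rfl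
    rw [h1]
    by_cases hB : B ∈ π₁ ++ π₂
    · rw [if_pos hB]
      refine ih h (Just.mono (mono_ruleStep F) ?_ hj.2)
      intro C hC
      rcases List.mem_append.1 hC with hC | hC
      · exact hC
      · simp only [List.mem_singleton] at hC; subst hC; exact hB
    · rw [if_neg hB, List.append_assoc]
      refine ih (h.snoc ?_) (by rw [← List.append_assoc]; exact hj.2)
      rcases hj.1 with h2 | h2
      · exact absurd h2 hB
      · exact Or.inl h2

theorem deriv_prefix {step : List Fm → Fm → Prop} {π : List Fm} (h : Deriv step π) :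
    ∀ π' ρ, π = π' ++ ρ → Deriv step π' := by
  induction h with
  | nil =>
    intro π' ρ h
    have := (List.append_eq_nil_iff.1 h.symm).1
    subst this
    exact Deriv.nil
  | @snoc σ B h1 h2 ih =>
    intro π' ρ h
    rcases List.eq_nil_or_concat ρ with rfl | ⟨ρ', B', rfl⟩
    · rw [List.append_nil] at h
      rw [← h]
      exact Deriv.snoc h1 h2
    · rw [List.concat_eq_append, ← List.append_assoc] at h
      obtain ⟨h3, -⟩ := List.append_inj' h rfl
      exact ih π' ρ' h3

theorem one_cut {F : List Rule} {A C : Fm} {T U : List Nm} {π₁ π₂ : List Fm}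
    (h1 : Deriv (FP F) π₁) (hC : C ∈ π₁) (h2 : Tail F (C.restrict T U) π₁ π₂)
    (hA : A ∈ π₁ ++ π₂) : OneRestrictionProof F A (cutAt A (π₁ ++ π₂)) := by
  by_cases hA1 : A ∈ π₁
  · -- the proof ends within the first part
    have e : cutAt A (π₁ ++ π₂) = cutAt A π₁ := by
      unfold cutAt
      congr 1
      rw [List.takeWhile_append]
      split_ifs with h4
      · exfalso
        have h5 : List.takeWhile (fun C => !decide (C = A)) π₁ = π₁ :=
          List.IsPrefix.eq_of_length (List.takeWhile_prefix _) h4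
        have h6 := List.takeWhile_eq_self_iff.1 h5 A hA1
        simp at h6
      · rfl
    rw [e]
    obtain ⟨h3, h4⟩ := deriv_cutAt h1 hA1
    refine ⟨cutAt A π₁, [], A, [], [], by simp, h3, List.mem_of_getLast? h4, ?_, h4⟩
    intro σ B τ h
    simp at h
  · have hA2 : A ∈ π₂ := by
      rcases List.mem_append.1 hA with h | h
      · exact absurd h hA1
      · exact h
    have e : cutAt A (π₁ ++ π₂) = π₁ ++ cutAt A π₂ := by
      unfold cutAt
      rw [List.takeWhile_append, if_pos]
      · rw [List.append_assoc]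
      · have h5 : List.takeWhile (fun C => !decide (C = A)) π₁ = π₁ := by
          rw [List.takeWhile_eq_self_iff]
          intro x hx
          have : x ≠ A := by rintro rfl; exact hA1 hx
          simpa using this
        rw [h5]
    have hpre : ∃ ρ, π₂ = cutAt A π₂ ++ ρ := by
      clear e hA h2
      induction π₂ with
      | nil => simp at hA2
      | cons B π ih =>
        by_cases hB : B = A
        · subst hB
          exact ⟨π, by simp [cutAt]⟩
        · have hA3 : A ∈ π := by
            rcases List.mem_cons.1 hA2 with h | h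
            · exact absurd h.symm hB
            · exact h
          obtain ⟨ρ, hρ⟩ := ih hA3
          refine ⟨ρ, ?_⟩
          have e2 : cutAt A (B :: π) = B :: cutAt A π := by
            unfold cutAt
            rw [List.takeWhile_cons_of_pos (by simpa using hB)]
            rfl
          rw [e2, List.cons_append, ← hρ]
    obtain ⟨ρ, hρ⟩ := hpre
    refine ⟨π₁, cutAt A π₂, C, T, U, e, h1, hC, ?_, ?_⟩
    · intro σ B τ h
      refine h2 σ B (τ ++ ρ) ?_
      rw [hρ, h]
      simp
    · rw [e]
      simp [cutAt]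

/-- Frege with the permutation rule and one restriction p-simulates extended Frege. -/
theorem one_restriction {F : List Rule} (hF : IsFrege F) :
    PSimulates (OneRestrictionProof F) (ExtProof F) := by
  obtain ⟨k⟩ := exists_kit hF
  rw [psim_iff]
  refine ⟨fun π => cutAt (lastF π) (app (T1 k π ++ [padF (lastF π) (extL (lastF π) π)])
    (stripB k (lastF π) (extL (lastF π) π))), ?_, ?_⟩
  · refine Poly.cutAt (by fun_prop) (Poly.app ?_ (Poly.stripB k (by fun_prop) (by fun_prop)))
    exact Poly.append (Poly.T1 k Poly.id) (by fun_prop)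
  · intro A π hπ
    have hl : lastF π = A := lastF_eq hπ.2
    simp only [hl]
    obtain ⟨h1, h2⟩ := T1_spec k hπ
    have hr := restrict_pad hπ
    rw [← restrict_eq] at hr
    have hT : Tail F (padF A (extL A π)) (T1 k π) [padF A (extL A π)] := by
      intro σ B τ h
      cases σ with
      | nil =>
        simp only [List.nil_append, List.cons.injEq] at h
        exact Or.inr h.1.symm
      | cons a σ => simp at h
    obtain ⟨j, m⟩ := stripAux k (mono_ruleStep F) (fun _ _ h => h) A (extL A π) []
      (T1 k π ++ [padF A (extL A π)]) (by simp)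
    obtain ⟨π₃, e3, h3⟩ := tail_app (σ := stripB k A (extL A π)) hT j
    rw [e3]
    rw [← hr] at h3
    refine one_cut h1 (List.mem_of_getLast? h2) h3 ?_
    rw [← e3, mem_app]
    exact List.mem_append.1 m

end Pool.Agent.H.MP_0447ec_lc.PS
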