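import Pool.Agent.H.MP_0447ec_lc.PS.Defs

/-!
# Canonical disjoint NP pairs of proof systems
-/

namespace Pool.Agent.H.MP_0447ec_lc.PS

/-- `A` is a tautology. -/
def Fm.Taut (A : Fm) : Prop := ∀ v : List Bool → Prop, A.Eval v

/-- `A` has a `P`-proof whose binary code has length at most `m`. -/
def HasProofOfSize (P : Fm → List Fm → Prop) (A : Fm) (m : ℕ) : Prop :=
  ∃ π : List Fm, P A π ∧ (codeProof π).length ≤ m

/-- Binary code of a formula together with a number in unary. -/
def codeQuery (x : Fm × ℕ) : List Bool :=
  true :: (codeFm x.1 ++ ((List.replicate x.2 [true, false]).flatten ++ [false]))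

/-- The canonical disjoint NP pair of `Q` is reducible to the one of `P` in polynomial time. The
canonical pair of a proof system consists of the set of all `(A, m)` such that `A` has a proof of
size at most `m`, and the set of all `(A, m)` such that `A` is not a tautology; the function `h`
maps the first set of `Q` into the first set of `P` and the second set into the second one. -/
def CanonicalPairReduces (Q P : Fm → List Fm → Prop) : Prop :=
  ∃ h : Fm × ℕ → Fm × ℕ,
    Nonempty (Turing.TM2ComputableInPolyTime codeQuery codeQuery h) ∧
    (∀ (A : Fm) (m : ℕ), HasProofOfSize Q A m → HasProofOfSize P (h (A, m)).1 (h (A, m)).2) ∧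
    (∀ (A : Fm) (m : ℕ), ¬ A.Taut → ¬ (h (A, m)).1.Taut)

end Pool.Agent.H.MP_0447ec_lc.PS
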