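import Pool.Agent.H.MP_0447ec_lc.PS.PolySim2
import Pool.Agent.H.MP_0447ec_lc.PS.DefsC
import Pool.Agent.H.MP_0447ec_lc.PS.Final2

/-!
# The canonical pairs of extended Frege and of Frege with the permutation rule
-/

namespace Pool.Agent.H.MP_0447ec_lc.PS

open Fm Pool.Agent.H.MP_0447ec_lc.PT

/-! ### Canonical names -/

/-- Canonical names, longer than `L`. -/
def cn (L j : ℕ) : Nm := qn L (j + 1) []

/-- The first `r` canonical names. -/
def cna (L r : ℕ) : List Nm :=
  ((tl (List.replicate r ())).map (fun p => cn L p.2.length)).reverse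

theorem cna_succ (L r : ℕ) : cna L (r + 1) = cna L r ++ [cn L r] := by
  unfold cna
  rw [List.replicate_succ, tl_cons, List.map_cons, List.reverse_cons]
  simp

theorem cna_length (L r : ℕ) : (cna L r).length = r := by
  induction r with
  | zero => rfl
  | succ r ih => rw [cna_succ, List.length_append, ih]; rfl

theorem mem_cna {L r : ℕ} {x : Nm} : x ∈ cna L r ↔ ∃ j < r, x = cn L j := by
  induction r with
  | zero => simp [cna, tl_nil]
  | succ r ih =>
    rw [cna_succ, List.mem_append, ih, List.mem_singleton]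
    constructor
    · rintro (⟨j, hj, h⟩ | h)
      · exact ⟨j, by omega, h⟩
      · exact ⟨r, by omega, h⟩
    · rintro ⟨j, hj, h⟩
      by_cases hjr : j = r
      · subst hjr; exact Or.inr h
      · exact Or.inl ⟨j, by omega, h⟩

theorem cn_inj {L i j : ℕ} (h : cn L i = cn L j) : i = j := by
  have := (qn_inj (by omega) (by omega) h).1
  omega

theorem cn_length (L j : ℕ) : (cn L j).length = L + j + 2 := by
  unfold cn
  rw [qn_length (by omega)]
  simp
  omega

theorem nodup_cna (L r : ℕ) : (cna L r).Nodup := by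
  induction r with
  | zero => exact List.nodup_nil
  | succ r ih =>
    rw [cna_succ, List.nodup_append]
    refine ⟨ih, List.nodup_singleton _, ?_⟩
    intro x hx y hy h
    rw [List.mem_singleton] at hy
    obtain ⟨j, hj, hx⟩ := mem_cna.1 hx
    rw [hx, hy] at h
    have := cn_inj h
    omega

theorem cna_prefix (L : ℕ) {r N : ℕ} (h : r ≤ N) :
    cna L r ++ (cna L N).drop r = cna L N := by
  have h1 : ∀ d, (cna L (r + d)).take r = cna L r := by
    intro d
    induction d with
    | zero => rw [Nat.add_zero, List.take_of_length_le (by rw [cna_length])]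
    | succ d ih =>
      rw [← Nat.add_assoc, cna_succ, List.take_append_of_le_length (by rw [cna_length]; omega), ih]
  obtain ⟨d, rfl⟩ := Nat.exists_eq_add_of_le h
  have := List.take_append_drop r (cna L (r + d))
  rw [h1] at this
  exact this

/-! ### Renamings -/

theorem ren_cons_self (x y : Nm) (xs ys : List Nm) : ren (x :: xs) (y :: ys) x = y := by
  simp [ren]

theorem ren_cons_ne {x w : Nm} (y : Nm) (xs ys : List Nm) (h : x ≠ w) :
    ren (x :: xs) (y :: ys) w = ren xs ys w := by
  unfold ren
  rw [List.takeWhile_cons_of_pos (by simpa using h)]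
  simp

theorem ren_not_mem : ∀ {xs ys : List Nm} {w : Nm}, w ∉ xs → xs.length = ys.length →
    ren xs ys w = w := by
  intro xs
  induction xs with
  | nil =>
    intro ys w _ h
    have : ys = [] := List.eq_nil_of_length_eq_zero h.symm
    subst this; rfl
  | cons x xs ih =>
    intro ys w hw h
    cases ys with
    | nil => simp at h
    | cons y ys =>
      rw [ren_cons_ne y xs ys (by rintro rfl; exact hw (by simp))]
      exact ih (fun h' => hw (List.mem_cons_of_mem _ h')) (by simpa using h)

theorem ren_mem' : ∀ {xs ys : List Nm} {w : Nm}, w ∈ xs → xs.length = ys.length →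
    ren xs ys w ∈ ys := by
  intro xs
  induction xs with
  | nil => intro ys w h; simp at h
  | cons x xs ih =>
    intro ys w hw h
    cases ys with
    | nil => simp at h
    | cons y ys =>
      by_cases hx : x = w
      · subst hx; rw [ren_cons_self]; simp
      · rw [ren_cons_ne y xs ys hx]
        refine List.mem_cons_of_mem _ (ih ?_ (by simpa using h))
        rcases List.mem_cons.1 hw with h1 | h1
        · exact absurd h1.symm hx
        · exact h1

theorem map_ren : ∀ {xs ys : List Nm}, xs.Nodup → xs.length = ys.length →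
    xs.map (ren xs ys) = ys := by
  intro xs
  induction xs with
  | nil =>
    intro ys _ h
    exact (List.eq_nil_of_length_eq_zero h.symm).symm
  | cons x xs ih =>
    intro ys hnd h
    cases ys with
    | nil => simp at h
    | cons y ys =>
      rw [List.nodup_cons] at hnd
      rw [List.map_cons, ren_cons_self]
      congr 1
      refine Eq.trans ?_ (ih hnd.2 (by simpa using h))
      apply List.map_congr_left
      intro w hw
      exact ren_cons_ne y xs ys (by rintro rfl; exact hnd.1 hw)

theorem ren_inj : ∀ {xs ys : List Nm} {w w' : Nm}, ys.Nodup → xs.length = ys.length →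
    w ∈ xs → w' ∈ xs → ren xs ys w = ren xs ys w' → w = w' := by
  intro xs
  induction xs with
  | nil => intro ys w w' _ _ h; simp at h
  | cons x xs ih =>
    intro ys w w' hnd h hw hw' he
    cases ys with
    | nil => simp at h
    | cons y ys =>
      rw [List.nodup_cons] at hnd
      have hl : xs.length = ys.length := by simpa using h
      have key : ∀ {u : Nm}, u ∈ x :: xs → x ≠ u → u ∈ xs := by
        intro u hu hne
        rcases List.mem_cons.1 hu with h1 | h1
        · exact absurd h1.symm hne
        · exact h1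
      by_cases h1 : x = w <;> by_cases h2 : x = w'
      · rw [← h1, ← h2]
      · exfalso
        subst h1
        rw [ren_cons_self, ren_cons_ne y xs ys h2] at he
        exact hnd.1 (by rw [he]; exact ren_mem' (key hw' h2) hl)
      · exfalso
        subst h2
        rw [ren_cons_self, ren_cons_ne y xs ys h1] at he
        exact hnd.1 (by rw [← he]; exact ren_mem' (key hw h1) hl)
      · rw [ren_cons_ne y xs ys h1, ren_cons_ne y xs ys h2] at he
        exact ih hnd.2 hl (key hw h1) (key hw' h2) he

/-- A renaming of names shorter than `L` to pairwise different names longer than `L` is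
injective. -/
theorem ren_inj' {xs ys : List Nm} {L : ℕ} (hnd : ys.Nodup) (hl : xs.length = ys.length)
    (hy : ∀ y ∈ ys, L < y.length) {w w' : Nm} (hw : w.length < L) (hw' : w'.length < L)
    (he : ren xs ys w = ren xs ys w') : w = w' := by
  by_cases h1 : w ∈ xs <;> by_cases h2 : w' ∈ xs
  · exact ren_inj hnd hl h1 h2 he
  · exfalso
    rw [ren_not_mem h2 hl] at he
    have := hy _ (ren_mem' h1 hl)
    rw [he] at this
    omega
  · exfalso
    rw [ren_not_mem h1 hl] at he
    have := hy _ (ren_mem' h2 hl)
    rw [← he] at this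
    omega
  · rwa [ren_not_mem h1 hl, ren_not_mem h2 hl] at he

theorem ap0_vars {xs ys : List Nm} {A : Fm} {x : Nm} (h : x ∈ (ap 0 0 xs ys A).vars) :
    ∃ w ∈ A.vars, x = ren xs ys w := by
  obtain ⟨w, hw, hx⟩ := vars_subst h
  exact ⟨w, hw, hx⟩

theorem ap0_self {xs ys : List Nm} {A : Fm} (hl : xs.length = ys.length)
    (h : ∀ x ∈ A.vars, x ∉ xs) : ap 0 0 xs ys A = A := by
  apply Fm.subst_eq_self
  intro x hx
  show var (ren xs ys x) = var x
  rw [ren_not_mem (h x hx) hl]

/-- Renamed pairs. -/
def rnP (xs ys : List Nm) (l : List (Nm × Fm)) : List (Nm × Fm) :=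
  l.map (fun e => (ren xs ys e.1, ap 0 0 xs ys e.2))

theorem eAx_ren (xs ys : List Nm) (e : Nm × Fm) :
    (eAx e).subst (qr 0 0 xs ys) = eAx (ren xs ys e.1, ap 0 0 xs ys e.2) := rfl

theorem good_ren {A : Fm} {xs ys : List Nm} {L : ℕ} (hnd : ys.Nodup)
    (hl : xs.length = ys.length) (hy : ∀ y ∈ ys, L < y.length)
    (hA : ∀ x ∈ A.vars, x.length < L) : ∀ (l : List (Nm × Fm)), Good A l →
    (∀ e ∈ l, e.1 ∈ xs ∧ e.1.length < L ∧ ∀ x ∈ e.2.vars, x.length < L) →
    Good A (rnP xs ys l) := by
  intro l
  induction l with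
  | nil => intro _ _; trivial
  | cons e l ih =>
    intro hg hb
    obtain ⟨g1, g2, g3, g4⟩ := hg
    obtain ⟨b1, b2, b3⟩ := hb e (by simp)
    refine ⟨?_, ?_, ?_, ih g4 (fun e' he' => hb e' (List.mem_cons_of_mem _ he'))⟩
    · intro h
      obtain ⟨w, hw, hx⟩ := ap0_vars h
      have := ren_inj' hnd hl hy b2 (b3 w hw) hx
      rw [this] at g1
      exact g1 hw
    · intro h
      have h1 : (ren xs ys e.1).length < L := hA _ h
      have h2 := hy _ (ren_mem' b1 hl)
      omega
    · intro e' he'
      obtain ⟨e'', he'', rfl⟩ := List.mem_map.1 he'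
      obtain ⟨c1, c2, c3⟩ := hb e'' (List.mem_cons_of_mem _ he'')
      constructor
      · intro h
        exact (g3 e'' he'').1 (ren_inj' hnd hl hy b2 c2 h)
      · intro h
        obtain ⟨w, hw, hx⟩ := ap0_vars h
        have := ren_inj' hnd hl hy b2 (c3 w hw) hx
        have h3 := (g3 e'' he'').2
        rw [this] at h3
        exact h3 hw

theorem good_nodup {A : Fm} : ∀ {l : List (Nm × Fm)}, Good A l →
    (l.map (fun e => e.1)).Nodup := by
  intro l
  induction l with
  | nil => intro _; exact List.nodup_nil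
  | cons e l ih =>
    intro hg
    rw [List.map_cons, List.nodup_cons]
    refine ⟨?_, ih hg.2.2.2⟩
    intro h
    obtain ⟨e', he', h⟩ := List.mem_map.1 h
    exact (hg.2.2.1 e' he').1 h.symm

theorem deriv_ren {F : List Rule} {l : List (Nm × Fm)} {π : List Fm} (xs ys : List Nm)
    (h : Deriv (fun σ B => RuleStep F σ B ∨ B ∈ l.map eAx) π) :
    Deriv (fun σ B => RuleStep F σ B ∨ B ∈ (rnP xs ys l).map eAx) (π.map (ap 0 0 xs ys)) := by
  induction h with
  | nil => exact Deriv.nil
  | @snoc σ B h1 h2 ih =>
    rw [List.map_append]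
    refine Deriv.snoc ih ?_
    rcases h2 with h2 | h2
    · exact Or.inl (ruleStep_subst h2 (qr 0 0 xs ys))
    · right
      obtain ⟨e, he, rfl⟩ := List.mem_map.1 h2
      unfold rnP
      rw [List.map_map]
      exact List.mem_map.2 ⟨e, he, (eAx_ren xs ys e).symm⟩

theorem extL_length (A : Fm) (π : List Fm) : (extL A π).length ≤ π.length := by
  induction π using List.reverseRecOn with
  | nil => simp [extL, splits, sp]
  | append_singleton π B ih =>
    rw [extL_snoc, List.length_append, List.length_append]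
    rcases isExt_cases A π B with h | ⟨e, h⟩
    · rw [h]; simp; omega
    · rw [h]; simp; omega

/-! ### The transformation -/

/-- The padding with a list of names. -/
def padN (L : ℕ) (X : Fm) (xs : List Nm) : Fm :=
  xs.foldl (fun X x => Fm.or (Fm.iff (var x) (var (nf L x))) X) X

theorem padN_append (L : ℕ) (X : Fm) (xs ys : List Nm) :
    padN L X (xs ++ ys) = padN L (padN L X xs) ys := by
  unfold padN; rw [List.foldl_append]

theorem padN_snoc (L : ℕ) (X : Fm) (xs : List Nm) (x : Nm) :
    padN L X (xs ++ [x]) = Fm.or (Fm.iff (var x) (var (nf L x))) (padN L X xs) := by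
  rw [padN_append]; rfl

theorem padX_eq (L : ℕ) (X : Fm) (l : List (Nm × Fm)) :
    padX L X l = padN L X (l.map (fun e => e.1)) := by
  unfold padX padN
  rw [List.foldl_map]

section

variable {F : List Rule} (k : Kit F)

/-- The first transformation, for given data. -/
def T1g (A : Fm) (L : ℕ) (l : List (Nm × Fm)) (π : List Fm) : List Fm :=
  cutAt (padX L A l) (app [] (projB k A (hyp A l) l ++ dedB k (hyp A l) (π.flatMap subs) π ++
      elimB k A L l))

theorem T1g_spec {A : Fm} {L : ℕ} {l : List (Nm × Fm)} {π : List Fm}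
    (h1 : Deriv (fun σ B => RuleStep F σ B ∨ B ∈ l.map eAx) π) (hA : A ∈ π) (hg : Good A l)
    (hL : 0 < L) (hAL : ∀ x ∈ A.vars, x.length < L)
    (hl : ∀ e ∈ l, e.1.length < L ∧ ∀ x ∈ e.2.vars, x.length < L) :
    PermProof F (padX L A l) (T1g k A L l π) := by
  unfold T1g
  set H := hyp A l with hH
  have hJ : Just (FP F) [] (projB k A H l ++ dedB k H (π.flatMap subs) π ++
      elimB k A L l) ∧ padX L A l ∈ projB k A H l ++
      dedB k H (π.flatMap subs) π ++ elimB k A L l := by
    obtain ⟨j1, m1⟩ := projB_just k A l []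
    obtain ⟨j2, m2⟩ := ded_just k H (π.flatMap subs) l (projB k A H l) m1 h1
      (fun B hB G hG => List.mem_flatMap.2 ⟨B, hB, hG⟩)
    have toFP : ∀ (σ π' : List Fm), Just (RuleStep F) π' σ → Just (FP F) π' σ := by
      intro σ
      induction σ with
      | nil => intro _ _; trivial
      | cons C σ ih =>
        rintro π' ⟨h1 | h1, h2⟩
        · exact ⟨Or.inl h1, ih _ h2⟩
        · exact ⟨Or.inr (Or.inl h1), ih _ h2⟩
    obtain ⟨j3, m3⟩ := elimB_just k A L hAL hL l hg hl
      (projB k A H l ++ dedB k H (π.flatMap subs) π) (m2 A hA)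
    refine ⟨?_, List.mem_append_right _ m3⟩
    refine Just.append ?_ ?_
    · refine Just.append (toFP _ _ j1) ?_
      simpa using toFP _ _ j2
    · simpa using j3
  have hD := deriv_app (mono_perm F) Deriv.nil hJ.1
  have hm : padX L A l ∈ app [] (projB k A H l ++ dedB k H (π.flatMap subs) π ++
      elimB k A L l) := mem_app.2 (Or.inr hJ.2)
  exact deriv_cutAt hD hm

/-- Lines that add more padding. -/
def weakB (Dw : List Fm) (L : ℕ) (A : Fm) (xs rest : List Nm) : List Fm :=
  (sp [] rest).flatMap (fun p => inst Dw (s3 (padN L A (xs ++ p.1))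
    (Fm.iff (var p.2.1) (var (nf L p.2.1))) A))

theorem weak_just {step : List Fm → Fm → Prop} (hm : Mono step)
    (hF : ∀ σ C, RuleStep F σ C → step σ C) {Dw : List Fm} (hw : Sch F [v0] (Fm.or v1 v0) Dw)
    (L : ℕ) (A : Fm) (xs : List Nm) : ∀ (rest pre : List Nm) (π : List Fm),
    padN L A (xs ++ pre) ∈ π →
    Just step π ((sp pre rest).flatMap (fun p => inst Dw (s3 (padN L A (xs ++ p.1))
      (Fm.iff (var p.2.1) (var (nf L p.2.1))) A))) ∧
    padN L A (xs ++ (pre ++ rest)) ∈ π ++ (sp pre rest).flatMap (fun p =>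
      inst Dw (s3 (padN L A (xs ++ p.1)) (Fm.iff (var p.2.1) (var (nf L p.2.1))) A)) := by
  intro rest
  induction rest with
  | nil => intro pre π h; exact ⟨trivial, by simpa [sp] using h⟩
  | cons e rest ih =>
    intro pre π h
    rw [sp, List.flatMap_cons]
    have j1 := hw.just hm hF (s3 (padN L A (xs ++ pre)) (Fm.iff (var e) (var (nf L e))) A) π (by
      intro P hP
      rw [List.mem_singleton] at hP
      subst hP
      exact h)
    have m1 : Fm.or (Fm.iff (var e) (var (nf L e))) (padN L A (xs ++ pre)) ∈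
        inst Dw (s3 (padN L A (xs ++ pre)) (Fm.iff (var e) (var (nf L e))) A) := hw.mem_inst _
    have e1 : padN L A (xs ++ (pre ++ [e])) =
        Fm.or (Fm.iff (var e) (var (nf L e))) (padN L A (xs ++ pre)) := by
      rw [← List.append_assoc, padN_snoc]
    rw [← e1] at m1
    obtain ⟨j2, m2⟩ := ih (pre ++ [e])
      (π ++ inst Dw (s3 (padN L A (xs ++ pre)) (Fm.iff (var e) (var (nf L e))) A))
      (List.mem_append_right _ m1)
    exact ⟨Just.append j1 j2, by simpa [List.append_assoc] using m2⟩

/-- The padded formula. -/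
def padC (N : ℕ) (A : Fm) : Fm := padN (2 * N + 3) A (cna (N + 1) N)

/-- The proof with the permutation rule of the padded formula. -/
def Phi (Dw : List Fm) (π : List Fm) (N : ℕ) : List Fm :=
  cutAt (padC N (lastF π)) (app []
    (T1g k (lastF π) (2 * N + 3)
      (rnP ((extL (lastF π) π).map (fun e => e.1)) (cna (N + 1) (extL (lastF π) π).length)
        (extL (lastF π) π))
      (π.map (ap 0 0 ((extL (lastF π) π).map (fun e => e.1))
        (cna (N + 1) (extL (lastF π) π).length))) ++
    weakB Dw (2 * N + 3) (lastF π) (cna (N + 1) (extL (lastF π) π).length)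
      ((cna (N + 1) N).drop (extL (lastF π) π).length)))

theorem name_lt {π : List Fm} {B : Fm} (hB : B ∈ π) {x : Nm} (hx : x ∈ B.vars) :
    x.length < sz π := by
  have h1 := length_lt_sz x
  have h2 := sz_name_le hx
  have h3 := sz_mem_lt hB
  omega

theorem Phi_spec {Dw : List Fm} (hw : Sch F [v0] (Fm.or v1 v0) Dw) {A : Fm} {π : List Fm}
    (h : ExtProof F A π) {N : ℕ} (hN : sz π ≤ N) : PermProof F (padC N A) (Phi k Dw π N) := by
  have hlast : lastF π = A := lastF_eq h.2
  have hA : A ∈ π := List.mem_of_getLast? h.2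
  obtain ⟨c1, c2, c3⟩ := collect h.1
  unfold Phi
  rw [hlast]
  set l := extL A π with hl
  set xs := l.map (fun e => e.1) with hxs
  set ys := cna (N + 1) l.length with hys
  have hlen : xs.length = ys.length := by rw [hxs, hys, cna_length, List.length_map]
  have hr : l.length ≤ N := by
    have h1 := extL_length A π
    have h2 := length_lt_sz π
    rw [← hl] at h1
    omega
  have hy : ∀ y ∈ ys, N + 1 < y.length := by
    intro y hy
    obtain ⟨j, _, rfl⟩ := mem_cna.1 hy
    rw [cn_length]; omega
  have hy2 : ∀ y ∈ ys, y.length < 2 * N + 3 := by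
    intro y hy
    obtain ⟨j, hj, rfl⟩ := mem_cna.1 hy
    rw [cn_length]; omega
  have hnm : ∀ B ∈ π, ∀ x ∈ B.vars, x.length < N + 1 := by
    intro B hB x hx
    have := name_lt hB hx
    omega
  have hAx : ∀ e ∈ l, e.1 ∈ xs ∧ e.1.length < N + 1 ∧ ∀ x ∈ e.2.vars, x.length < N + 1 := by
    intro e he
    have h3 := c3 e he
    refine ⟨List.mem_map_of_mem (f := fun e : Nm × Fm => e.1) he,
      hnm _ h3 _ (by simp [eAx, Fm.iff, Fm.vars]), fun x hx => hnm _ h3 x ?_⟩
    simp [eAx, Fm.iff, Fm.vars, hx]
  have hAself : ap 0 0 xs ys A = A := by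
    apply ap0_self hlen
    intro x hx h4
    obtain ⟨e, he, rfl⟩ := List.mem_map.1 h4
    exact good_fst c2 he hx
  have hg := good_ren (nodup_cna _ _) hlen hy (fun x hx => hnm A hA x hx) l c2 hAx
  have hren : ∀ w : Nm, w.length < N + 1 → (ren xs ys w).length < 2 * N + 3 := by
    intro w hw
    rcases ren_mem xs ys w with h4 | h4
    · rw [h4]; omega
    · exact hy2 _ h4
  have hT := T1g_spec k (A := A) (L := 2 * N + 3) (l := rnP xs ys l)
    (π := π.map (ap 0 0 xs ys)) (deriv_ren xs ys c1)
    (by rw [← hAself]; exact List.mem_map_of_mem hA) hg (by omega)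
    (fun x hx => by have := hnm A hA x hx; omega) (by
      intro e he
      obtain ⟨e', he', rfl⟩ := List.mem_map.1 he
      obtain ⟨b1, b2, b3⟩ := hAx e' he'
      refine ⟨hren _ b2, ?_⟩
      intro x hx
      obtain ⟨w, hw, rfl⟩ := ap0_vars hx
      exact hren _ (b3 w hw))
  have e1 : padX (2 * N + 3) A (rnP xs ys l) = padN (2 * N + 3) A ys := by
    rw [padX_eq]
    congr 1
    unfold rnP
    rw [List.map_map]
    have : (fun e : Nm × Fm => e.1) ∘ (fun e : Nm × Fm => (ren xs ys e.1, ap 0 0 xs ys e.2)) =
        (ren xs ys) ∘ (fun e : Nm × Fm => e.1) := rfl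
    rw [this, ← List.map_map]
    exact map_ren (good_nodup c2) hlen
  rw [e1] at hT
  obtain ⟨j, m⟩ := weak_just (mono_perm F) (fun _ _ h => Or.inl h) hw (2 * N + 3) A ys
    ((cna (N + 1) N).drop l.length) []
    (T1g k A (2 * N + 3) (rnP xs ys l) (π.map (ap 0 0 xs ys))) (by
      rw [List.append_nil]
      exact List.mem_of_getLast? hT.2)
  rw [List.nil_append, cna_prefix _ hr] at m
  have hJ : Just (FP F) [] (T1g k A (2 * N + 3) (rnP xs ys l) (π.map (ap 0 0 xs ys)) ++
      weakB Dw (2 * N + 3) A ys ((cna (N + 1) N).drop l.length)) :=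
    Just.append (hT.1.just (mono_perm F) []) (by simpa [weakB] using j)
  exact deriv_cutAt (deriv_app (mono_perm F) Deriv.nil hJ) (mem_app.2 (Or.inr m))

/-- The padded formula of a formula that is not a tautology is not a tautology. -/
theorem padC_taut {A : Fm} {N : ℕ} (hN : ∀ x ∈ A.vars, x.length < N + 1) (h : ¬ A.Taut) :
    ¬ (padC N A).Taut := by
  unfold Fm.Taut at h
  push Not at h
  obtain ⟨v, hv⟩ := h
  intro h
  let v' : Nm → Prop := fun x => (x.length < N + 1 ∧ v x) ∨ (N + 1 ≤ x.length ∧ x.length < 2 * N + 3)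
  have h1 : ∀ B : Fm, (∀ x ∈ B.vars, x.length < N + 1) → (B.Eval v' ↔ B.Eval v) := by
    intro B
    induction B with
    | var w =>
      intro hB
      have := hB w rfl
      show v' w ↔ v w
      constructor
      · rintro (⟨_, h⟩ | ⟨h, _⟩)
        · exact h
        · omega
      · exact fun h => Or.inl ⟨this, h⟩
    | neg B ih =>
      intro hB
      exact not_congr (ih hB)
    | and B C ih1 ih2 =>
      intro hB
      exact and_congr (ih1 fun x hx => hB x (Or.inl hx)) (ih2 fun x hx => hB x (Or.inr hx))
    | or B C ih1 ih2 =>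
      intro hB
      exact or_congr (ih1 fun x hx => hB x (Or.inl hx)) (ih2 fun x hx => hB x (Or.inr hx))
    | imp B C ih1 ih2 =>
      intro hB
      exact imp_congr (ih1 fun x hx => hB x (Or.inl hx)) (ih2 fun x hx => hB x (Or.inr hx))
  have h2 : ∀ xs : List Nm, (∀ x ∈ xs, N + 1 ≤ x.length ∧ x.length < 2 * N + 3) →
      ¬ (padN (2 * N + 3) A xs).Eval v' := by
    intro xs
    induction xs using List.reverseRecOn with
    | nil =>
      intro _ h3
      exact hv ((h1 A hN).1 h3)
    | append_singleton xs x ih =>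
      intro hxs h3
      rw [padN_snoc] at h3
      rcases h3 with h3 | h3
      · have h4 := hxs x (by simp)
        have h5 : v' x := Or.inr h4
        have h6 : v' (nf (2 * N + 3) x) := h3.1 h5
        have h7 := nf_length (2 * N + 3) x
        rcases h6 with ⟨h6, _⟩ | ⟨_, h6⟩ <;> omega
      · exact ih (fun y hy => hxs y (List.mem_append_left _ hy)) h3
  refine h2 (cna (N + 1) N) ?_ (h v')
  intro x hx
  obtain ⟨j, hj, rfl⟩ := mem_cna.1 hx
  rw [cn_length]
  omega

end

end Pool.Agent.H.MP_0447ec_lc.PS
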