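import Pool.Agent.H.MP_0447ec_lc.PS.Defs

/-!
# Restrictions by constants
-/

namespace Pool.Agent.H.MP_0447ec_lc.PS

open Fm

/-- The restriction of a formula that makes the variables named in `T` true and the other
variables named in `U` false. Truth is written as the formula `p → p` and falsity as its
negation, where `p` is the variable with the empty name. -/
def Fm.restrict (T U : List (List Bool)) (A : Fm) : Fm :=
  A.subst (fun w => if w ∈ T then imp (var []) (var [])
    else if w ∈ U then neg (imp (var []) (var [])) else var w)

/-- Binary code of a list of names. -/
def codeNames (T : List (List Bool)) : List Bool :=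
  T.flatMap (fun w => true :: codeWord w) ++ [false]

/-- Binary code of a restriction together with a sequence of formulas. -/
def codeInput (x : (List (List Bool) × List (List Bool)) × List Fm) : List Bool :=
  true :: ((true :: (codeNames x.1.1 ++ codeNames x.1.2)) ++ codeProof x.2)

/-- The proof system `P` is p-closed under restrictions: some function computable in polynomial
time maps every pair of lists of names `T`, `U` and every `P`-proof of a formula `A` to a
`P`-proof of the restriction of `A` given by `T` and `U`. -/
def ClosedUnderRestrictions (P : Fm → List Fm → Prop) : Prop :=
  ∃ g : (List (List Bool) × List (List Bool)) × List Fm → List Fm,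
    Nonempty (Turing.TM2ComputableInPolyTime codeInput codeProof g) ∧
    ∀ (A : Fm) (π : List Fm) (T U : List (List Bool)), P A π →
      P (A.restrict T U) (g ((T, U), π))

end Pool.Agent.H.MP_0447ec_lc.PS
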