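import Pool.Agent.H.MP_0447ec_lc.PS.Basic

/-!
# The transformation of extended Frege proofs, as an explicit algorithm, and its correctness
-/

namespace Pool.Agent.H.MP_0447ec_lc.PS

open Fm

/-! ### Splittings of lists -/

/-- All splittings of a list into the part before an element, the element, and the part after,
where the part before is prolonged by `pre`. -/
def sp {β : Type} : List β → List β → List (List β × β × List β)
  | _, [] => []
  | pre, e :: t => (pre, e, t) :: sp (pre ++ [e]) t

theorem sp_snoc {β : Type} (l : List β) (e : β) : ∀ pre : List β,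
    (sp pre (l ++ [e])).map (fun p => (p.1, p.2.1)) =
      (sp pre l).map (fun p => (p.1, p.2.1)) ++ [(pre ++ l, e)] := by
  induction l with
  | nil => intro pre; simp [sp]
  | cons b l ih =>
    intro pre
    have := ih (pre ++ [b])
    simp only [List.cons_append, sp, List.map_cons, this, List.append_assoc, List.nil_append]

/-- The pairs of an initial segment and the next line. -/
def splits (π : List Fm) : List (List Fm × Fm) := (sp [] π).map (fun p => (p.1, p.2.1))

theorem splits_snoc (π : List Fm) (B : Fm) : splits (π ++ [B]) = splits π ++ [(π, B)] := by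
  unfold splits
  rw [sp_snoc]
  simp

/-! ### Extension axioms -/

/-- The extension axiom of a pair. -/
def eAx (e : Nm × Fm) : Fm := Fm.iff (var e.1) e.2

/-- The conjunction of a list of extension axioms (with the tautology `A → A` at the end). -/
def hyp (A : Fm) (l : List (Nm × Fm)) : Fm := l.foldr (fun e H => Fm.and (eAx e) H) (imp A A)

theorem hyp_nil (A : Fm) : hyp A [] = imp A A := rfl
theorem hyp_cons (A : Fm) (e : Nm × Fm) (l : List (Nm × Fm)) :
    hyp A (e :: l) = Fm.and (eAx e) (hyp A l) := rfl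

/-- A list of extension axioms, latest first, in which every extension variable is new. -/
def Good (A : Fm) : List (Nm × Fm) → Prop
  | [] => True
  | e :: l => e.1 ∉ e.2.vars ∧ e.1 ∉ A.vars ∧ (∀ e' ∈ l, e.1 ≠ e'.1 ∧ e.1 ∉ e'.2.vars) ∧ Good A l

/-- Freshness test. -/
def freshB (A : Fm) (pre : List Fm) (q : Nm) (φ : Fm) : Bool :=
  (!decide (q ∈ nms φ) && !decide (q ∈ nms A)) && pre.all (fun C => !decide (q ∈ nms C))

theorem freshB_iff {A : Fm} {pre : List Fm} {q : Nm} {φ : Fm} :
    freshB A pre q φ = true ↔ q ∉ φ.vars ∧ q ∉ A.vars ∧ ∀ C ∈ pre, q ∉ C.vars := by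
  simp only [freshB, Bool.and_eq_true, Bool.not_eq_true', decide_eq_false_iff_not,
    List.all_eq_true, mem_nms, and_assoc]

/-- The candidates for the extension axiom given by a line. -/
def extC (A : Fm) (pre : List Fm) (B : Fm) : List (Nm × Fm) :=
  (nms B).flatMap (fun q => (subs B).flatMap (fun φ =>
    if (decide (B = Fm.iff (var q) φ) && freshB A pre q φ) = true then [(q, φ)] else []))

/-- The extension axiom given by a line, if any. -/
def isExt (A : Fm) (pre : List Fm) (B : Fm) : List (Nm × Fm) := (extC A pre B).take 1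

theorem extC_sound {A : Fm} {pre : List Fm} {B : Fm} {e : Nm × Fm} (h : e ∈ extC A pre B) :
    B = eAx e ∧ e.1 ∉ e.2.vars ∧ e.1 ∉ A.vars ∧ ∀ C ∈ pre, e.1 ∉ C.vars := by
  simp only [extC, List.mem_flatMap] at h
  obtain ⟨q, _, φ, _, h⟩ := h
  split_ifs at h with h1
  · simp only [List.mem_singleton] at h
    subst h
    rw [Bool.and_eq_true, decide_eq_true_iff, freshB_iff] at h1
    exact ⟨h1.1, h1.2⟩
  · simp at h

theorem isExt_cases (A : Fm) (pre : List Fm) (B : Fm) :
    isExt A pre B = [] ∨ ∃ e, isExt A pre B = [e] := by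
  unfold isExt
  cases extC A pre B with
  | nil => left; rfl
  | cons e l => right; exact ⟨e, by simp⟩

theorem isExt_sound {A : Fm} {pre : List Fm} {B : Fm} {e : Nm × Fm} (h : e ∈ isExt A pre B) :
    B = eAx e ∧ e.1 ∉ e.2.vars ∧ e.1 ∉ A.vars ∧ ∀ C ∈ pre, e.1 ∉ C.vars :=
  extC_sound (List.mem_of_mem_take h)

theorem isExt_complete {A : Fm} {pre : List Fm} {B : Fm} (h : ExtStep A pre B) :
    ∃ e, isExt A pre B = [e] := by
  obtain ⟨q, φ, hB, h1, h2, h3⟩ := h
  have hmem : (q, φ) ∈ extC A pre B := by
    simp only [extC, List.mem_flatMap]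
    refine ⟨q, ?_, φ, ?_, ?_⟩
    · rw [hB]; simp [Fm.iff, nms]
    · rw [hB]; simp [Fm.iff, subs, self_mem_subs]
    · rw [if_pos]
      · simp
      · rw [Bool.and_eq_true, decide_eq_true_iff, freshB_iff]
        exact ⟨hB, h1, h3, h2⟩
  rcases isExt_cases A pre B with h | h
  · unfold isExt at h
    rw [List.take_eq_nil_iff] at h
    rcases h with h | h
    · simp at h
    · rw [h] at hmem; simp at hmem
  · exact h

/-- The list of extension axioms of a proof, latest first. -/
def extL (A : Fm) (π : List Fm) : List (Nm × Fm) :=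
  ((splits π).flatMap (fun p => isExt A p.1 p.2)).reverse

theorem extL_snoc (A : Fm) (π : List Fm) (B : Fm) :
    extL A (π ++ [B]) = isExt A π B ++ extL A π := by
  unfold extL
  rw [splits_snoc, List.flatMap_append, List.reverse_append]
  simp only [List.flatMap_cons, List.flatMap_nil, List.append_nil]
  rcases isExt_cases A π B with h | ⟨e, h⟩ <;> rw [h] <;> rfl

theorem collect {F : List Rule} {A : Fm} {π : List Fm}
    (h : Deriv (fun σ B => RuleStep F σ B ∨ ExtStep A σ B) π) :
    Deriv (fun σ B => RuleStep F σ B ∨ B ∈ (extL A π).map eAx) π ∧ Good A (extL A π) ∧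
      (∀ e ∈ extL A π, eAx e ∈ π) := by
  induction h with
  | nil => exact ⟨Deriv.nil, trivial, by intro e he; simp [extL, splits, sp] at he⟩
  | @snoc σ B h1 h2 ih =>
    obtain ⟨a, b, c⟩ := ih
    rw [extL_snoc]
    refine ⟨?_, ?_, ?_⟩
    · refine Deriv.snoc (a.imp_step ?_) ?_
      · rintro σ' B' (h | h)
        · exact Or.inl h
        · right
          rw [List.map_append]
          exact List.mem_append_right _ h
      · rcases h2 with h2 | h2
        · exact Or.inl h2
        · right
          obtain ⟨e, he⟩ := isExt_complete h2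
          have := (isExt_sound (A := A) (pre := σ) (B := B) (e := e) (by rw [he]; simp)).1
          rw [he, this]
          simp
    · rcases isExt_cases A σ B with h | ⟨e, h⟩
      · rw [h]; exact b
      · obtain ⟨_, e2, e3, e4⟩ := isExt_sound (A := A) (pre := σ) (B := B) (e := e)
          (by rw [h]; simp)
        rw [h]
        refine ⟨e2, e3, ?_, b⟩
        intro e' he'
        have := e4 _ (c e' he')
        simp only [eAx, Fm.iff, Fm.vars, Set.mem_union, Set.mem_singleton_iff, not_or] at this
        exact ⟨this.1.1, this.1.2⟩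
    · intro e he
      rcases List.mem_append.1 he with he | he
      · rw [← (isExt_sound he).1]; simp
      · exact List.mem_append_left _ (c e he)

/-! ### Substitutions -/

/-- Substitution with values `X, Y, Z` at words of length `0, 1, 2` (and `X` elsewhere). -/
def s3 (X Y Z : Fm) : Nm → Fm := fun w =>
  match w with
  | [] => X
  | [_] => Y
  | [_, _] => Z
  | _ => X

/-- Substitution with values `X, Y, Z, U, V` at words of length `0, ..., 4`
(and `X` elsewhere). -/
def s5 (X Y Z U V : Fm) : Nm → Fm := fun w =>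
  match w with
  | [] => X
  | [_] => Y
  | [_, _] => Z
  | [_, _, _] => U
  | [_, _, _, _] => V
  | _ => X

/-- Metavariables. -/
def v0 : Fm := var []
/-- Metavariables. -/
def v1 : Fm := var [true]
/-- Metavariables. -/
def v2 : Fm := var [true, true]
/-- Metavariables. -/
def v3 : Fm := var [true, true, true]
/-- Metavariables. -/
def v4 : Fm := var [true, true, true, true]

/-- Variables of a rule shifted, to make room for the hypothesis variable. -/
def shiftF (A : Fm) : Fm := A.subst (fun w => var (true :: w))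

/-- The hypothesis `H` at the empty word, `s` elsewhere. -/
def hs (H : Fm) (s : Nm → Fm) : Nm → Fm := fun w =>
  match w with
  | [] => H
  | _ :: w => s w

theorem shiftF_subst (A H : Fm) (s : Nm → Fm) : (shiftF A).subst (hs H s) = A.subst s := by
  rw [shiftF, Fm.subst_subst]; rfl

theorem shiftF_eval (A : Fm) (v : Nm → Prop) :
    (shiftF A).Eval v ↔ A.Eval (fun n => v (true :: n)) := by
  rw [shiftF, Fm.eval_subst]; rfl

/-- All lists of length `k` with members from a list. -/
def assigns : ℕ → List Fm → List (List Fm)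
  | 0, _ => [[]]
  | k + 1, c => c.flatMap (fun v => (assigns k c).map (fun vs => v :: vs))

theorem mem_assigns {c : List Fm} : ∀ {vs : List Fm}, (∀ v ∈ vs, v ∈ c) →
    vs ∈ assigns vs.length c := by
  intro vs
  induction vs with
  | nil => intro _; simp [assigns]
  | cons v vs ih =>
    intro h
    simp only [List.length_cons, assigns, List.mem_flatMap, List.mem_map]
    exact ⟨v, h v (by simp), vs, ih (fun x hx => h x (List.mem_cons_of_mem _ hx)), rfl⟩

/-- The substitution given by a list of names and a list of values. -/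
def lsub : List Nm → List Fm → Nm → Fm
  | [], _, y => var y
  | _ :: _, [], y => var y
  | x :: xs, v :: vs, y => if y = x then v else lsub xs vs y

theorem lsub_map (s : Nm → Fm) : ∀ (xs : List Nm) (y : Nm), y ∈ xs →
    lsub xs (xs.map s) y = s y := by
  intro xs
  induction xs with
  | nil => intro y hy; simp at hy
  | cons x xs ih =>
    intro y hy
    simp only [List.map_cons, lsub]
    split_ifs with h
    · rw [h]
    · rcases List.mem_cons.1 hy with hy | hy
      · exact absurd hy h
      · exact ih y hy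

/-! ### Fixed derivations -/

/-- Fixed derivations of the schematic inferences that are used. -/
structure Kit (F : List Rule) where
  Dr : List Fm
  Dp : List Fm
  Dq : List Fm
  D1 : List Fm
  D2 : List Fm
  D3 : List Fm
  Ds : List Fm
  FD : List (Rule × List Nm × List Fm)
  hr : Sch F [] (imp v0 v0) Dr
  hp : Sch F [imp v0 (Fm.and v1 v2)] (imp v0 v1) Dp
  hq : Sch F [imp v0 (Fm.and v1 v2)] (imp v0 v2) Dq
  h1 : Sch F [v0] (imp (Fm.or v1 (neg v1)) v0) D1
  h2 : Sch F [imp (Fm.and (Fm.iff v0 v2) v3) v4,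
      imp (Fm.or v0 (neg v0)) (imp (Fm.and (Fm.iff v1 v2) v3) v4)]
    (imp v3 (Fm.or (Fm.iff v0 v1) v4)) D2
  h3 : Sch F [imp (imp v0 v0) v1] v1 D3
  hst : Sch F [Fm.or (Fm.iff (imp v0 v0) (neg (imp v0 v0))) v1] v1 Ds
  cov : ∀ r ∈ F, ∃ t ∈ FD, t.1 = r
  vrs : ∀ t ∈ FD, (∀ P ∈ t.1.prem, ∀ x ∈ P.vars, x ∈ t.2.1) ∧
    (∀ x ∈ t.1.concl.vars, x ∈ t.2.1) ∧
    (∀ x ∈ t.2.1, (∃ P ∈ t.1.prem, x ∈ P.vars) ∨ x ∈ t.1.concl.vars)
  sch : ∀ t ∈ FD, Sch F (t.1.prem.map (fun P => imp v0 (shiftF P)))
    (imp v0 (shiftF t.1.concl)) t.2.2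

theorem exists_kit {F : List Rule} (hF : IsFrege F) : Nonempty (Kit F) := by
  obtain ⟨Dr, hr⟩ := exists_sch hF [] (imp v0 v0) (by intro v _ h; exact h)
  obtain ⟨Dp, hp⟩ := exists_sch hF [imp v0 (Fm.and v1 v2)] (imp v0 v1) (by
    intro v hv h; exact (hv _ (List.mem_singleton.2 rfl) h).1)
  obtain ⟨Dq, hq⟩ := exists_sch hF [imp v0 (Fm.and v1 v2)] (imp v0 v2) (by
    intro v hv h; exact (hv _ (List.mem_singleton.2 rfl) h).2)
  obtain ⟨D1, h1⟩ := exists_sch hF [v0] (imp (Fm.or v1 (neg v1)) v0) (by
    intro v hv _; exact hv _ (List.mem_singleton.2 rfl))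
  obtain ⟨D2, h2⟩ := exists_sch hF [imp (Fm.and (Fm.iff v0 v2) v3) v4,
      imp (Fm.or v0 (neg v0)) (imp (Fm.and (Fm.iff v1 v2) v3) v4)]
    (imp v3 (Fm.or (Fm.iff v0 v1) v4)) (by
      intro v hv h3
      have h1 := hv (imp (Fm.and (Fm.iff v0 v2) v3) v4) (by simp)
      have h2 := hv (imp (Fm.or v0 (neg v0)) (imp (Fm.and (Fm.iff v1 v2) v3) v4)) (by simp)
      simp only [Fm.Eval, Fm.iff, v0, v1, v2, v3, v4] at h1 h2 h3 ⊢
      by_cases h0 : v [] <;> by_cases h0' : v [true] <;> by_cases h0'' : v [true, true] <;>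
        tauto)
  obtain ⟨D3, h3⟩ := exists_sch hF [imp (imp v0 v0) v1] v1 (by
    intro v hv; exact hv _ (List.mem_singleton.2 rfl) (fun h => h))
  obtain ⟨Ds, hst⟩ := exists_sch hF [Fm.or (Fm.iff (imp v0 v0) (neg (imp v0 v0))) v1] v1 (by
    intro v hv
    have h1 := hv _ (List.mem_singleton.2 rfl)
    simp only [Fm.Eval, Fm.iff] at h1 ⊢
    tauto)
  have key : ∀ r ∈ F, ∃ D, Sch F (r.prem.map (fun P => imp v0 (shiftF P)))
      (imp v0 (shiftF r.concl)) D := by
    intro r hr
    apply exists_sch hF
    intro v hv h0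
    rw [shiftF_eval]
    apply hF.sound r hr
    intro P hP
    have := hv _ (List.mem_map_of_mem (f := fun P => imp v0 (shiftF P)) hP) h0
    rwa [shiftF_eval] at this
  have hFD : ∃ FD : List (Rule × List Nm × List Fm), (∀ r ∈ F, ∃ t ∈ FD, t.1 = r) ∧
      (∀ t ∈ FD, (∀ P ∈ t.1.prem, ∀ x ∈ P.vars, x ∈ t.2.1) ∧
        (∀ x ∈ t.1.concl.vars, x ∈ t.2.1) ∧
        (∀ x ∈ t.2.1, (∃ P ∈ t.1.prem, x ∈ P.vars) ∨ x ∈ t.1.concl.vars)) ∧
      (∀ t ∈ FD, Sch F (t.1.prem.map (fun P => imp v0 (shiftF P)))
        (imp v0 (shiftF t.1.concl)) t.2.2) := by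
    have gen : ∀ G : List Rule, (∀ r ∈ G, r ∈ F) →
        ∃ FD : List (Rule × List Nm × List Fm), (∀ r ∈ G, ∃ t ∈ FD, t.1 = r) ∧
      (∀ t ∈ FD, (∀ P ∈ t.1.prem, ∀ x ∈ P.vars, x ∈ t.2.1) ∧
        (∀ x ∈ t.1.concl.vars, x ∈ t.2.1) ∧
        (∀ x ∈ t.2.1, (∃ P ∈ t.1.prem, x ∈ P.vars) ∨ x ∈ t.1.concl.vars)) ∧
      (∀ t ∈ FD, Sch F (t.1.prem.map (fun P => imp v0 (shiftF P)))
        (imp v0 (shiftF t.1.concl)) t.2.2) := by
      intro G
      induction G with
      | nil => intro _; exact ⟨[], by simp, by simp, by simp⟩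
      | cons r G ih =>
        intro hG
        obtain ⟨FD, a, b, c⟩ := ih (fun r' hr' => hG r' (List.mem_cons_of_mem _ hr'))
        obtain ⟨D, hD⟩ := key r (hG r (by simp))
        refine ⟨(r, r.prem.flatMap nms ++ nms r.concl, D) :: FD, ?_, ?_, ?_⟩
        · intro r' hr'
          rcases List.mem_cons.1 hr' with rfl | hr'
          · exact ⟨_, List.mem_cons_self, rfl⟩
          · obtain ⟨t, ht, e⟩ := a r' hr'
            exact ⟨t, List.mem_cons_of_mem _ ht, e⟩
        · intro t ht
          rcases List.mem_cons.1 ht with rfl | ht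
          · refine ⟨?_, ?_, ?_⟩
            · intro P hP x hx
              exact List.mem_append_left _ (List.mem_flatMap.2 ⟨P, hP, mem_nms.2 hx⟩)
            · intro x hx
              exact List.mem_append_right _ (mem_nms.2 hx)
            · intro x hx
              rcases List.mem_append.1 hx with hx | hx
              · obtain ⟨P, hP, hx⟩ := List.mem_flatMap.1 hx
                exact Or.inl ⟨P, hP, mem_nms.1 hx⟩
              · exact Or.inr (mem_nms.1 hx)
          · exact b t ht
        · intro t ht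
          rcases List.mem_cons.1 ht with rfl | ht
          · exact hD
          · exact c t ht
    exact gen F (fun r hr => hr)
  obtain ⟨FD, a, b, c⟩ := hFD
  exact ⟨⟨Dr, Dp, Dq, D1, D2, D3, Ds, FD, hr, hp, hq, h1, h2, h3, hst, a, b, c⟩⟩

section alg

variable {F : List Rule} (k : Kit F)

/-! ### Projections -/

/-- Lines for one projection. -/
def projOne (A H : Fm) (e : Nm × Fm) (t : List (Nm × Fm)) : List Fm :=
  inst k.Dp (s3 H (eAx e) (hyp A t)) ++ inst k.Dq (s3 H (eAx e) (hyp A t))

/-- Lines for all projections. -/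
def projB (A H : Fm) (l : List (Nm × Fm)) : List Fm :=
  inst k.Dr (s3 H H H) ++ (sp [] l).flatMap (fun p => projOne k A H p.2.1 p.2.2)

theorem projAux (A H : Fm) : ∀ (t pre : List (Nm × Fm)) (π : List Fm), imp H (hyp A t) ∈ π →
    Just (RuleStep F) π ((sp pre t).flatMap (fun p => projOne k A H p.2.1 p.2.2)) ∧
    ∀ e ∈ t, imp H (eAx e) ∈ (sp pre t).flatMap (fun p => projOne k A H p.2.1 p.2.2) := by
  intro t
  induction t with
  | nil => intro pre π _; exact ⟨trivial, by simp⟩
  | cons e t ih =>
    intro pre π h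
    rw [sp, List.flatMap_cons]
    have hΓ : ∀ P ∈ [imp v0 (Fm.and v1 v2)], P.subst (s3 H (eAx e) (hyp A t)) ∈ π := by
      intro P hP
      rw [List.mem_singleton] at hP
      subst hP
      exact h
    have j1 : Just (RuleStep F) π (projOne k A H e t) := by
      refine Just.append (k.hp.just (mono_ruleStep F) (fun _ _ h => h) _ _ hΓ) ?_
      refine k.hq.just (mono_ruleStep F) (fun _ _ h => h) _ _ ?_
      intro P hP
      exact List.mem_append_left _ (hΓ P hP)
    have m1 : imp H (eAx e) ∈ projOne k A H e t :=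
      List.mem_append_left _ (k.hp.mem_inst (s3 H (eAx e) (hyp A t)))
    have m2 : imp H (hyp A t) ∈ projOne k A H e t :=
      List.mem_append_right _ (k.hq.mem_inst (s3 H (eAx e) (hyp A t)))
    obtain ⟨i1, i2⟩ := ih (pre ++ [e]) (π ++ projOne k A H e t) (List.mem_append_right _ m2)
    refine ⟨Just.append j1 i1, ?_⟩
    intro e' he'
    rcases List.mem_cons.1 he' with rfl | he'
    · exact List.mem_append_left _ m1
    · exact List.mem_append_right _ (i2 e' he')

theorem projB_just (A : Fm) (l : List (Nm × Fm)) (π : List Fm) :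
    Just (RuleStep F) π (projB k A (hyp A l) l) ∧
    ∀ e ∈ l, imp (hyp A l) (eAx e) ∈ projB k A (hyp A l) l := by
  have j0 := k.hr.just (mono_ruleStep F) (fun _ _ h => h) (s3 (hyp A l) (hyp A l) (hyp A l)) π
    (by simp)
  have m0 : imp (hyp A l) (hyp A l) ∈ inst k.Dr (s3 (hyp A l) (hyp A l) (hyp A l)) :=
    k.hr.mem_inst _
  obtain ⟨i1, i2⟩ := projAux k A (hyp A l) l []
    (π ++ inst k.Dr (s3 (hyp A l) (hyp A l) (hyp A l))) (List.mem_append_right _ m0)
  exact ⟨Just.append j0 i1, fun e he => List.mem_append_right _ (i2 e he)⟩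

/-! ### The deduction theorem -/

/-- Lines for the possible uses of one rule. -/
def dedRule (t : Rule × List Nm × List Fm) (H : Fm) (cands pre : List Fm) (B : Fm) : List Fm :=
  (assigns t.2.1.length cands).flatMap (fun vals =>
    if ((t.1.prem.all (fun P => decide (P.subst (lsub t.2.1 vals) ∈ pre))) &&
      decide (t.1.concl.subst (lsub t.2.1 vals) = B)) = true
    then inst t.2.2 (hs H (lsub t.2.1 vals)) else [])

/-- Lines for all lines of a proof. -/
def dedB (H : Fm) (cands π : List Fm) : List Fm :=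
  (splits π).flatMap (fun p => k.FD.flatMap (fun t => dedRule t H cands p.1 p.2))

theorem ded_just (H : Fm) (cands : List Fm) (l : List (Nm × Fm)) (π₀ : List Fm)
    (h0 : ∀ e ∈ l, imp H (eAx e) ∈ π₀) {π : List Fm}
    (h : Deriv (fun σ B => RuleStep F σ B ∨ B ∈ l.map eAx) π)
    (hc : ∀ B ∈ π, ∀ G ∈ subs B, G ∈ cands) :
    Just (RuleStep F) π₀ (dedB k H cands π) ∧
      ∀ B ∈ π, imp H B ∈ π₀ ++ dedB k H cands π := by
  induction h with
  | nil => exact ⟨trivial, by simp⟩
  | @snoc σ B g1 g2 ih =>
    obtain ⟨i1, i2⟩ := ih (fun C hC => hc C (List.mem_append_left _ hC))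
    have e1 : dedB k H cands (σ ++ [B]) = dedB k H cands σ ++
        k.FD.flatMap (fun t => dedRule t H cands σ B) := by
      unfold dedB
      rw [splits_snoc, List.flatMap_append]
      simp
    rw [e1]
    have j1 : Just (RuleStep F) (π₀ ++ dedB k H cands σ)
        (k.FD.flatMap (fun t => dedRule t H cands σ B)) := by
      apply Just.flatMap (mono_ruleStep F)
      intro t ht
      apply Just.flatMap (mono_ruleStep F)
      intro vals hvals
      split_ifs with hcond
      · rw [Bool.and_eq_true, List.all_eq_true] at hcond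
        refine (k.sch t ht).just (mono_ruleStep F) (fun _ _ h => h) _ _ ?_
        intro P hP
        obtain ⟨P', hP', rfl⟩ := List.mem_map.1 hP
        have h1 := hcond.1 P' hP'
        rw [decide_eq_true_iff] at h1
        have h2 := i2 _ h1
        have h3 : (imp v0 (shiftF P')).subst (hs H (lsub t.2.1 vals)) =
            imp H (P'.subst (lsub t.2.1 vals)) := by
          show imp H ((shiftF P').subst (hs H (lsub t.2.1 vals))) = _
          rw [shiftF_subst]
        rw [h3]
        exact h2
      · trivial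
    refine ⟨Just.append i1 j1, ?_⟩
    intro C hC
    rw [← List.append_assoc]
    rcases List.mem_append.1 hC with hC | hC
    · exact List.mem_append_left _ (i2 C hC)
    · rw [List.mem_singleton] at hC
      subst hC
      rcases g2 with ⟨r, hr, s, hs1, hs2⟩ | g2
      · obtain ⟨t, ht, rfl⟩ := k.cov r hr
        obtain ⟨w1, w2, w3⟩ := k.vrs t ht
        apply List.mem_append_right
        rw [List.mem_flatMap]
        refine ⟨t, ht, ?_⟩
        unfold dedRule
        rw [List.mem_flatMap]
        have hP : ∀ P ∈ t.1.prem, P.subst (lsub t.2.1 (t.2.1.map s)) = P.subst s := by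
          intro P hP
          exact Fm.subst_congr (fun x hx => lsub_map s _ _ (w1 P hP x hx))
        have hCc : t.1.concl.subst (lsub t.2.1 (t.2.1.map s)) = t.1.concl.subst s :=
          Fm.subst_congr (fun x hx => lsub_map s _ _ (w2 x hx))
        refine ⟨t.2.1.map s, ?_, ?_⟩
        · have := mem_assigns (c := cands) (vs := t.2.1.map s) (by
            intro v hv
            obtain ⟨x, hx, rfl⟩ := List.mem_map.1 hv
            rcases w3 x hx with ⟨P, hP, hxP⟩ | hxC
            · exact hc _ (List.mem_append_left _ (hs1 P hP)) _ (mem_subs_subst hxP)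
            · refine hc C (by simp) _ ?_
              rw [← hs2]
              exact mem_subs_subst hxC)
          rwa [List.length_map] at this
        · rw [if_pos]
          · have := (k.sch t ht).mem_inst (hs H (lsub t.2.1 (t.2.1.map s)))
            have h3 : (imp v0 (shiftF t.1.concl)).subst (hs H (lsub t.2.1 (t.2.1.map s))) =
                imp H C := by
              show imp H ((shiftF t.1.concl).subst (hs H (lsub t.2.1 (t.2.1.map s)))) = _
              rw [shiftF_subst, hCc, hs2]
            rwa [h3] at this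
          · rw [Bool.and_eq_true, List.all_eq_true, decide_eq_true_iff]
            refine ⟨?_, by rw [hCc, hs2]⟩
            intro P hP'
            rw [decide_eq_true_iff, hP P hP']
            exact hs1 P hP'
      · obtain ⟨e, he, rfl⟩ := List.mem_map.1 g2
        exact List.mem_append_left _ (List.mem_append_left _ (h0 e he))

/-! ### Elimination -/

/-- The fresh copy of a variable. -/
def nf (L : ℕ) (q : Nm) : Nm := q ++ List.replicate L true

theorem nf_length (L : ℕ) (q : Nm) : (nf L q).length = q.length + L := by simp [nf]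

theorem nf_inj {L : ℕ} {q q' : Nm} (h : nf L q = nf L q') : q = q' :=
  List.append_cancel_right h

/-- The padded formula: `padX L X [e_m, ..., e_1]` is `I₁ ∨ (I₂ ∨ ... (I_m ∨ X))`. -/
def padX (L : ℕ) (X : Fm) (l : List (Nm × Fm)) : Fm :=
  l.foldl (fun X e => Fm.or (Fm.iff (var e.1) (var (nf L e.1))) X) X

theorem padX_snoc (L : ℕ) (X : Fm) (l : List (Nm × Fm)) (e : Nm × Fm) :
    padX L X (l ++ [e]) = Fm.or (Fm.iff (var e.1) (var (nf L e.1))) (padX L X l) := by
  simp [padX]

theorem vars_padX {L : ℕ} {X : Fm} {l : List (Nm × Fm)} {x : Nm} (h : x ∈ (padX L X l).vars) :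
    x ∈ X.vars ∨ ∃ e ∈ l, x = e.1 ∨ x = nf L e.1 := by
  induction l using List.reverseRecOn with
  | nil => exact Or.inl h
  | append_singleton l e ih =>
    rw [padX_snoc] at h
    simp only [Fm.iff, Fm.vars, Set.mem_union, Set.mem_singleton_iff] at h
    rcases h with ((h | h) | (h | h)) | h
    · exact Or.inr ⟨e, by simp, Or.inl h⟩
    · exact Or.inr ⟨e, by simp, Or.inr h⟩
    · exact Or.inr ⟨e, by simp, Or.inr h⟩
    · exact Or.inr ⟨e, by simp, Or.inl h⟩
    · rcases ih h with h | ⟨e', he', h⟩
      · exact Or.inl h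
      · exact Or.inr ⟨e', List.mem_append_left _ he', h⟩

theorem vars_hyp {A : Fm} {l : List (Nm × Fm)} {x : Nm} (h : x ∈ (hyp A l).vars) :
    x ∈ A.vars ∨ ∃ e ∈ l, x = e.1 ∨ x ∈ e.2.vars := by
  induction l with
  | nil =>
    simp only [hyp_nil, Fm.vars, Set.union_self] at h
    exact Or.inl h
  | cons e l ih =>
    simp only [hyp_cons, eAx, Fm.iff, Fm.vars, Set.mem_union, Set.mem_singleton_iff] at h
    rcases h with ((h | h) | (h | h)) | h
    · exact Or.inr ⟨e, by simp, Or.inl h⟩
    · exact Or.inr ⟨e, by simp, Or.inr h⟩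
    · exact Or.inr ⟨e, by simp, Or.inr h⟩
    · exact Or.inr ⟨e, by simp, Or.inl h⟩
    · rcases ih h with h | ⟨e', he', h⟩
      · exact Or.inl h
      · exact Or.inr ⟨e', List.mem_cons_of_mem _ he', h⟩

/-- Lines for the elimination of one extension axiom. -/
def elimOne (A : Fm) (L : ℕ) (X : Fm) (e : Nm × Fm) (t : List (Nm × Fm)) : List Fm :=
  inst k.D1 (s3 (imp (Fm.and (eAx e) (hyp A t)) X) (var (nf L e.1))
    (imp (Fm.and (eAx e) (hyp A t)) X)) ++
  (imp (Fm.or (var e.1) (neg (var e.1)))
    (imp (Fm.and (Fm.iff (var (nf L e.1)) e.2) (hyp A t)) X) ::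
  inst k.D2 (s5 (var e.1) (var (nf L e.1)) e.2 (hyp A t) X))

/-- Lines for the elimination of all extension axioms. -/
def elimB (A : Fm) (L : ℕ) (l : List (Nm × Fm)) : List Fm :=
  (sp [] l).flatMap (fun p => elimOne k A L (padX L A p.1) p.2.1 p.2.2) ++
  inst k.D3 (s3 A (padX L A l) A)

theorem elimOne_just (A : Fm) (L : ℕ) (X : Fm) (e : Nm × Fm) (t : List (Nm × Fm)) (π : List Fm)
    (hL : 0 < L)
    (h : imp (Fm.and (eAx e) (hyp A t)) X ∈ π)
    (g1 : e.1 ∉ e.2.vars) (g2 : nf L e.1 ∉ e.2.vars)
    (g3 : e.1 ∉ (hyp A t).vars) (g4 : nf L e.1 ∉ (hyp A t).vars)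
    (g5 : e.1 ∉ X.vars) (g6 : nf L e.1 ∉ X.vars) :
    Just (FP F) π (elimOne k A L X e t) ∧
    imp (hyp A t) (Fm.or (Fm.iff (var e.1) (var (nf L e.1))) X) ∈ elimOne k A L X e t := by
  obtain ⟨q, φ⟩ := e
  dsimp only at *
  have hne : q ≠ nf L q := by
    intro h
    have := congrArg List.length h
    rw [nf_length] at this
    omega
  set D : Fm := imp (Fm.and (eAx (q, φ)) (hyp A t)) X with hD
  set ρ : Equiv.Perm Nm := Equiv.swap q (nf L q) with hρ
  have hfix : ∀ B : Fm, q ∉ B.vars → nf L q ∉ B.vars →
      B.subst (fun n => var (ρ n)) = B := by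
    intro B h1 h2
    apply Fm.subst_eq_self
    intro x hx
    rw [hρ, Equiv.swap_apply_of_ne_of_ne]
    · rintro rfl; exact h1 hx
    · rintro rfl; exact h2 hx
  have j1 := k.h1.just (mono_perm F) (fun _ _ h => Or.inl h) (s3 D (var (nf L q)) D) π (by
    intro P hP
    rw [List.mem_singleton] at hP
    subst hP
    exact h)
  have m1 : imp (Fm.or (var (nf L q)) (neg (var (nf L q)))) D ∈
      inst k.D1 (s3 D (var (nf L q)) D) := k.h1.mem_inst _
  have hD2 : imp (Fm.or (var q) (neg (var q)))
      (imp (Fm.and (Fm.iff (var (nf L q)) φ) (hyp A t)) X) =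
      (imp (Fm.or (var (nf L q)) (neg (var (nf L q)))) D).subst (fun n => var (ρ n)) := by
    simp only [hD, eAx, Fm.subst, Fm.iff, hfix φ g1 g2, hfix _ g3 g4, hfix _ g5 g6]
    rw [hρ, Equiv.swap_apply_left, Equiv.swap_apply_right]
  have j2 : Just (FP F) (π ++ inst k.D1 (s3 D (var (nf L q)) D))
      [imp (Fm.or (var q) (neg (var q)))
        (imp (Fm.and (Fm.iff (var (nf L q)) φ) (hyp A t)) X)] := by
    refine ⟨Or.inr (Or.inr ⟨_, List.mem_append_right _ m1, ρ, ?_, hD2⟩), trivial⟩
    intro x hx
    rw [hρ, Equiv.swap_apply_of_ne_of_ne]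
    · rintro rfl
      apply hx
      simp [hD, eAx, Fm.iff, Fm.vars]
    · rintro rfl
      apply hx
      simp [Fm.vars]
  have j3 := k.h2.just (mono_perm F) (fun _ _ h => Or.inl h)
    (s5 (var q) (var (nf L q)) φ (hyp A t) X)
    (π ++ inst k.D1 (s3 D (var (nf L q)) D) ++ [imp (Fm.or (var q) (neg (var q)))
        (imp (Fm.and (Fm.iff (var (nf L q)) φ) (hyp A t)) X)]) (by
    intro P hP
    simp only [List.mem_cons, List.not_mem_nil, or_false] at hP
    rcases hP with rfl | rfl
    · exact List.mem_append_left _ (List.mem_append_left _ h)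
    · exact List.mem_append_right _ (List.mem_singleton.2 rfl))
  refine ⟨?_, ?_⟩
  · refine Just.append j1 ?_
    have := Just.append j2 j3
    simpa using this
  · refine List.mem_append_right _ (List.mem_cons_of_mem _ ?_)
    exact k.h2.mem_inst (s5 (var q) (var (nf L q)) φ (hyp A t) X)

theorem elimAux (A : Fm) (L : ℕ) (hA : ∀ x ∈ A.vars, x.length < L) (hL : 0 < L) :
    ∀ (t : List (Nm × Fm)), Good A t → (∀ e ∈ t, e.1.length < L ∧ ∀ x ∈ e.2.vars, x.length < L) →
    ∀ (pre : List (Nm × Fm)), (∀ e ∈ pre, e.1.length < L) →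
    (∀ e ∈ t, ∀ e' ∈ pre, e.1 ≠ e'.1) →
    ∀ (π : List Fm), imp (hyp A t) (padX L A pre) ∈ π →
    Just (FP F) π ((sp pre t).flatMap (fun p => elimOne k A L (padX L A p.1) p.2.1 p.2.2)) ∧
    imp (imp A A) (padX L A (pre ++ t)) ∈
      π ++ (sp pre t).flatMap (fun p => elimOne k A L (padX L A p.1) p.2.1 p.2.2) := by
  intro t
  induction t with
  | nil =>
    intro _ _ pre _ _ π h
    refine ⟨trivial, ?_⟩
    simpa [sp, hyp_nil] using h
  | cons e t ih =>
    intro hg hl pre hpre hne π h
    obtain ⟨g1, g2, g3, g4⟩ := hg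
    obtain ⟨l1, l2⟩ := hl e (by simp)
    rw [sp, List.flatMap_cons]
    rw [hyp_cons] at h
    have hlen : ∀ x : Nm, x.length < L → x ≠ nf L e.1 := by
      rintro x hx rfl
      rw [nf_length] at hx; omega
    have a3 : e.1 ∉ (hyp A t).vars := by
      intro h
      rcases vars_hyp h with h | ⟨e', he', h | h⟩
      · exact g2 h
      · exact (g3 e' he').1 h
      · exact (g3 e' he').2 h
    have a4 : nf L e.1 ∉ (hyp A t).vars := by
      intro h
      rcases vars_hyp h with h | ⟨e', he', h | h⟩
      · exact hlen _ (hA _ h) rfl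
      · exact hlen _ (hl e' (List.mem_cons_of_mem _ he')).1 h.symm
      · exact hlen _ ((hl e' (List.mem_cons_of_mem _ he')).2 _ h) rfl
    have a5 : e.1 ∉ (padX L A pre).vars := by
      intro h
      rcases vars_padX h with h | ⟨e', he', h | h⟩
      · exact g2 h
      · exact hne e (by simp) e' he' h
      · have := congrArg List.length h
        rw [nf_length] at this; omega
    have a6 : nf L e.1 ∉ (padX L A pre).vars := by
      intro h
      rcases vars_padX h with h | ⟨e', he', h | h⟩
      · exact hlen _ (hA _ h) rfl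
      · exact hlen _ (hpre e' he') h.symm
      · exact hne e (by simp) e' he' (nf_inj h)
    obtain ⟨j1, m1⟩ := elimOne_just k A L (padX L A pre) e t π hL h g1
      (fun h => hlen _ (l2 _ h) rfl) a3 a4 a5 a6
    rw [← padX_snoc] at m1
    obtain ⟨j2, m2⟩ := ih g4 (fun e' he' => hl e' (List.mem_cons_of_mem _ he')) (pre ++ [e])
      (by
        intro e' he'
        rcases List.mem_append.1 he' with he' | he'
        · exact hpre e' he'
        · rw [List.mem_singleton] at he'; subst he'; exact l1)
      (by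
        intro e' he' e'' he''
        rcases List.mem_append.1 he'' with he'' | he''
        · exact hne e' (List.mem_cons_of_mem _ he') e'' he''
        · rw [List.mem_singleton] at he''; subst he''
          exact fun h => (g3 e' he').1 h.symm)
      (π ++ elimOne k A L (padX L A pre) e t) (List.mem_append_right _ m1)
    refine ⟨Just.append j1 j2, ?_⟩
    simpa [List.append_assoc] using m2

theorem elimB_just (A : Fm) (L : ℕ) (hA : ∀ x ∈ A.vars, x.length < L) (hL : 0 < L)
    (l : List (Nm × Fm)) (hg : Good A l)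
    (hl : ∀ e ∈ l, e.1.length < L ∧ ∀ x ∈ e.2.vars, x.length < L) (π : List Fm)
    (h : imp (hyp A l) A ∈ π) :
    Just (FP F) π (elimB k A L l) ∧ padX L A l ∈ elimB k A L l := by
  obtain ⟨j1, m1⟩ := elimAux k A L hA hL l hg hl [] (by simp) (by simp) π h
  have j2 := k.h3.just (mono_perm F) (fun _ _ h => Or.inl h) (s3 A (padX L A l) A)
    (π ++ (sp [] l).flatMap (fun p => elimOne k A L (padX L A p.1) p.2.1 p.2.2)) (by
      intro P hP
      rw [List.mem_singleton] at hP
      subst hP
      exact m1)
  exact ⟨Just.append j1 j2, List.mem_append_right _ (k.h3.mem_inst (s3 A (padX L A l) A))⟩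

/-! ### The first transformation -/

/-- The last line. -/
def lastF (π : List Fm) : Fm := π.reverse.headD (var [])

theorem lastF_eq {π : List Fm} {A : Fm} (h : π.getLast? = some A) : lastF π = A := by
  unfold lastF
  rw [List.headD_eq_head?_getD, List.head?_reverse, h]
  rfl

/-- A bound for the lengths of the names of variables. -/
def lenB (π : List Fm) : ℕ := (π.flatMap nms).flatten.length + 1

theorem lenB_spec {π : List Fm} {B : Fm} (hB : B ∈ π) {x : Nm} (hx : x ∈ B.vars) :
    x.length < lenB π := by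
  have h1 : x ∈ π.flatMap nms := List.mem_flatMap.2 ⟨B, hB, mem_nms.2 hx⟩
  have h2 : x.length ≤ (π.flatMap nms).flatten.length := by
    rw [List.length_flatten]
    exact List.single_le_sum (by simp) _ (List.mem_map_of_mem h1)
  unfold lenB
  omega

/-- From an extended Frege proof to a proof with the permutation rule of the padded formula. -/
def T1 (π : List Fm) : List Fm :=
  cutAt (padX (lenB π) (lastF π) (extL (lastF π) π))
    (app [] (projB k (lastF π) (hyp (lastF π) (extL (lastF π) π)) (extL (lastF π) π) ++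
      dedB k (hyp (lastF π) (extL (lastF π) π)) (π.flatMap subs) π ++
      elimB k (lastF π) (lenB π) (extL (lastF π) π)))

theorem T1_spec {A : Fm} {π : List Fm} (h : ExtProof F A π) :
    PermProof F (padX (lenB π) A (extL A π)) (T1 k π) := by
  obtain ⟨h1, h2⟩ := h
  have hlast := lastF_eq h2
  have hA : A ∈ π := List.mem_of_getLast? h2
  obtain ⟨c1, c2, c3⟩ := collect h1
  unfold T1
  rw [hlast]
  set l := extL A π with hl
  set H := hyp A l with hH
  have hJ : Just (FP F) [] (projB k A H l ++ dedB k H (π.flatMap subs) π ++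
      elimB k A (lenB π) l) ∧ padX (lenB π) A l ∈ projB k A H l ++
      dedB k H (π.flatMap subs) π ++ elimB k A (lenB π) l := by
    obtain ⟨j1, m1⟩ := projB_just k A l []
    obtain ⟨j2, m2⟩ := ded_just k H (π.flatMap subs) l (projB k A H l) m1 c1
      (fun B hB G hG => List.mem_flatMap.2 ⟨B, hB, hG⟩)
    have toFP : ∀ (σ π' : List Fm), Just (RuleStep F) π' σ → Just (FP F) π' σ := by
      intro σ
      induction σ with
      | nil => intro _ _; trivial
      | cons C σ ih =>
        rintro π' ⟨h1 | h1, h2⟩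
        · exact ⟨Or.inl h1, ih _ h2⟩
        · exact ⟨Or.inr (Or.inl h1), ih _ h2⟩
    obtain ⟨j3, m3⟩ := elimB_just k A (lenB π) (fun x hx => lenB_spec hA hx)
      (by unfold lenB; omega) l c2 (by
        intro e he
        have h3 := c3 e he
        refine ⟨lenB_spec h3 (by simp [eAx, Fm.iff, Fm.vars]), fun x hx => lenB_spec h3 ?_⟩
        simp [eAx, Fm.iff, Fm.vars, hx]) (projB k A H l ++ dedB k H (π.flatMap subs) π)
      (m2 A hA)
    refine ⟨?_, List.mem_append_right _ m3⟩
    refine Just.append ?_ ?_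
    · refine Just.append (toFP _ _ j1) ?_
      simpa using toFP _ _ j2
    · simpa using j3
  have hD := deriv_app (mono_perm F) Deriv.nil hJ.1
  have hm : padX (lenB π) A l ∈ app [] (projB k A H l ++ dedB k H (π.flatMap subs) π ++
      elimB k A (lenB π) l) := mem_app.2 (Or.inr hJ.2)
  exact deriv_cutAt hD hm

/-! ### The second transformation -/

/-- The truth constants as formulas. -/
def tt : Fm := imp (var []) (var [])
/-- The truth constants as formulas. -/
def ff : Fm := neg (imp (var []) (var []))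

/-- The substitution of truth for the names in `T` and of falsity for the other names
in `U`. -/
def cst (T U : List Nm) : Nm → Fm := fun w =>
  if w ∈ T then tt else if w ∈ U then ff else var w

/-- Names to be made true. -/
def rT (l : List (Nm × Fm)) : List Nm := l.map (fun e => e.1)
/-- Names to be made false. -/
def rF (L : ℕ) (l : List (Nm × Fm)) : List Nm := l.map (fun e => nf L e.1)

/-- The padding after the restriction. -/
def padF (X : Fm) (l : List (Nm × Fm)) : Fm :=
  l.foldl (fun X _ => Fm.or (Fm.iff tt ff) X) X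

theorem padF_cons (X : Fm) (e : Nm × Fm) (l : List (Nm × Fm)) :
    padF X (e :: l) = Fm.or (Fm.iff tt ff) (padF X l) := by
  induction l generalizing X with
  | nil => rfl
  | cons b l ih =>
    have h1 : padF X (e :: b :: l) = padF (Fm.or (Fm.iff tt ff) X) (b :: l) := rfl
    have h2 : padF X (b :: l) = padF (Fm.or (Fm.iff tt ff) X) l := rfl
    rw [h1, h2]
    exact ih (Fm.or (Fm.iff tt ff) X)

theorem padX_subst (L : ℕ) (T U : List Nm) : ∀ (l : List (Nm × Fm)) (X : Fm),
    (∀ e ∈ l, cst T U e.1 = tt ∧ cst T U (nf L e.1) = ff) →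
    (padX L X l).subst (cst T U) = padF (X.subst (cst T U)) l := by
  intro l
  induction l with
  | nil => intro X _; rfl
  | cons e l ih =>
    intro X h
    have h1 : padX L X (e :: l) = padX L (Fm.or (Fm.iff (var e.1) (var (nf L e.1))) X) l := rfl
    rw [h1, ih _ (fun e' he' => h e' (List.mem_cons_of_mem _ he'))]
    obtain ⟨h2, h3⟩ := h e (by simp)
    have h4 : (Fm.or (Fm.iff (var e.1) (var (nf L e.1))) X).subst (cst T U) =
        Fm.or (Fm.iff tt ff) (X.subst (cst T U)) := by
      simp only [Fm.subst, Fm.iff, h2, h3]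
    rw [h4]
    rfl

/-- Lines that remove the padding. -/
def stripB (A : Fm) (l : List (Nm × Fm)) : List Fm :=
  (sp [] l).flatMap (fun p => inst k.Ds (s3 (var []) (padF A p.2.2) (var [])))

theorem stripAux {step : List Fm → Fm → Prop} (hm : Mono step)
    (hF : ∀ σ C, RuleStep F σ C → step σ C) (A : Fm) :
    ∀ (t pre : List (Nm × Fm)) (π : List Fm), padF A t ∈ π →
    Just step π ((sp pre t).flatMap (fun p => inst k.Ds (s3 (var []) (padF A p.2.2) (var [])))) ∧
    A ∈ π ++ (sp pre t).flatMap (fun p => inst k.Ds (s3 (var []) (padF A p.2.2) (var []))) := by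
  intro t
  induction t with
  | nil => intro pre π h; exact ⟨trivial, by simpa [sp, padF] using h⟩
  | cons e t ih =>
    intro pre π h
    rw [sp, List.flatMap_cons]
    rw [padF_cons] at h
    have j1 := k.hst.just hm hF (s3 (var []) (padF A t) (var [])) π (by
      intro P hP
      rw [List.mem_singleton] at hP
      subst hP
      exact h)
    have m1 : padF A t ∈ inst k.Ds (s3 (var []) (padF A t) (var [])) :=
      k.hst.mem_inst (s3 (var []) (padF A t) (var []))
    obtain ⟨j2, m2⟩ := ih (pre ++ [e]) (π ++ inst k.Ds (s3 (var []) (padF A t) (var [])))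
      (List.mem_append_right _ m1)
    exact ⟨Just.append j1 j2, by simpa [List.append_assoc] using m2⟩

/-- Remove the padding from a derivation of a restricted padded formula. -/
def T3 (A : Fm) (l : List (Nm × Fm)) (τ : List Fm) : List Fm :=
  cutAt A (app [] (τ ++ stripB k A l))

theorem T3_spec {step : List Fm → Fm → Prop} (hm : Mono step)
    (hF : ∀ σ C, RuleStep F σ C → step σ C) (A : Fm) (l : List (Nm × Fm)) (τ : List Fm)
    (h1 : Deriv step τ) (h2 : padF A l ∈ τ) :
    Deriv step (T3 k A l τ) ∧ (T3 k A l τ).getLast? = some A := by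
  obtain ⟨j, m⟩ := stripAux k hm hF A l [] τ h2
  have hJ : Just step [] (τ ++ stripB k A l) :=
    Just.append (h1.just hm []) (by simpa [stripB] using j)
  exact deriv_cutAt (deriv_app hm Deriv.nil hJ) (mem_app.2 (Or.inr m))

theorem good_fst {A : Fm} {l : List (Nm × Fm)} (h : Good A l) {e : Nm × Fm} (he : e ∈ l) :
    e.1 ∉ A.vars := by
  induction l with
  | nil => simp at he
  | cons e' l ih =>
    rcases List.mem_cons.1 he with rfl | he'
    · exact h.2.1
    · exact ih h.2.2.2 he'

/-- The restricted padded formula of an extended Frege proof. -/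
theorem restrict_pad {A : Fm} {π : List Fm} (h : ExtProof F A π) :
    (padX (lenB π) A (extL A π)).subst (cst (rT (extL A π)) (rF (lenB π) (extL A π))) =
      padF A (extL A π) := by
  obtain ⟨h1, h2⟩ := h
  have hA : A ∈ π := List.mem_of_getLast? h2
  obtain ⟨c1, c2, c3⟩ := collect h1
  set l := extL A π with hl
  have hlen : ∀ e ∈ l, e.1.length < lenB π := fun e he =>
    lenB_spec (c3 e he) (by simp [eAx, Fm.iff, Fm.vars])
  rw [padX_subst]
  · congr 1
    apply Fm.subst_eq_self
    intro x hx
    have hx1 : x ∉ rT l := by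
      intro hh
      obtain ⟨e, he, rfl⟩ := List.mem_map.1 hh
      exact good_fst c2 he hx
    have hx2 : x ∉ rF (lenB π) l := by
      intro hh
      obtain ⟨e, he, h3⟩ := List.mem_map.1 hh
      have h4 := lenB_spec hA hx
      rw [← h3, nf_length] at h4
      omega
    unfold cst
    rw [if_neg hx1, if_neg hx2]
  · intro e he
    have m1 : e.1 ∈ rT l := List.mem_map_of_mem (f := fun e : Nm × Fm => e.1) he
    have m2 : nf (lenB π) e.1 ∈ rF (lenB π) l :=
      List.mem_map_of_mem (f := fun e : Nm × Fm => nf (lenB π) e.1) he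
    have m3 : nf (lenB π) e.1 ∉ rT l := by
      intro hh
      obtain ⟨e', he', h3⟩ := List.mem_map.1 hh
      have h4 := hlen e' he'
      have h5 := congrArg List.length h3
      rw [nf_length] at h5
      omega
    constructor
    · unfold cst; rw [if_pos m1]
    · unfold cst; rw [if_neg m3, if_pos m2]

end alg

end Pool.Agent.H.MP_0447ec_lc.PS
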