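import Pool.Agent.H.MP_0447ec_lc.PS.PolyFm
import Pool.Agent.H.MP_0447ec_lc.PS.Alg

/-!
# The transformations are computable in polynomial time
-/

namespace Pool.Agent.H.MP_0447ec_lc.PS

open Pool.Agent.H.MP_0447ec_lc.PT

section sizes

theorem sz_le_of_mem_subs {A G : Fm} (h : G ∈ subs A) : sz G ≤ sz A := by
  induction A with
  | var w => simp only [subs, List.mem_singleton] at h; subst h; exact le_rfl
  | neg A ih =>
    simp only [subs, List.mem_cons] at h
    rcases h with h | h
    · subst h; exact le_rfl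
    · have := ih h; rw [sz_neg]; omega
  | and A B ih1 ih2 =>
    simp only [subs, List.mem_cons, List.mem_append] at h
    rcases h with h | h | h
    · subst h; exact le_rfl
    · have := ih1 h; rw [sz_and]; omega
    · have := ih2 h; rw [sz_and]; omega
  | or A B ih1 ih2 =>
    simp only [subs, List.mem_cons, List.mem_append] at h
    rcases h with h | h | h
    · subst h; exact le_rfl
    · have := ih1 h; rw [sz_or]; omega
    · have := ih2 h; rw [sz_or]; omega
  | imp A B ih1 ih2 =>
    simp only [subs, List.mem_cons, List.mem_append] at h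
    rcases h with h | h | h
    · subst h; exact le_rfl
    · have := ih1 h; rw [sz_imp]; omega
    · have := ih2 h; rw [sz_imp]; omega

theorem length_subs_le (A : Fm) : (subs A).length ≤ sz A := by
  induction A with
  | var w => rw [sz_var]; simp [subs]
  | neg A ih => rw [sz_neg]; simp only [subs, List.length_cons]; omega
  | and A B ih1 ih2 =>
    rw [sz_and]; simp only [subs, List.length_cons, List.length_append]; omega
  | or A B ih1 ih2 =>
    rw [sz_or]; simp only [subs, List.length_cons, List.length_append]; omega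
  | imp A B ih1 ih2 =>
    rw [sz_imp]; simp only [subs, List.length_cons, List.length_append]; omega

theorem sz_subs_le (A : Fm) : sz (subs A) ≤ sz A * (sz A + 1) + 1 := by
  refine (sz_le_of_forall _ (sz A) (fun G hG => sz_le_of_mem_subs hG)).trans ?_
  have := Nat.mul_le_mul_right (sz A + 1) (length_subs_le A)
  omega

theorem sz_nms_le (A : Fm) : sz (nms A) ≤ sz A := by
  induction A with
  | var w => rw [sz_var]; simp only [nms, sz_lcons, sz_lnil]; omega
  | neg A ih => rw [sz_neg]; simp only [nms]; omega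
  | and A B ih1 ih2 =>
    rw [sz_and]; simp only [nms]
    have := sz_append (nms A) (nms B); omega
  | or A B ih1 ih2 =>
    rw [sz_or]; simp only [nms]
    have := sz_append (nms A) (nms B); omega
  | imp A B ih1 ih2 =>
    rw [sz_imp]; simp only [nms]
    have := sz_append (nms A) (nms B); omega

theorem sz_cst (T U : List Nm) (w : Nm) : sz (cst T U w) ≤ 28 * sz (Fm.var w) := by
  have h1 : sz tt = 21 := by rw [tt, sz_imp, sz_var, sz_lnil]
  have h2 : sz ff = 27 := by
    rw [ff, sz_neg, sz_imp, sz_var, sz_lnil]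
  have h3 := sz_pos (Fm.var w)
  unfold cst
  split_ifs
  · omega
  · omega
  · omega

theorem sz_subst_cst (T U : List Nm) (A : Fm) : sz (A.subst (cst T U)) ≤ 28 * sz A := by
  induction A with
  | var w => exact sz_cst T U w
  | neg A ih => rw [Fm.subst, sz_neg, sz_neg]; omega
  | and A B ih1 ih2 => rw [Fm.subst, sz_and, sz_and]; omega
  | or A B ih1 ih2 => rw [Fm.subst, sz_or, sz_or]; omega
  | imp A B ih1 ih2 => rw [Fm.subst, sz_imp, sz_imp]; omega

end sizes

section

variable {α β γ : Type} [Enc α] [Enc β] [Enc γ]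

@[fun_prop]
theorem Poly.nms {G : α → Fm} (hG : Poly G) : Poly (fun a => nms (G a)) := by
  have e : ∀ A : Fm, fmFold (fun w => [w]) (fun l => l) (fun _ l l' => l ++ l') A =
      PS.nms A := by
    intro A
    induction A with
    | var w => rfl
    | neg A ih => simpa [fmFold, PS.nms] using ih
    | and A B ih1 ih2 => simp [fmFold, PS.nms, ih1, ih2]
    | or A B ih1 ih2 => simp [fmFold, PS.nms, ih1, ih2]
    | imp A B ih1 ih2 => simp [fmFold, PS.nms, ih1, ih2]
  have key := Poly.ofFold (gv := fun _ w => [w]) (gn := fun _ l => l)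
    (g2 := fun _ _ l l' => l ++ l') (B := fun a => sz (G a)) hG (by fun_prop) (by fun_prop)
    (by fun_prop) hG.sz_le (by
      intro a A hA
      rw [e]
      exact (sz_nms_le A).trans (sz_le_of_mem_subs hA))
  simpa [e] using key

/-- The binary connective with a given tag. -/
def conn (n : ℕ) (A B : Fm) : Fm :=
  if n = 2 then Fm.and A B else if n = 3 then Fm.or A B else Fm.imp A B

theorem conn_two (A B : Fm) : conn 2 A B = Fm.and A B := rfl
theorem conn_three (A B : Fm) : conn 3 A B = Fm.or A B := rfl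
theorem conn_four (A B : Fm) : conn 4 A B = Fm.imp A B := rfl

@[fun_prop]
theorem Poly.conn {n : α → ℕ} {G H : α → Fm} (hn : Poly n) (hG : Poly G) (hH : Poly H) :
    Poly (fun a => conn (n a) (G a) (H a)) := by
  unfold PS.conn
  fun_prop

@[fun_prop]
theorem Poly.subs {G : α → Fm} (hG : Poly G) : Poly (fun a => subs (G a)) := by
  have e : ∀ A : Fm, fmFold (fun w => (Fm.var w, [Fm.var w]))
      (fun p => (Fm.neg p.1, Fm.neg p.1 :: p.2))
      (fun n p q => (PS.conn n p.1 q.1, PS.conn n p.1 q.1 :: (p.2 ++ q.2))) A =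
      (A, PS.subs A) := by
    intro A
    induction A with
    | var w => rfl
    | neg A ih => simp [fmFold, PS.subs, ih]
    | and A B ih1 ih2 => simp [fmFold, PS.subs, conn_two, conn_three, conn_four, ih1, ih2]
    | or A B ih1 ih2 => simp [fmFold, PS.subs, conn_two, conn_three, conn_four, ih1, ih2]
    | imp A B ih1 ih2 => simp [fmFold, PS.subs, conn_two, conn_three, conn_four, ih1, ih2]
  have key := Poly.ofFold (gv := fun _ w => (Fm.var w, [Fm.var w]))
    (gn := fun _ p => (Fm.neg p.1, Fm.neg p.1 :: p.2))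
    (g2 := fun _ n p q => (PS.conn n p.1 q.1, PS.conn n p.1 q.1 :: (p.2 ++ q.2)))
    (B := fun a => sz (G a) + (sz (G a) * (sz (G a) + 1) + 1) + 1) hG (by fun_prop)
    (by fun_prop)
    (by fun_prop)
    ((hG.sz_le.add ((hG.sz_le.mul (hG.sz_le.add (PBdd.const 1))).add (PBdd.const 1))).add
      (PBdd.const 1)) (by
      intro a A hA
      rw [e, sz_pair]
      have h1 := sz_subs_le A
      have h2 := sz_le_of_mem_subs hA
      have h3 : sz A * (sz A + 1) ≤ sz (G a) * (sz (G a) + 1) := by gcongr
      omega)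
  have := Poly.comp Poly.snd key
  simpa [e] using this

@[fun_prop]
theorem Poly.cst {T U : α → List Nm} {w : α → Nm} (hT : Poly T) (hU : Poly U) (hw : Poly w) :
    Poly (fun a => cst (T a) (U a) (w a)) := by
  unfold PS.cst
  fun_prop

@[fun_prop]
theorem Poly.substCst {T U : α → List Nm} {G : α → Fm} (hT : Poly T) (hU : Poly U)
    (hG : Poly G) : Poly (fun a => (G a).subst (PS.cst (T a) (U a))) := by
  have e : ∀ (T U : List Nm) (A : Fm), fmFold (fun w => PS.cst T U w)
      (fun A => Fm.neg A) (fun n A B => PS.conn n A B) A = A.subst (PS.cst T U) := by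
    intro T U A
    induction A with
    | var w => rfl
    | neg A ih => simp [fmFold, Fm.subst, ih]
    | and A B ih1 ih2 => simp [fmFold, Fm.subst, conn_two, conn_three, conn_four, ih1, ih2]
    | or A B ih1 ih2 => simp [fmFold, Fm.subst, conn_two, conn_three, conn_four, ih1, ih2]
    | imp A B ih1 ih2 => simp [fmFold, Fm.subst, conn_two, conn_three, conn_four, ih1, ih2]
  have key := Poly.ofFold (gv := fun a w => PS.cst (T a) (U a) w)
    (gn := fun _ A => Fm.neg A)
    (g2 := fun _ n A B => PS.conn n A B)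
    (B := fun a => 28 * sz (G a)) hG (by fun_prop) (by fun_prop) (by fun_prop)
    ((PBdd.const 28).mul hG.sz_le) (by
      intro a A hA
      rw [e]
      have h1 := sz_subst_cst (T a) (U a) A
      have h2 := sz_le_of_mem_subs hA
      omega)
  simpa [e] using key

/-! ### Constant formulas under a computable substitution -/

theorem Poly.substConst {s : α → Nm → Fm} (P : Fm) (hs : ∀ x, Poly (fun a => s a x)) :
    Poly (fun a => P.subst (s a)) := by
  induction P with
  | var w => exact hs w
  | neg A ih => simp only [Fm.subst]; fun_prop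
  | and A B ih1 ih2 => simp only [Fm.subst]; fun_prop
  | or A B ih1 ih2 => simp only [Fm.subst]; fun_prop
  | imp A B ih1 ih2 => simp only [Fm.subst]; fun_prop

theorem Poly.inst {s : α → Nm → Fm} (D : List Fm) (hs : ∀ x, Poly (fun a => s a x)) :
    Poly (fun a => inst D (s a)) := by
  unfold PS.inst
  induction D with
  | nil => simp only [List.map_nil]; fun_prop
  | cons P D ih =>
    simp only [List.map_cons]
    exact Poly.lcons (Poly.substConst P hs) ih

theorem Poly.allConst {δ : Type} (L : List δ) {g : α → δ → Bool} (hg : ∀ x, Poly (fun a => g a x)) :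
    Poly (fun a => L.all (g a)) := by
  induction L with
  | nil => simp only [List.all_nil]; fun_prop
  | cons x L ih =>
    simp only [List.all_cons]
    exact Poly.and (hg x) ih

theorem Poly.flatMapConst {δ : Type} (L : List δ) {g : α → δ → List β}
    (hg : ∀ x, Poly (fun a => g a x)) : Poly (fun a => L.flatMap (g a)) := by
  induction L with
  | nil => simp only [List.flatMap_nil]; fun_prop
  | cons x L ih =>
    simp only [List.flatMap_cons]
    exact Poly.append (hg x) ih

theorem Poly.s3 {X Y Z : α → Fm} (hX : Poly X) (hY : Poly Y) (hZ : Poly Z) (w : Nm) :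
    Poly (fun a => s3 (X a) (Y a) (Z a) w) := by
  rcases w with _ | ⟨_, _ | ⟨_, _ | ⟨_, _⟩⟩⟩
  · exact hX
  · exact hY
  · exact hZ
  · exact hX

theorem Poly.s5 {X Y Z U V : α → Fm} (hX : Poly X) (hY : Poly Y) (hZ : Poly Z) (hU : Poly U)
    (hV : Poly V) (w : Nm) : Poly (fun a => s5 (X a) (Y a) (Z a) (U a) (V a) w) := by
  rcases w with _ | ⟨_, _ | ⟨_, _ | ⟨_, _ | ⟨_, _ | ⟨_, _⟩⟩⟩⟩⟩
  · exact hX
  · exact hY
  · exact hZ
  · exact hU
  · exact hV
  · exact hX

theorem Poly.lsubId (xs : List Nm) (y : Nm) : Poly (fun vals : List Fm => PS.lsub xs vals y) := by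
  induction xs with
  | nil => simp only [PS.lsub]; fun_prop
  | cons x xs ih =>
    have h1 := Poly.lcase (α := List Fm) (l := fun vals => vals) (f := fun _ => Fm.var y)
        (g := fun _ v vs => if y = x then v else PS.lsub xs vs y) (by fun_prop) (by fun_prop) (by
      by_cases h : y = x
      · simp only [h, if_true]; fun_prop
      · simp only [h, if_false]
        exact Poly.comp (f := fun vals : List Fm => PS.lsub xs vals y)
          (g := fun p : List Fm × Fm × List Fm => p.2.2) ih (by fun_prop))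
    refine (show (fun vals : List Fm => PS.lsub (x :: xs) vals y) = _ from ?_) ▸ h1
    funext vals
    cases vals <;> rfl

theorem Poly.lsub {vals : α → List Fm} (hv : Poly vals) (xs : List Nm) (y : Nm) :
    Poly (fun a => PS.lsub xs (vals a) y) :=
  Poly.comp (f := fun vals : List Fm => PS.lsub xs vals y) (g := vals) (Poly.lsubId xs y) hv

theorem Poly.hypSub {H : α → Fm} {s : α → Nm → Fm} (hH : Poly H)
    (hs' : ∀ x, Poly (fun a => s a x)) (w : Nm) : Poly (fun a => hs (H a) (s a) w) := by
  cases w with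
  | nil => exact hH
  | cons b w => exact hs' w

theorem Poly.assigns {c : α → List Fm} (hc : Poly c) (n : ℕ) :
    Poly (fun a => assigns n (c a)) := by
  induction n with
  | zero => simp only [PS.assigns]; fun_prop
  | succ n ih =>
    simp only [PS.assigns]
    have ih' : Poly (fun p : α × Fm => PS.assigns n (c p.1)) :=
      Poly.comp (f := fun a => PS.assigns n (c a)) (g := fun p : α × Fm => p.1) ih Poly.fst
    have h1 : Poly (fun p : α × Fm => (PS.assigns n (c p.1)).map (fun vs => p.2 :: vs)) :=
      PT.Poly.map (f := fun (p : α × Fm) (vs : List Fm) => p.2 :: vs)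
        (l := fun p : α × Fm => PS.assigns n (c p.1)) (by fun_prop) ih'
    exact PT.Poly.flatMap (f := fun a v => (PS.assigns n (c a)).map (fun vs => v :: vs))
      (l := c) h1 hc

/-! ### Splittings -/

/-- One step in the computation of the splittings. -/
def spStep (s : List β × List β × List (List β × β × List β)) (e : β) :
    List β × List β × List (List β × β × List β) :=
  (s.1 ++ [e], s.2.1.tail, s.2.2 ++ [(s.1, e, s.2.1.tail)])

omit [Enc β] in
theorem spStep_eq : ∀ (l pre : List β) (acc : List (List β × β × List β)),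
    l.foldl spStep (pre, l, acc) = (pre ++ l, [], acc ++ sp pre l) := by
  intro l
  induction l with
  | nil => intro pre acc; simp [sp]
  | cons e l ih =>
    intro pre acc
    rw [List.foldl_cons]
    have h : spStep (pre, e :: l, acc) e = (pre ++ [e], l, acc ++ [(pre, e, l)]) := rfl
    rw [h, ih]
    simp [sp]

theorem spStep_sz (K : ℕ) : ∀ (l₁ l₂ pre : List β) (acc : List (List β × β × List β)),
    sz (pre ++ (l₁ ++ l₂)) ≤ K →
    sz (l₁.foldl spStep (pre, l₁ ++ l₂, acc)) ≤ 2 * K + 2 + sz acc + l₁.length * (3 * K + 3) := by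
  intro l₁
  induction l₁ with
  | nil =>
    intro l₂ pre acc h
    simp only [List.foldl_nil, List.nil_append, List.length_nil, zero_mul, add_zero]
    rw [sz_pair, sz_pair]
    have h1 := sz_append pre l₂
    simp only [List.nil_append] at h
    have h2 := sz_pos pre
    have h3 := sz_pos l₂
    omega
  | cons e l₁ ih =>
    intro l₂ pre acc h
    rw [List.foldl_cons]
    have h' : spStep (pre, (e :: l₁) ++ l₂, acc) e =
      (pre ++ [e], l₁ ++ l₂, acc ++ [(pre, e, l₁ ++ l₂)]) := rfl
    rw [h']
    have h2 : sz ((pre ++ [e]) ++ (l₁ ++ l₂)) ≤ K := by simpa using h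
    have key := ih l₂ (pre ++ [e]) (acc ++ [(pre, e, l₁ ++ l₂)]) h2
    have h3 := sz_append acc [(pre, e, l₁ ++ l₂)]
    have h4 := sz_append pre ((e :: l₁) ++ l₂)
    have h5 : sz ((e :: l₁) ++ l₂) = sz e + sz (l₁ ++ l₂) + 1 := rfl
    rw [sz_lcons, sz_lnil, sz_pair, sz_pair] at h3
    have h6 := sz_pos pre
    have h7 := sz_pos (l₁ ++ l₂)
    have h8 := sz_pos e
    rw [List.length_cons, Nat.add_mul]
    omega

@[fun_prop]
theorem Poly.sp {l : α → List β} (hl : Poly l) : Poly (fun a => sp [] (l a)) := by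
  have key := Poly.foldl (f := fun p : α × (List β × List β × List (List β × β × List β)) × β =>
      spStep p.2.1 p.2.2) (l := l) (s0 := fun a => ([], l a, []))
    (B := fun a => 2 * sz (l a) + 2 + 1 + sz (l a) * (3 * sz (l a) + 3))
    (by unfold spStep; fun_prop) hl (by fun_prop)
    (((((PBdd.const 2).mul hl.sz_le).add (PBdd.const 2)).add (PBdd.const 1)).add
      (hl.sz_le.mul (((PBdd.const 3).mul hl.sz_le).add (PBdd.const 3)))) (by
      intro a l₁ l₂ h
      simp only
      have h1 := spStep_sz (sz (l a)) l₁ l₂ [] [] (by rw [h]; simp)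
      rw [← h] at h1
      refine h1.trans ?_
      have h2 : l₁.length ≤ sz (l a) := by
        have := length_lt_sz (l a)
        rw [h] at this ⊢
        simp only [List.length_append] at this
        omega
      have h3 := Nat.mul_le_mul_right (3 * sz (l a) + 3) h2
      rw [sz_lnil]
      omega)
  have h2 : Poly (fun a => ((l a).foldl spStep ([], l a, [])).2.2) :=
    Poly.comp (f := fun q : List β × List β × List (List β × β × List β) => q.2.2)
      (g := fun a => (l a).foldl spStep ([], l a, [])) (by fun_prop) key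
  simpa [spStep_eq] using h2

@[fun_prop]
theorem Poly.splits {l : α → List Fm} (hl : Poly l) : Poly (fun a => splits (l a)) := by
  unfold PS.splits
  fun_prop

/-! ### Extension axioms -/

@[fun_prop]
theorem Poly.eAx {e : α → Nm × Fm} (he : Poly e) : Poly (fun a => eAx (e a)) := by
  unfold PS.eAx
  fun_prop

theorem sz_eAx (e : Nm × Fm) : sz (eAx e) ≤ 14 * sz e := by
  rw [eAx, sz_iff, sz_var, sz_prod]
  have h1 := sz_pos e.1
  have h2 := sz_pos e.2
  omega

theorem sz_hyp (A : Fm) (l : List (Nm × Fm)) : sz (hyp A l) ≤ 2 * sz A + 11 + 17 * sz l := by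
  induction l with
  | nil => rw [hyp_nil, sz_imp]; omega
  | cons e l ih =>
    rw [hyp_cons, sz_and, sz_lcons]
    have := sz_eAx e
    have := sz_pos e
    omega

@[fun_prop]
theorem Poly.hyp {A : α → Fm} {l : α → List (Nm × Fm)} (hA : Poly A) (hl : Poly l) :
    Poly (fun a => hyp (A a) (l a)) := by
  unfold PS.hyp
  refine Poly.foldr (f := fun p : α × Fm × (Nm × Fm) => Fm.and (PS.eAx p.2.2) p.2.1)
    (s0 := fun a => Fm.imp (A a) (A a)) (B := fun a => 2 * sz (A a) + 11 + 17 * sz (l a))
    (by fun_prop) hl (by fun_prop)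
    ((((PBdd.const 2).mul hA.sz_le).add (PBdd.const 11)).add ((PBdd.const 17).mul hl.sz_le)) ?_
  intro a l₁ l₂ h
  have h1 := sz_hyp (A a) l₂
  have h2 : sz l₂ ≤ sz (l a) := by
    rw [h]; exact sz_sublist_le (List.sublist_append_right _ _)
  have h3 : l₂.foldr (fun b s => (fun p : α × Fm × (Nm × Fm) => Fm.and (PS.eAx p.2.2) p.2.1)
      (a, s, b)) (Fm.imp (A a) (A a)) = PS.hyp (A a) l₂ := rfl
  rw [h3]
  omega

@[fun_prop]
theorem Poly.freshB {A : α → Fm} {pre : α → List Fm} {q : α → Nm} {φ : α → Fm} (hA : Poly A)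
    (hp : Poly pre) (hq : Poly q) (hφ : Poly φ) :
    Poly (fun a => freshB (A a) (pre a) (q a) (φ a)) := by
  unfold PS.freshB
  fun_prop

@[fun_prop]
theorem Poly.extC {A : α → Fm} {pre : α → List Fm} {B : α → Fm} (hA : Poly A)
    (hp : Poly pre) (hB : Poly B) : Poly (fun a => extC (A a) (pre a) (B a)) := by
  unfold PS.extC
  fun_prop

@[fun_prop]
theorem Poly.isExt {A : α → Fm} {pre : α → List Fm} {B : α → Fm} (hA : Poly A)
    (hp : Poly pre) (hB : Poly B) : Poly (fun a => isExt (A a) (pre a) (B a)) := by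
  unfold PS.isExt
  fun_prop

@[fun_prop]
theorem Poly.extL {A : α → Fm} {π : α → List Fm} (hA : Poly A) (hp : Poly π) :
    Poly (fun a => extL (A a) (π a)) := by
  unfold PS.extL
  fun_prop

/-! ### The blocks -/

variable {F : List Rule} (k : Kit F)

theorem Poly.projOne {A H : α → Fm} {e : α → Nm × Fm} {t : α → List (Nm × Fm)} (hA : Poly A)
    (hH : Poly H) (he : Poly e) (ht : Poly t) :
    Poly (fun a => projOne k (A a) (H a) (e a) (t a)) := by
  unfold PS.projOne
  exact Poly.append (Poly.inst _ (Poly.s3 hH (by fun_prop) (by fun_prop)))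
    (Poly.inst _ (Poly.s3 hH (by fun_prop) (by fun_prop)))

theorem Poly.projB {A H : α → Fm} {l : α → List (Nm × Fm)} (hA : Poly A) (hH : Poly H)
    (hl : Poly l) : Poly (fun a => projB k (A a) (H a) (l a)) := by
  unfold PS.projB
  refine Poly.append (Poly.inst _ (Poly.s3 hH hH hH)) (Poly.flatMap ?_ (by fun_prop))
  exact Poly.projOne k (A := fun p : α × (List (Nm × Fm) × (Nm × Fm) × List (Nm × Fm)) => A p.1)
    (by fun_prop) (by fun_prop) (by fun_prop) (by fun_prop)

theorem Poly.dedRule (t : Rule × List Nm × List Fm) {H B : α → Fm} {c pre : α → List Fm}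
    (hH : Poly H) (hc : Poly c) (hp : Poly pre) (hB : Poly B) :
    Poly (fun a => dedRule t (H a) (c a) (pre a) (B a)) := by
  unfold PS.dedRule
  refine Poly.flatMap ?_ (Poly.assigns hc _)
  have hls : ∀ P : Fm, Poly (fun p : α × List Fm => P.subst (PS.lsub t.2.1 p.2)) := by
    intro P
    exact Poly.substConst (s := fun p : α × List Fm => PS.lsub t.2.1 p.2) P
      (fun x => Poly.lsub (vals := fun p : α × List Fm => p.2) (by fun_prop) _ _)
  refine Poly.ifb (Poly.and (Poly.allConst _ ?_) ?_) (Poly.inst _ ?_) (by fun_prop)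
  · intro P
    have := hls P
    exact Poly.decMem (hls P) (by fun_prop)
  · exact Poly.decEq (hls _) (by fun_prop)
  · intro x
    exact Poly.hypSub (H := fun p : α × List Fm => H p.1)
      (s := fun p : α × List Fm => PS.lsub t.2.1 p.2) (by fun_prop)
      (fun y => Poly.lsub (vals := fun p : α × List Fm => p.2) (by fun_prop) _ _) x

theorem Poly.dedB {H : α → Fm} {c π : α → List Fm} (hH : Poly H) (hc : Poly c) (hp : Poly π) :
    Poly (fun a => dedB k (H a) (c a) (π a)) := by
  unfold PS.dedB
  refine Poly.flatMap ?_ (by fun_prop)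
  refine Poly.flatMapConst _ ?_
  intro t
  exact Poly.dedRule t (by fun_prop) (by fun_prop) (by fun_prop) (by fun_prop)

@[fun_prop]
theorem Poly.replicateTrue {L : α → ℕ} (hL : Poly L) :
    Poly (fun a => List.replicate (L a) true) := by
  have : Poly (fun a => (List.replicate (L a) ()).map (fun _ => true)) := by fun_prop
  simpa using this

@[fun_prop]
theorem Poly.nf {L : α → ℕ} {q : α → Nm} (hL : Poly L) (hq : Poly q) :
    Poly (fun a => nf (L a) (q a)) := by
  unfold PS.nf
  fun_prop

theorem sz_nf (L : ℕ) (q : Nm) : sz (nf L q) = sz q + 4 * L := by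
  induction q with
  | nil =>
    unfold nf
    rw [List.nil_append]
    induction L with
    | zero => simp
    | succ L ih => rw [List.replicate_succ, sz_lcons, ih]; simp; ring
  | cons b q ih =>
    have : nf L (b :: q) = b :: nf L q := rfl
    rw [this, sz_lcons, sz_lcons, ih]
    ring

theorem sz_padX (L : ℕ) (X : Fm) (l : List (Nm × Fm)) :
    sz (padX L X l) ≤ sz X + 60 * sz l + l.length * (8 * L) := by
  induction l using List.reverseRecOn with
  | nil => simp only [padX, List.foldl_nil]; omega
  | append_singleton l e ih =>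
    rw [padX_snoc, sz_or, sz_iff, sz_var, sz_var, sz_nf, List.length_append,
      List.length_singleton, Nat.add_mul]
    have h1 := sz_append l [e]
    rw [sz_lcons, sz_lnil, sz_prod] at h1
    have h2 := sz_pos e.2
    have h3 := sz_pos e.1
    omega

@[fun_prop]
theorem Poly.padX {L : α → ℕ} {X : α → Fm} {l : α → List (Nm × Fm)} (hL : Poly L)
    (hX : Poly X) (hl : Poly l) : Poly (fun a => padX (L a) (X a) (l a)) := by
  unfold PS.padX
  refine Poly.foldl (f := fun p : α × Fm × (Nm × Fm) =>
      Fm.or (Fm.iff (Fm.var p.2.2.1) (Fm.var (PS.nf (L p.1) p.2.2.1))) p.2.1)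
    (s0 := X) (B := fun a => sz (X a) + 60 * sz (l a) + sz (l a) * (8 * sz (L a)))
    (by fun_prop) hl hX
    ((hX.sz_le.add ((PBdd.const 60).mul hl.sz_le)).add
      (hl.sz_le.mul ((PBdd.const 8).mul hL.sz_le))) ?_
  intro a l₁ l₂ h
  have h1 := sz_padX (L a) (X a) l₁
  have h2 : sz l₁ ≤ sz (l a) := by
    rw [h]; exact sz_sublist_le (List.sublist_append_left _ _)
  have h3 : l₁.foldl (fun s b => (fun p : α × Fm × (Nm × Fm) =>
      Fm.or (Fm.iff (Fm.var p.2.2.1) (Fm.var (PS.nf (L p.1) p.2.2.1))) p.2.1) (a, s, b)) (X a) =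
      PS.padX (L a) (X a) l₁ := rfl
  rw [h3]
  have h4 := length_lt_sz l₁
  have h5 : L a ≤ sz (L a) := by rw [sz_nat]; omega
  have h6 : l₁.length * (8 * L a) ≤ sz (l a) * (8 * sz (L a)) := by
    apply Nat.mul_le_mul <;> omega
  omega

theorem Poly.elimOne {A X : α → Fm} {L : α → ℕ} {e : α → Nm × Fm} {t : α → List (Nm × Fm)}
    (hA : Poly A) (hL : Poly L) (hX : Poly X) (he : Poly e) (ht : Poly t) :
    Poly (fun a => elimOne k (A a) (L a) (X a) (e a) (t a)) := by
  unfold PS.elimOne
  refine Poly.append (Poly.inst _ (Poly.s3 (by fun_prop) (by fun_prop) (by fun_prop)))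
    (Poly.lcons (by fun_prop) (Poly.inst _ (Poly.s5 (by fun_prop) (by fun_prop) (by fun_prop)
      (by fun_prop) (by fun_prop))))

theorem Poly.elimB {A : α → Fm} {L : α → ℕ} {l : α → List (Nm × Fm)}
    (hA : Poly A) (hL : Poly L) (hl : Poly l) :
    Poly (fun a => elimB k (A a) (L a) (l a)) := by
  unfold PS.elimB
  refine Poly.append (Poly.flatMap ?_ (by fun_prop))
    (Poly.inst _ (Poly.s3 (by fun_prop) (by fun_prop) (by fun_prop)))
  exact Poly.elimOne k
    (A := fun p : α × (List (Nm × Fm) × (Nm × Fm) × List (Nm × Fm)) => A p.1)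
    (by fun_prop) (by fun_prop) (by fun_prop) (by fun_prop) (by fun_prop)

theorem sz_app : ∀ (σ π : List Fm), sz (app π σ) + 1 ≤ sz π + sz σ := by
  intro σ
  induction σ with
  | nil => intro π; simp [app]
  | cons C σ ih =>
    intro π
    have h1 : app π (C :: σ) = app (if C ∈ π then π else π ++ [C]) σ := rfl
    rw [h1]
    have h2 := ih (if C ∈ π then π else π ++ [C])
    have h3 : sz (if C ∈ π then π else π ++ [C]) ≤ sz π + sz C + 1 := by
      split_ifs
      · omega
      · have := sz_append π [C]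
        rw [sz_lcons, sz_lnil] at this
        omega
    rw [sz_lcons]
    omega

@[fun_prop]
theorem Poly.app {π σ : α → List Fm} (hp : Poly π) (hs : Poly σ) :
    Poly (fun a => app (π a) (σ a)) := by
  unfold PS.app
  refine Poly.foldl (f := fun p : α × List Fm × Fm =>
      if p.2.2 ∈ p.2.1 then p.2.1 else p.2.1 ++ [p.2.2])
    (s0 := π) (B := fun a => sz (π a) + sz (σ a)) (by fun_prop) hs hp
    (hp.sz_le.add hs.sz_le) ?_
  intro a l₁ l₂ h
  have h1 := sz_app l₁ (π a)
  have h2 : sz l₁ ≤ sz (σ a) := by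
    rw [h]; exact sz_sublist_le (List.sublist_append_left _ _)
  have h3 : l₁.foldl (fun s b => (fun p : α × List Fm × Fm =>
      if p.2.2 ∈ p.2.1 then p.2.1 else p.2.1 ++ [p.2.2]) (a, s, b)) (π a) =
      PS.app (π a) l₁ := rfl
  rw [h3]
  omega

@[fun_prop]
theorem Poly.cutAt {B : α → Fm} {π : α → List Fm} (hB : Poly B) (hp : Poly π) :
    Poly (fun a => cutAt (B a) (π a)) := by
  unfold PS.cutAt
  refine Poly.append (Poly.takeWhile ?_ hp) (by fun_prop)
  fun_prop

@[fun_prop]
theorem Poly.lastF {π : α → List Fm} (hp : Poly π) : Poly (fun a => lastF (π a)) := by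
  unfold PS.lastF
  fun_prop

@[fun_prop]
theorem Poly.lenB {π : α → List Fm} (hp : Poly π) : Poly (fun a => lenB (π a)) := by
  unfold PS.lenB
  fun_prop

theorem Poly.T1 {π : α → List Fm} (hp : Poly π) : Poly (fun a => T1 k (π a)) := by
  unfold PS.T1
  refine Poly.cutAt (by fun_prop) (Poly.app (by fun_prop) (Poly.append (Poly.append ?_ ?_) ?_))
  · exact Poly.projB k (by fun_prop) (by fun_prop) (by fun_prop)
  · exact Poly.dedB k (by fun_prop) (by fun_prop) hp
  · exact Poly.elimB k (by fun_prop) (by fun_prop) (by fun_prop)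

@[fun_prop]
theorem Poly.rT {l : α → List (Nm × Fm)} (hl : Poly l) : Poly (fun a => rT (l a)) := by
  unfold PS.rT
  fun_prop

@[fun_prop]
theorem Poly.rF {L : α → ℕ} {l : α → List (Nm × Fm)} (hL : Poly L) (hl : Poly l) :
    Poly (fun a => rF (L a) (l a)) := by
  unfold PS.rF
  fun_prop

theorem sz_padF (X : Fm) (l : List (Nm × Fm)) : sz (padF X l) = sz X + 134 * l.length := by
  induction l with
  | nil => simp [padF]
  | cons e l ih =>
    have h1 : sz tt = 21 := by rw [tt, sz_imp, sz_var, sz_lnil]
    have h2 : sz ff = 27 := by rw [ff, sz_neg, sz_imp, sz_var, sz_lnil]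
    rw [padF_cons, sz_or, sz_iff, h1, h2, ih, List.length_cons]
    ring

@[fun_prop]
theorem Poly.padF {X : α → Fm} {l : α → List (Nm × Fm)}
    (hX : Poly X) (hl : Poly l) : Poly (fun a => padF (X a) (l a)) := by
  unfold PS.padF
  refine Poly.foldl (f := fun p : α × Fm × (Nm × Fm) =>
      Fm.or (Fm.iff tt ff) p.2.1)
    (s0 := X) (B := fun a => sz (X a) + 134 * sz (l a)) (by fun_prop) hl hX
    (hX.sz_le.add ((PBdd.const 134).mul hl.sz_le)) ?_
  intro a l₁ l₂ h
  have h1 := sz_padF (X a) l₁
  have h2 : sz l₁ ≤ sz (l a) := by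
    rw [h]; exact sz_sublist_le (List.sublist_append_left _ _)
  have h3 : l₁.foldl (fun s b => (fun p : α × Fm × (Nm × Fm) =>
      Fm.or (Fm.iff tt ff) p.2.1) (a, s, b)) (X a) = PS.padF (X a) l₁ := rfl
  rw [h3]
  have h4 := length_lt_sz l₁
  omega

theorem Poly.stripB {A : α → Fm} {l : α → List (Nm × Fm)} (hA : Poly A) (hl : Poly l) :
    Poly (fun a => stripB k (A a) (l a)) := by
  unfold PS.stripB
  refine Poly.flatMap (Poly.inst _ ?_) (by fun_prop)
  exact Poly.s3 (by fun_prop) (by fun_prop) (by fun_prop)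

theorem Poly.T3 {A : α → Fm} {l : α → List (Nm × Fm)} {τ : α → List Fm} (hA : Poly A)
    (hl : Poly l) (hτ : Poly τ) : Poly (fun a => T3 k (A a) (l a) (τ a)) := by
  unfold PS.T3
  refine Poly.cutAt hA (Poly.app (by fun_prop) (Poly.append hτ ?_))
  exact Poly.stripB k hA hl

end

end Pool.Agent.H.MP_0447ec_lc.PS
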