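import Pool.Agent.H.MP_0447ec_lc.PS.Sim2
import Pool.Agent.H.MP_0447ec_lc.PS.PolyAlg
import Pool.Agent.H.MP_0447ec_lc.PS.DefsR

/-!
# Extended Frege simulates Frege with the permutation rule: the transformation
-/

namespace Pool.Agent.H.MP_0447ec_lc.PS

open Fm Pool.Agent.H.MP_0447ec_lc.PT

/-- Removal of duplicates. -/
def dd (V : List Nm) : List Nm := V.foldr (fun t l => if t ∈ l then l else t :: l) []

theorem dd_cons (t : Nm) (V : List Nm) : dd (t :: V) = if t ∈ dd V then dd V else t :: dd V := rfl

theorem mem_dd {x : Nm} {V : List Nm} : x ∈ dd V ↔ x ∈ V := by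
  induction V generalizing x with
  | nil => exact Iff.rfl
  | cons t V ih =>
    rw [dd_cons]
    split_ifs with h
    · rw [ih] at h
      rw [ih, List.mem_cons]
      constructor
      · exact Or.inr
      · rintro (rfl | h1)
        · exact h
        · exact h1
    · rw [List.mem_cons, List.mem_cons, ih]

theorem nodup_dd : ∀ (V : List Nm), (dd V).Nodup := by
  intro V
  induction V with
  | nil => exact List.nodup_nil
  | cons t V ih =>
    rw [dd_cons]
    split_ifs with h
    · exact ih
    · exact List.nodup_cons.2 ⟨h, ih⟩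

theorem dd_sublist : ∀ (V : List Nm), (dd V).Sublist V := by
  intro V
  induction V with
  | nil => exact List.Sublist.slnil
  | cons t V ih =>
    rw [dd_cons]
    split_ifs with h
    · exact ih.cons t
    · exact ih.cons_cons t

theorem Just.map_subst {F : List Rule} (s : Nm → Fm) {σ : List Fm} : ∀ {π : List Fm},
    Just (RuleStep F) π σ → Just (RuleStep F) (π.map (Fm.subst s)) (σ.map (Fm.subst s)) := by
  induction σ with
  | nil => intro π _; trivial
  | cons C σ ih =>
    intro π h
    refine ⟨?_, ?_⟩
    · rcases h.1 with h1 | h1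
      · exact Or.inl (List.mem_map_of_mem h1)
      · exact Or.inr (ruleStep_subst h1 s)
    · have := ih h.2
      rwa [List.map_append] at this

theorem deriv_app' {F : List Rule} {step : List Fm → Fm → Prop}
    (hF : ∀ σ C, RuleStep F σ C → step σ C) {σ : List Fm} :
    ∀ {π : List Fm}, Deriv step π → Just (RuleStep F) π σ → Deriv step (app π σ) := by
  induction σ with
  | nil => intro π h _; exact h
  | cons B σ ih =>
    intro π h hj
    have h1 : app π (B :: σ) = app (if B ∈ π then π else π ++ [B]) σ := rfl
    rw [h1]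
    by_cases hB : B ∈ π
    · rw [if_pos hB]
      refine ih h (Just.mono (mono_ruleStep F) ?_ hj.2)
      intro C hC
      rcases List.mem_append.1 hC with hC | hC
      · exact hC
      · simp only [List.mem_singleton] at hC; subst hC; exact hB
    · rw [if_neg hB]
      refine ih (Deriv.snoc h ?_) hj.2
      rcases hj.1 with h2 | h2
      · exact absurd h2 hB
      · exact hF _ _ h2

section

variable {F : List Rule} (k : Kit2 F)

/-- The extended Frege proof obtained from a proof with the permutation rule, with a restriction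
applied to it. -/
def T0 (T U : List Nm) (L : ℕ) (π : List Fm) : List Fm :=
  cutAt ((lastF π).subst (cst T U))
    (app ((AxP (dd (π.flatMap nms)) L π).map (fun e => (eAx e).subst (cst T U)))
      ((blks k L (π.flatMap subs) π).map (fun B => B.subst (cst T U))))

theorem T0_spec {A : Fm} {π : List Fm} (h : PermProof F A π) {T U : List Nm} {L : ℕ}
    (hπ : ∀ C ∈ π, ∀ x ∈ C.vars, x.length < L) (hT : ∀ x ∈ T, x.length < L)
    (hU : ∀ x ∈ U, x.length < L) (A' : Fm) (hA' : ∀ x ∈ A'.vars, x.length < L) :
    Deriv (fun σ B => RuleStep F σ B ∨ ExtStep A' σ B) (T0 k T U L π) ∧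
      (T0 k T U L π).getLast? = some (A.subst (cst T U)) := by
  have hl : lastF π = A := lastF_eq h.2
  set V := dd (π.flatMap nms) with hV
  have hmV : ∀ C ∈ π, ∀ x ∈ C.vars, x ∈ V := fun C hC x hx =>
    mem_dd.2 (List.mem_flatMap.2 ⟨C, hC, mem_nms.2 hx⟩)
  have hVl : ∀ t ∈ V, t.length < L := by
    intro t ht
    obtain ⟨C, hC, hx⟩ := List.mem_flatMap.1 (mem_dd.1 ht)
    exact hπ C hC t (mem_nms.1 hx)
  obtain ⟨hGA, -⟩ := AxP_GA V (nodup_dd _) hVl π hπ
  have hcst : ∀ w x, x ∈ (cst T U w).vars → L < x.length → x = w := by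
    intro w x hx hL
    unfold cst at hx
    split_ifs at hx
    · simp [tt, Fm.vars] at hx; subst hx; simp at hL
    · simp [ff, Fm.vars] at hx; subst hx; simp at hL
    · exact hx
  have hcst' : ∀ w, L < w.length → cst T U w = var w := by
    intro w hw
    unfold cst
    rw [if_neg, if_neg]
    · intro h; have := hU w h; omega
    · intro h; have := hT w h; omega
  have h1 := GA.deriv (F := F) hA' (cst T U) hcst hcst' (AxP V L π) _ [] Deriv.nil
    (by intro C hC; simp at hC) hGA
  rw [List.nil_append] at h1
  obtain ⟨⟨pre, last, hpre⟩⟩ : Nonempty (Σ' (pre : List Fm) (last : Fm), π = pre ++ [last]) := by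
    rcases List.eq_nil_or_concat π with h2 | ⟨p, l, h2⟩
    · rw [h2] at h
      exact absurd h.2 (by simp)
    · exact ⟨⟨p, l, by rw [h2, List.concat_eq_append]⟩⟩
  have hlast : last = A := by
    have := h.2
    rw [hpre, List.getLast?_concat] at this
    exact Option.some.inj this
  subst hlast
  obtain ⟨j, m⟩ := blks_aux k (mono_ruleStep F) (fun _ _ h => h) V L (π.flatMap subs) π
    (fun B hB G hG => List.mem_flatMap.2 ⟨B, hB, hG⟩) hmV h.1 π []
    ((AxP V L π).map eAx) rfl (fun e he => List.mem_map_of_mem he)
    (by intro p B t hp; simp at hp)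
  have m1 := m pre last hpre
  have hblk : (sp [] π).flatMap (fun p => blk k L (π.flatMap subs) p.1 p.2.1 p.2.2) =
      blks k L (π.flatMap subs) π := rfl
  rw [hblk] at j m1
  have j2 := Just.map_subst (cst T U) j
  rw [List.map_map] at j2
  have h3 := deriv_app' (step := fun σ B => RuleStep F σ B ∨ ExtStep A' σ B)
    (fun _ _ h => Or.inl h) h1 j2
  have m2 : last.subst (cst T U) ∈ app ((AxP V L π).map (fun e => (eAx e).subst (cst T U)))
      ((blks k L (π.flatMap subs) π).map (Fm.subst (cst T U))) := by
    rw [mem_app]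
    rcases List.mem_append.1 m1 with h4 | h4
    · left
      obtain ⟨e, he, he2⟩ := List.mem_map.1 h4
      exact List.mem_map.2 ⟨e, he, by rw [he2]⟩
    · right
      exact List.mem_map_of_mem h4
  have h5 := deriv_cutAt h3 m2
  unfold T0
  rw [hl]
  exact h5

end

end Pool.Agent.H.MP_0447ec_lc.PS
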