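import Pool.Agent.H.MP_0447ec_lc.PS.Canon

/-!
# The canonical pairs of extended Frege and of Frege with the permutation rule: final theorems
-/

namespace Pool.Agent.H.MP_0447ec_lc.PS

open Pool.Agent.H.MP_0447ec_lc.PT

theorem sz_padN (L : ℕ) (X : Fm) (xs : List Nm) :
    sz (padN L X xs) ≤ sz X + 60 * sz xs + xs.length * (8 * L) := by
  induction xs using List.reverseRecOn with
  | nil => simp only [padN, List.foldl_nil]; omega
  | append_singleton xs x ih =>
    rw [padN_snoc, sz_or, sz_iff, sz_var, sz_var, sz_nf, List.length_append,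
      List.length_singleton, Nat.add_mul]
    have h1 := sz_append xs [x]
    rw [sz_lcons, sz_lnil] at h1
    omega

section

variable {α β γ : Type} [Enc α] [Enc β] [Enc γ]

@[fun_prop]
theorem Poly.cna {L r : α → ℕ} (hL : Poly L) (hr : Poly r) :
    Poly (fun a => cna (L a) (r a)) := by
  unfold PS.cna PS.cn
  fun_prop

@[fun_prop]
theorem Poly.padN {L : α → ℕ} {X : α → Fm} {xs : α → List Nm} (hL : Poly L)
    (hX : Poly X) (hx : Poly xs) : Poly (fun a => padN (L a) (X a) (xs a)) := by
  unfold PS.padN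
  refine Poly.foldl (f := fun p : α × Fm × Nm =>
      Fm.or (Fm.iff (Fm.var p.2.2) (Fm.var (PS.nf (L p.1) p.2.2))) p.2.1)
    (s0 := X) (B := fun a => sz (X a) + 60 * sz (xs a) + sz (xs a) * (8 * sz (L a)))
    (by fun_prop) hx hX
    ((hX.sz_le.add ((PBdd.const 60).mul hx.sz_le)).add
      (hx.sz_le.mul ((PBdd.const 8).mul hL.sz_le))) ?_
  intro a l₁ l₂ h
  have h1 := sz_padN (L a) (X a) l₁
  have h2 : sz l₁ ≤ sz (xs a) := by
    rw [h]; exact sz_sublist_le (List.sublist_append_left _ _)
  have h3 : l₁.foldl (fun s b => (fun p : α × Fm × Nm =>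
      Fm.or (Fm.iff (Fm.var p.2.2) (Fm.var (PS.nf (L p.1) p.2.2))) p.2.1) (a, s, b)) (X a) =
      PS.padN (L a) (X a) l₁ := rfl
  rw [h3]
  have h4 := length_lt_sz l₁
  have h5 : L a ≤ sz (L a) := by rw [sz_nat]; omega
  have h6 : l₁.length * (8 * L a) ≤ sz (xs a) * (8 * sz (L a)) := by
    apply Nat.mul_le_mul <;> omega
  omega

@[fun_prop]
theorem Poly.padC {N : α → ℕ} {A : α → Fm} (hN : Poly N) (hA : Poly A) :
    Poly (fun a => padC (N a) (A a)) := by
  unfold PS.padC
  fun_prop

@[fun_prop]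
theorem Poly.rnP {xs ys : α → List Nm} {l : α → List (Nm × Fm)} (hx : Poly xs) (hy : Poly ys)
    (hl : Poly l) : Poly (fun a => rnP (xs a) (ys a) (l a)) := by
  unfold PS.rnP
  fun_prop

variable {F : List Rule} (k : Kit F)

theorem Poly.T1g {A : α → Fm} {L : α → ℕ} {l : α → List (Nm × Fm)} {π : α → List Fm}
    (hA : Poly A) (hL : Poly L) (hl : Poly l) (hp : Poly π) :
    Poly (fun a => T1g k (A a) (L a) (l a) (π a)) := by
  unfold PS.T1g
  refine Poly.cutAt (by fun_prop) (Poly.app (by fun_prop) (Poly.append (Poly.append ?_ ?_) ?_))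
  · exact Poly.projB k (by fun_prop) (by fun_prop) (by fun_prop)
  · exact Poly.dedB k (by fun_prop) (by fun_prop) hp
  · exact Poly.elimB k (by fun_prop) (by fun_prop) (by fun_prop)

theorem Poly.weakB (Dw : List Fm) {A : α → Fm} {L : α → ℕ} {xs rest : α → List Nm}
    (hL : Poly L) (hA : Poly A) (hx : Poly xs) (hr : Poly rest) :
    Poly (fun a => weakB Dw (L a) (A a) (xs a) (rest a)) := by
  unfold PS.weakB
  refine PT.Poly.flatMap (f := fun a (p : List Nm × Nm × List Nm) =>
    PS.inst Dw (PS.s3 (PS.padN (L a) (A a) (xs a ++ p.1))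
      (Fm.iff (Fm.var p.2.1) (Fm.var (PS.nf (L a) p.2.1))) (A a)))
    (l := fun a => PS.sp [] (rest a)) (Poly.inst _ ?_) (by fun_prop)
  exact Poly.s3 (by fun_prop) (by fun_prop) (by fun_prop)

theorem Poly.Phi (Dw : List Fm) : Poly (fun x : List Fm × ℕ => Phi k Dw x.1 x.2) := by
  unfold PS.Phi
  have h1 : Poly (fun x : List Fm × ℕ => PS.extL (PS.lastF x.1) x.1) := by fun_prop
  refine Poly.cutAt (by fun_prop) (Poly.app (by fun_prop) (Poly.append ?_ ?_))
  · refine Poly.T1g k (by fun_prop) (by fun_prop) ?_ ?_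
    · exact Poly.rnP (by fun_prop) (by fun_prop) h1
    · exact PT.Poly.map (f := fun (x : List Fm × ℕ) (B : Fm) =>
        PS.ap 0 0 ((PS.extL (PS.lastF x.1) x.1).map (fun e => e.1))
          (PS.cna (x.2 + 1) (PS.extL (PS.lastF x.1) x.1).length) B)
        (l := fun x : List Fm × ℕ => x.1) (by fun_prop) (by fun_prop)
  · exact Poly.weakB Dw (by fun_prop) (by fun_prop) (by fun_prop) (by fun_prop)

end

theorem codeProof_length (π : List Fm) : (codeProof π).length = sz π := by
  rw [codeProof_eq, D.bits_length]; rfl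

theorem codeQuery_eq (x : Fm × ℕ) : codeQuery x = (enc x).bits := by
  have h1 : ∀ n : ℕ, (List.replicate n [true, false]).flatten ++ [false] = (enc n).bits := by
    intro n
    induction n with
    | zero => rfl
    | succ n ih =>
      rw [List.replicate_succ, List.flatten_cons, enc_succ]
      simp only [D.bits, ← ih]
      simp
  obtain ⟨A, n⟩ := x
  simp only [codeQuery, h1, codeFm_eq, enc_pair, D.bits]

/-- Size of a formula, as a computable function. -/
def szF (A : Fm) : ℕ := ((enc A : D).bits).length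

theorem szF_eq (A : Fm) : szF A = sz A := D.bits_length _

theorem Poly.szF : Poly PS.szF := by
  unfold PS.szF
  exact Poly.length (Poly.comp (f := fun d : D => d.bits) Poly.bitsD (Poly.encD Poly.id))

theorem canonical_ext_perm {F : List Rule} (hF : IsFrege F) :
    CanonicalPairReduces (ExtProof F) (PermProof F) := by
  obtain ⟨k⟩ := exists_kit hF
  obtain ⟨Dw, hw⟩ := exists_sch hF [v0] (Fm.or v1 v0) (by
    intro v hv
    exact Or.inr (hv v0 (by simp)))
  obtain ⟨P, hP⟩ := (Poly.Phi k Dw).sz_le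
  refine ⟨fun x => (padC (x.2 + szF x.1) x.1, P.eval (3 * (x.2 + szF x.1) + 2)), ?_, ?_, ?_⟩
  · rw [tm2_iff_poly codeQuery_eq codeQuery_eq]
    have h1 : Poly (fun x : Fm × ℕ => szF x.1) := Poly.comp Poly.szF Poly.fst
    have h2 : Poly (fun x : Fm × ℕ => 3 * (x.2 + szF x.1) + 2) := by fun_prop
    have h3 := Poly.evalP h2 P
    refine Poly.pair (Poly.padC ?_ (by fun_prop)) h3
    fun_prop
  · rintro A m ⟨π, hπ, hm⟩
    rw [codeProof_length] at hm
    simp only [szF_eq]
    refine ⟨Phi k Dw π (m + sz A), Phi_spec k hw hπ (by omega), ?_⟩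
    rw [codeProof_length]
    have h1 := hP (π, m + sz A)
    refine h1.trans (poly_mono P ?_)
    rw [sz_pair, sz_nat]
    omega
  · intro A m hA
    simp only [szF_eq]
    refine padC_taut ?_ hA
    intro x hx
    have h1 := length_lt_sz x
    have h2 := sz_name_le hx
    omega

theorem canonical_of_simulates {P Q : Fm → List Fm → Prop} (h : PSimulates P Q) :
    CanonicalPairReduces Q P := by
  rw [psim_iff] at h
  obtain ⟨f, hf, hsim⟩ := h
  obtain ⟨B, hB⟩ := hf.sz_le
  refine ⟨fun x => (x.1, B.eval x.2), ?_, ?_, fun A m hA => hA⟩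
  · rw [tm2_iff_poly codeQuery_eq codeQuery_eq]
    exact Poly.pair Poly.fst (Poly.evalP Poly.snd B)
  · rintro A m ⟨π, hπ, hm⟩
    rw [codeProof_length] at hm
    refine ⟨f π, hsim A π hπ, ?_⟩
    rw [codeProof_length]
    exact (hB π).trans (poly_mono B hm)

theorem canonical_equiv {F : List Rule} (hF : IsFrege F) :
    CanonicalPairReduces (ExtProof F) (PermProof F) ∧
      CanonicalPairReduces (PermProof F) (ExtProof F) :=
  ⟨canonical_ext_perm hF, canonical_of_simulates (ext_simulates_perm hF)⟩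

end Pool.Agent.H.MP_0447ec_lc.PS
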