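import Pool.Agent.H.MP_0447ec_lc.PS.PolyAux

/-!
# From Mathlib's stack machines to `Poly`
-/

namespace Pool.Agent.H.MP_0447ec_lc.PT

section fin

variable {α β γ δ : Type} [Enc α] [Enc β] [Enc γ] [Enc δ]

/-- An encoding of a finite type. -/
@[instance_reducible]
noncomputable def encFin (X : Type) [Finite X] : Enc X :=
  ⟨fun x => enc ((Finite.equivFin X x).val), by
    intro x y h
    have h1 : (Finite.equivFin X x).val = (Finite.equivFin X y).val := Enc.inj h
    exact (Finite.equivFin X).injective (Fin.ext h1)⟩

theorem Poly.ofEmpty (h : IsEmpty α) (f : α → β) : Poly f :=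
  ⟨.skip, 1, fun a => (h.false a).elim⟩

/-- Case distinction over a finite type. -/
theorem Poly.finCase {X : Type} [Enc X] [Finite X] {g : X → α → β} {x : α → X}
    (hg : ∀ y, Poly (g y)) (hx : Poly x) : Poly (fun a => g (x a) a) := by
  classical
  rcases isEmpty_or_nonempty X with hX | ⟨⟨x0⟩⟩
  · exact Poly.ofEmpty ⟨fun a => hX.false (x a)⟩ _
  · have : Fintype X := Fintype.ofFinite X
    have key : ∀ l : List X,
        Poly (fun a => l.foldr (fun y r => if x a = y then g y a else r) (g x0 a)) := by
      intro l
      induction l with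
      | nil => exact hg x0
      | cons y l ih =>
        simp only [List.foldr_cons]
        exact Poly.ite (Poly.decEq hx (Poly.const y)) (hg y) ih
    have e : ∀ (a : α) (l : List X), x a ∈ l →
        l.foldr (fun y r => if x a = y then g y a else r) (g x0 a) = g (x a) a := by
      intro a l
      induction l with
      | nil => intro h; simp at h
      | cons y l ih =>
        intro h
        rw [List.foldr_cons]
        by_cases h1 : x a = y
        · subst h1; simp
        · simp only [h1, if_false]
          exact ih (by simpa [h1] using h)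
    have h2 := key (Finset.univ : Finset X).toList
    refine (show (fun a => g (x a) a) = _ from ?_) ▸ h2
    funext a
    exact (e a _ (by simp)).symm

theorem Poly.ofFinite {X : Type} [Enc X] [Finite X] (f : X → β) : Poly f :=
  Poly.finCase (α := X) (g := fun y _ => f y) (x := fun x => x) (fun _ => Poly.const _) Poly.id

theorem exists_sz_bound (X : Type) [Enc X] [Finite X] : ∃ C, ∀ x : X, sz x ≤ C := by
  have : Fintype X := Fintype.ofFinite X
  exact ⟨Finset.univ.sup (fun x : X => sz x), fun x => Finset.le_sup (f := fun x : X => sz x)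
    (Finset.mem_univ x)⟩

/-! ### Families of lists indexed by a finite type -/

variable {K : Type} [Fintype K]

/-- The encoding of families. -/
@[instance_reducible]
noncomputable def encPi (K : Type) [Fintype K] (β : Type) [Enc β] : Enc (K → β) :=
  ⟨fun F => enc ((Finset.univ : Finset K).toList.map F), by
    intro F G h
    have h1 : (Finset.univ : Finset K).toList.map F = (Finset.univ : Finset K).toList.map G :=
      Enc.inj h
    funext k
    exact (List.map_inj_left.1 h1) k (by simp)⟩

attribute [local instance] encPi

theorem Poly.pi {F : α → K → β} (h : ∀ k, Poly (fun a => F a k)) : Poly F := by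
  have key : ∀ l : List K, Poly (fun a => l.map (F a)) := by
    intro l
    induction l with
    | nil => exact Poly.const _
    | cons k l ih =>
      simp only [List.map_cons]
      exact Poly.lcons (h k) ih
  exact (key (Finset.univ : Finset K).toList).congr_enc fun _ => rfl

theorem Poly.toListMap : Poly (fun F : K → β => (Finset.univ : Finset K).toList.map F) :=
  (Poly.id (α := K → β)).congr_enc fun _ => rfl

theorem Poly.appL {S : α → K → List γ} (hS : Poly S) (k : K) : Poly (fun a => S a k) := by
  classical
  have key : ∀ l : List K, k ∈ l → ∃ g : List (List γ) → List γ, Poly g ∧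
      ∀ F : K → List γ, g (l.map F) = F k := by
    intro l
    induction l with
    | nil => intro h; simp at h
    | cons k' l ih =>
      intro h
      by_cases h1 : k = k'
      · subst h1
        exact ⟨fun L => L.headD [], by fun_prop, fun F => rfl⟩
      · obtain ⟨g, hg, he⟩ := ih (by simpa [h1] using h)
        exact ⟨fun L => g L.tail, by fun_prop, fun F => he F⟩
  obtain ⟨g, hg, he⟩ := key (Finset.univ : Finset K).toList (by simp)
  have h2 := Poly.comp hg (Poly.comp (f := fun F : K → List γ =>
    (Finset.univ : Finset K).toList.map F) Poly.toListMap hS)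
  refine (show (fun a => S a k) = _ from ?_) ▸ h2
  funext a
  exact (he _).symm

theorem Poly.updL [DecidableEq K] {S : α → K → List γ} {x : α → List γ} (hS : Poly S)
    (hx : Poly x) (k : K) : Poly (fun a => Function.update (S a) k (x a)) := by
  refine Poly.pi ?_
  intro k'
  by_cases h : k' = k
  · subst h; simpa using hx
  · simpa [Function.update_of_ne h] using Poly.appL hS k'

theorem sz_pi (S : K → β) : sz S = ∑ k, (sz (S k) + 1) + 1 := by
  have h1 : sz S = sz ((Finset.univ : Finset K).toList.map S) := rfl
  rw [h1, sz_list]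
  have h2 : ∑ k, (sz (S k) + 1) =
      ((Finset.univ : Finset K).toList.map (fun k => sz (S k) + 1)).sum := by
    rw [Finset.sum_map_toList]
  rw [h2, List.map_map]
  have h3 : ∀ l : List K, (l.map (sz ∘ S)).sum + l.length =
      (l.map (fun k => sz (S k) + 1)).sum := by
    intro l
    induction l with
    | nil => rfl
    | cons k l ih => simp only [List.map_cons, List.sum_cons, List.length_cons,
        Function.comp_apply]; omega
  rw [List.length_map, h3]

theorem sz_update_le [DecidableEq K] (S : K → List γ) (k : K) (x : List γ) (C : ℕ)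
    (h : sz x ≤ sz (S k) + C) : sz (Function.update S k x) ≤ sz S + C := by
  rw [sz_pi, sz_pi]
  have h1 : ∑ k', (sz (Function.update S k x k') + 1) ≤
      ∑ k', ((sz (S k') + 1) + if k' = k then C else 0) := by
    apply Finset.sum_le_sum
    intro k' _
    by_cases h2 : k' = k
    · subst h2; simp; omega
    · simp [Function.update_of_ne h2, h2]
  have h2 : ∑ k', ((sz (S k') + 1) + if k' = k then C else 0) = ∑ k', (sz (S k') + 1) + C := by
    rw [Finset.sum_add_distrib]
    simp
  omega

end fin

/-! ### Polynomials and parsing -/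

section misc

variable {α β γ δ : Type} [Enc α] [Enc β] [Enc γ] [Enc δ]

theorem Poly.powC {n : α → ℕ} (hn : Poly n) (k : ℕ) : Poly (fun a => n a ^ k) := by
  induction k with
  | zero => simpa using Poly.const 1
  | succ k ih => simpa [pow_succ] using ih.mul hn

theorem Poly.evalP {n : α → ℕ} (hn : Poly n) (P : Polynomial ℕ) :
    Poly (fun a => P.eval (n a)) := by
  induction P using Polynomial.induction_on' with
  | add p q hp hq => simpa using hp.add hq
  | monomial k c => simpa using (Poly.const c).mul (hn.powC k)

/-- One step of the parser. -/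
def parseStep (b : Bool) (s : List D) : List D :=
  match b with
  | false => D.nil :: s
  | true => match s with
    | x :: y :: r => D.cons x y :: r
    | s => s

theorem parse_bits (x : D) : ∀ (l : List Bool) (s : List D),
    (x.bits ++ l).foldr parseStep s = x :: l.foldr parseStep s := by
  induction x with
  | nil => intro l s; rfl
  | cons a b iha ihb =>
    intro l s
    have : (D.cons a b).bits ++ l = true :: (a.bits ++ (b.bits ++ l)) := by simp [D.bits]
    rw [this, List.foldr_cons, iha, ihb]
    rfl

/-- Parsing of serialized trees. -/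
def parse (l : List Bool) : D := (l.foldr parseStep []).headD D.nil

theorem parse_eq (x : D) : parse x.bits = x := by
  have := parse_bits x [] []
  rw [List.append_nil] at this
  unfold parse
  rw [this]
  rfl

/-- The case of two or more trees. -/
def joinTwo (s : List D) : List D :=
  match s with
  | x :: y :: r => D.cons x y :: r
  | s => s

/-- The case of one or more trees. -/
def joinOne (p : D × List D) : List D :=
  match p.2 with
  | [] => [p.1]
  | y :: r => D.cons p.1 y :: r

theorem Poly.joinOne : Poly joinOne := by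
  have h2 : Poly (fun p : D × D × List D => D.cons p.1 p.2.1) :=
    Poly.consD (f := fun p : D × D × List D => p.1) (g := fun p : D × D × List D => p.2.1)
      (by fun_prop) (by fun_prop) (fun _ => rfl)
  have h3 : Poly (fun q : (D × List D) × D × List D => D.cons q.1.1 q.2.1 :: q.2.2) := by
    refine Poly.lcons ?_ (by fun_prop)
    exact Poly.comp (f := fun p : D × D × List D => D.cons p.1 p.2.1)
      (g := fun q : (D × List D) × D × List D => (q.1.1, q.2.1, q.2.2)) h2 (by fun_prop)
  have h4 := Poly.lcase (α := D × List D) (l := fun p => p.2) (f := fun p => [p.1])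
      (g := fun (q : D × List D) (y : D) (r : List D) => D.cons q.1 y :: r)
      (by fun_prop) (by fun_prop) h3
  refine (show PT.joinOne = _ from ?_) ▸ h4
  funext p
  rcases p with ⟨x, _ | ⟨y, r⟩⟩ <;> rfl

theorem Poly.joinTwo {s : α → List D} (hs : Poly s) : Poly (fun a => joinTwo (s a)) := by
  have h3 := Poly.lcase (f := fun _ : α => ([] : List D))
    (g := fun (_ : α) (x : D) (xs : List D) => PT.joinOne (x, xs)) hs (Poly.const [])
    (Poly.comp Poly.joinOne (g := fun q : α × D × List D => (q.2.1, q.2.2)) (by fun_prop))
  refine (show (fun a => PT.joinTwo (s a)) = _ from ?_) ▸ h3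
  funext a
  rcases s a with _ | ⟨x, _ | ⟨y, r⟩⟩ <;> rfl

theorem Poly.parseStep {b : α → Bool} {s : α → List D} (hb : Poly b) (hs : Poly s) :
    Poly (fun a => parseStep (b a) (s a)) := by
  have h3 : Poly (fun a => D.nil :: s a) := Poly.lcons (Poly.const D.nil) hs
  have h4 := Poly.cond hb hs.joinTwo h3
  refine (show (fun a => PT.parseStep (b a) (s a)) = _ from ?_) ▸ h4
  funext a
  cases b a with
  | false => rfl
  | true =>
    simp only [cond_true]
    rcases s a with _ | ⟨x, _ | ⟨y, r⟩⟩ <;> rfl

theorem sz_parse (l : List Bool) : sz (l.foldr parseStep []) ≤ 2 * l.length + 1 := by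
  induction l with
  | nil => simp
  | cons b l ih =>
    rw [List.foldr_cons, List.length_cons]
    generalize l.foldr parseStep [] = s at ih
    cases b with
    | false =>
      have : PT.parseStep false s = D.nil :: s := rfl
      rw [this, sz_lcons]
      have : sz D.nil = 1 := rfl
      omega
    | true =>
      rcases s with _ | ⟨x, _ | ⟨y, r⟩⟩
      · have : PT.parseStep true [] = [] := rfl
        rw [this]; omega
      · have : PT.parseStep true [x] = [x] := rfl
        rw [this]; omega
      · have : PT.parseStep true (x :: y :: r) = D.cons x y :: r := rfl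
        rw [this]
        rw [sz_lcons] at ih ⊢
        rw [sz_lcons] at ih
        have : sz (D.cons x y) = sz x + sz y + 1 := rfl
        omega

theorem Poly.parse {l : α → List Bool} (hl : Poly l) : Poly (fun a => parse (l a)) := by
  have key := Poly.foldr (f := fun p : α × List D × Bool => PT.parseStep p.2.2 p.2.1) (l := l)
    (s0 := fun _ => []) (B := fun a => 2 * sz (l a) + 1)
    (Poly.parseStep (by fun_prop) (by fun_prop)) hl (by fun_prop)
    (((PBdd.const 2).mul hl.sz_le).add (PBdd.const 1)) (by
      intro a l₁ l₂ h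
      simp only
      have h1 := sz_parse l₂
      have h2 : l₂.length ≤ sz (l a) := by
        have := length_lt_sz (l a)
        rw [h] at this ⊢
        simp only [List.length_append] at this
        omega
      have h3 : l₂.foldr (fun b s => PT.parseStep b s) [] = l₂.foldr PT.parseStep [] := rfl
      rw [h3]
      omega)
  unfold PT.parse
  exact Poly.headD key (Poly.const D.nil)

end misc

/-! ### Simulation of stack machines -/

section sim

open Turing Turing.TM2

attribute [local instance] encPi

variable {K : Type} [DecidableEq K] {Γ : K → Type} {Λ σ : Type}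

/-- The stack symbols that a statement may push. -/
def pushed : Stmt Γ Λ σ → Set (Σ k, Γ k)
  | .push k f q => Set.range (fun v => (⟨k, f v⟩ : Σ k, Γ k)) ∪ pushed q
  | .peek _ _ q => pushed q
  | .pop _ _ q => pushed q
  | .load _ q => pushed q
  | .branch _ q₁ q₂ => pushed q₁ ∪ pushed q₂
  | .goto _ => ∅
  | .halt => ∅

omit [DecidableEq K] in
theorem pushed_finite [Finite σ] (q : Stmt Γ Λ σ) : (pushed q).Finite := by
  induction q with
  | push k f q ih => exact (Set.finite_range _).union ih
  | peek _ _ q ih => exact ih
  | pop _ _ q ih => exact ih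
  | load _ q ih => exact ih
  | branch _ q₁ q₂ ih₁ ih₂ => exact ih₁.union ih₂
  | goto _ => exact Set.finite_empty
  | halt => exact Set.finite_empty

open Classical in
/-- Code of a stack symbol. -/
noncomputable def eS (T : Set (Σ k, Γ k)) (k : K) (x : Γ k) : Option T :=
  if h : (⟨k, x⟩ : Σ k, Γ k) ∈ T then some ⟨⟨k, x⟩, h⟩ else none

/-- Decoding of stack symbols. -/
def dS (T : Set (Σ k, Γ k)) (k : K) (t : Option T) : Option (Γ k) :=
  t.bind fun z => if h : z.1.1 = k then some (h ▸ z.1.2) else none

theorem dS_eS {T : Set (Σ k, Γ k)} {k : K} {x : Γ k} (h : (⟨k, x⟩ : Σ k, Γ k) ∈ T) :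
    dS T k (eS T k x) = some x := by
  unfold dS eS
  rw [dif_pos h]
  simp

/-- Statements acting on coded stacks. -/
noncomputable def auxN (T : Set (Σ k, Γ k)) : Stmt Γ Λ σ → σ → (K → List (Option T)) →
    Option Λ × σ × (K → List (Option T))
  | .push k f q, v, S => auxN T q v (Function.update S k (eS T k (f v) :: S k))
  | .peek k f q, v, S => auxN T q (f v ((S k).head?.bind (dS T k))) S
  | .pop k f q, v, S => auxN T q (f v ((S k).head?.bind (dS T k)))
      (Function.update S k (S k).tail)
  | .load a q, v, S => auxN T q (a v) S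
  | .branch f q₁ q₂, v, S => cond (f v) (auxN T q₁ v S) (auxN T q₂ v S)
  | .goto f, v, S => (some (f v), v, S)
  | .halt, v, S => (none, v, S)

/-- Coded stacks. -/
def RelS (T : Set (Σ k, Γ k)) (S : ∀ k, List (Γ k)) (S' : K → List (Option T)) : Prop :=
  ∀ k, S' k = (S k).map (eS T k) ∧ ∀ x ∈ S k, (⟨k, x⟩ : Σ k, Γ k) ∈ T

/-- Coded configurations. -/
def RelC (T : Set (Σ k, Γ k)) (c : Cfg Γ Λ σ) (c' : Option Λ × σ × (K → List (Option T))) :
    Prop := c'.1 = c.l ∧ c'.2.1 = c.var ∧ RelS T c.stk c'.2.2

theorem RelS.head {T : Set (Σ k, Γ k)} {S : ∀ k, List (Γ k)} {S' : K → List (Option T)}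
    (h : RelS T S S') (k : K) : (S' k).head?.bind (dS T k) = (S k).head? := by
  obtain ⟨h1, h2⟩ := h k
  rw [h1]
  cases hk : S k with
  | nil => rfl
  | cons x l =>
    simp only [List.map_cons, List.head?_cons, Option.bind_some]
    exact dS_eS (h2 x (by rw [hk]; simp))

theorem RelS.update {T : Set (Σ k, Γ k)} {S : ∀ k, List (Γ k)} {S' : K → List (Option T)}
    (h : RelS T S S') (k : K) {x : List (Γ k)} {x' : List (Option T)}
    (hx : x' = x.map (eS T k)) (hx' : ∀ y ∈ x, (⟨k, y⟩ : Σ k, Γ k) ∈ T) :
    RelS T (Function.update S k x) (Function.update S' k x') := by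
  intro k'
  by_cases h1 : k' = k
  · subst h1
    simp only [Function.update_self]
    exact ⟨hx, hx'⟩
  · simp only [Function.update_of_ne h1]
    exact h k'

theorem rel_aux {T : Set (Σ k, Γ k)} (q : Stmt Γ Λ σ) : pushed q ⊆ T →
    ∀ (v : σ) (S : ∀ k, List (Γ k)) (S' : K → List (Option T)), RelS T S S' →
    RelC T (stepAux q v S) (auxN T q v S') := by
  induction q with
  | push k f q ih =>
    intro hT v S S' h
    refine ih (fun z hz => hT (Or.inr hz)) v _ _ ?_
    obtain ⟨h1, h2⟩ := h k
    have hf : (⟨k, f v⟩ : Σ k, Γ k) ∈ T := hT (Or.inl ⟨v, rfl⟩)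
    refine h.update k (by rw [h1]; rfl) ?_
    intro y hy
    rcases List.mem_cons.1 hy with rfl | hy
    · exact hf
    · exact h2 y hy
  | peek k f q ih =>
    intro hT v S S' h
    have := ih hT (f v ((S k).head?)) S S' h
    simp only [auxN, h.head k]
    exact this
  | pop k f q ih =>
    intro hT v S S' h
    obtain ⟨h1, h2⟩ := h k
    have := ih hT (f v ((S k).head?)) _ _ (h.update k (x := (S k).tail) (x' := (S' k).tail)
      (by rw [h1, List.map_tail]) (fun y hy => h2 y (List.mem_of_mem_tail hy)))
    simp only [auxN, h.head k]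
    exact this
  | load a q ih =>
    intro hT v S S' h
    exact ih hT (a v) S S' h
  | branch f q₁ q₂ ih₁ ih₂ =>
    intro hT v S S' h
    simp only [stepAux, auxN]
    cases f v with
    | false => exact ih₂ (fun z hz => hT (Or.inr hz)) v S S' h
    | true => exact ih₁ (fun z hz => hT (Or.inl hz)) v S S' h
  | goto f =>
    intro hT v S S' h
    exact ⟨rfl, rfl, h⟩
  | halt =>
    intro hT v S S' h
    exact ⟨rfl, rfl, h⟩

/-- A step on coded configurations; halted configurations stay. -/
noncomputable def stepN (T : Set (Σ k, Γ k)) (M : Λ → Stmt Γ Λ σ)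
    (c : Option Λ × σ × (K → List (Option T))) : Option Λ × σ × (K → List (Option T)) :=
  match c.1 with
  | none => c
  | some l => auxN T (M l) c.2.1 c.2.2

theorem rel_iter {T : Set (Σ k, Γ k)} {M : Λ → Stmt Γ Λ σ} (hT : ∀ l, pushed (M l) ⊆ T) :
    ∀ (n : ℕ) (c d : Cfg Γ Λ σ) (c' : Option Λ × σ × (K → List (Option T))), RelC T c c' →
    (flip bind (step M))^[n] (some c) = some d → RelC T d ((stepN T M)^[n] c') := by
  intro n
  induction n with
  | zero =>
    intro c d c' h h1
    simp only [Function.iterate_zero, id_eq, Option.some.injEq] at h1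
    subst h1
    exact h
  | succ n ih =>
    intro c d c' h h1
    rw [Function.iterate_succ_apply] at h1 ⊢
    have hnone : ∀ m, (flip bind (step M))^[m] none = none := by
      intro m
      induction m with
      | zero => rfl
      | succ m ih => rw [Function.iterate_succ_apply]; exact ih
    rcases c with ⟨l, v, S⟩
    obtain ⟨e1, e2, e3⟩ := h
    cases l with
    | none =>
      have h2 : flip bind (step M) (some ⟨none, v, S⟩) = none := rfl
      rw [h2, hnone] at h1
      exact absurd h1 (by simp)
    | some l =>
      have h2 : flip bind (step M) (some ⟨some l, v, S⟩) = some (stepAux (M l) v S) := rfl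
      rw [h2] at h1
      refine ih _ d _ ?_ h1
      have h3 : stepN T M c' = auxN T (M l) c'.2.1 c'.2.2 := by
        unfold stepN
        simp only at e1
        rw [e1]
      rw [h3]
      simp only at e2
      rw [e2]
      exact rel_aux (M l) (hT l) v S c'.2.2 e3

theorem stepN_halt {T : Set (Σ k, Γ k)} {M : Λ → Stmt Γ Λ σ}
    {c : Option Λ × σ × (K → List (Option T))} (h : c.1 = none) (n : ℕ) :
    (stepN T M)^[n] c = c := by
  have h1 : stepN T M c = c := by unfold stepN; rw [h]
  induction n with
  | zero => rfl
  | succ n ih => rw [Function.iterate_succ_apply, h1, ih]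

variable [Fintype K] [Enc Λ] [Enc σ] [Finite Λ] [Finite σ]

theorem poly_auxN (T : Set (Σ k, Γ k)) [Finite T] [Enc T] (q : Stmt Γ Λ σ) :
    Poly (fun p : σ × (K → List (Option T)) => auxN T q p.1 p.2) := by
  have hhead : ∀ (k : K) (f : σ → Option (Γ k) → σ),
      Poly (fun p : σ × (K → List (Option T)) => f p.1 ((p.2 k).head?.bind (dS T k))) := by
    intro k f
    have h1 : Poly (fun p : σ × (K → List (Option T)) => (p.2 k).head?) :=
      Poly.head? (Poly.appL Poly.snd k)
    have h2 : Poly (fun q : σ × Option (Option T) => f q.1 (q.2.bind (dS T k))) :=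
      Poly.ofFinite _
    exact Poly.comp h2 (Poly.pair Poly.fst h1)
  induction q with
  | push k f q ih =>
    simp only [auxN]
    refine Poly.comp (f := fun p : σ × (K → List (Option T)) => auxN T q p.1 p.2)
      (g := fun p : σ × (K → List (Option T)) =>
        (p.1, Function.update p.2 k (eS T k (f p.1) :: p.2 k))) ih ?_
    refine Poly.pair Poly.fst (Poly.updL Poly.snd ?_ k)
    refine Poly.lcons ?_ (Poly.appL Poly.snd k)
    exact Poly.comp (f := fun v : σ => eS T k (f v)) (Poly.ofFinite _) Poly.fst
  | peek k f q ih =>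
    simp only [auxN]
    exact Poly.comp (f := fun p : σ × (K → List (Option T)) => auxN T q p.1 p.2)
      (g := fun p : σ × (K → List (Option T)) =>
        (f p.1 ((p.2 k).head?.bind (dS T k)), p.2)) ih (Poly.pair (hhead k f) Poly.snd)
  | pop k f q ih =>
    simp only [auxN]
    exact Poly.comp (f := fun p : σ × (K → List (Option T)) => auxN T q p.1 p.2)
      (g := fun p : σ × (K → List (Option T)) =>
        (f p.1 ((p.2 k).head?.bind (dS T k)), Function.update p.2 k (p.2 k).tail)) ih
      (Poly.pair (hhead k f) (Poly.updL Poly.snd (Poly.tail (Poly.appL Poly.snd k)) k))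
  | load a q ih =>
    simp only [auxN]
    exact Poly.comp (f := fun p : σ × (K → List (Option T)) => auxN T q p.1 p.2)
      (g := fun p : σ × (K → List (Option T)) => (a p.1, p.2)) ih
      (Poly.pair (Poly.comp (f := a) (Poly.ofFinite _) Poly.fst) Poly.snd)
  | branch f q₁ q₂ ih₁ ih₂ =>
    simp only [auxN]
    exact Poly.cond (Poly.comp (f := f) (Poly.ofFinite _) Poly.fst) ih₁ ih₂
  | goto f =>
    simp only [auxN]
    exact Poly.pair (Poly.comp (f := fun v => some (f v)) (Poly.ofFinite _) Poly.fst)
      (Poly.pair Poly.fst Poly.snd)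
  | halt =>
    simp only [auxN]
    exact Poly.pair (Poly.const _) (Poly.pair Poly.fst Poly.snd)

theorem poly_stepN (T : Set (Σ k, Γ k)) [Finite T] [Enc T] (M : Λ → Stmt Γ Λ σ) :
    Poly (stepN T M) := by
  have h1 : ∀ l : Option Λ, Poly (fun c : Option Λ × σ × (K → List (Option T)) =>
      (match l with
      | none => c
      | some l => auxN T (M l) c.2.1 c.2.2 : Option Λ × σ × (K → List (Option T)))) := by
    intro l
    cases l with
    | none => exact Poly.id
    | some l =>
      exact Poly.comp (f := fun p : σ × (K → List (Option T)) => auxN T (M l) p.1 p.2)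
        (g := fun c : Option Λ × σ × (K → List (Option T)) => c.2) (poly_auxN T (M l)) Poly.snd
  exact Poly.finCase (X := Option Λ)
    (x := fun c : Option Λ × σ × (K → List (Option T)) => c.1) h1 Poly.fst

omit [Enc Λ] [Enc σ] [Finite Λ] in
theorem sz_auxN (T : Set (Σ k, Γ k)) [Finite T] [Enc T] (q : Stmt Γ Λ σ) :
    ∃ C : ℕ, ∀ (v : σ) (S : K → List (Option T)), sz (auxN T q v S).2.2 ≤ sz S + C := by
  obtain ⟨CT, hCT⟩ := exists_sz_bound (Option T)
  induction q with
  | push k f q ih =>
    obtain ⟨C, hC⟩ := ih
    refine ⟨C + (CT + 1), fun v S => ?_⟩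
    refine (hC v _).trans ?_
    have h1 := sz_update_le S k (eS T k (f v) :: S k) (CT + 1) (by
      rw [sz_lcons]
      have := hCT (eS T k (f v))
      omega)
    omega
  | peek k f q ih =>
    obtain ⟨C, hC⟩ := ih
    exact ⟨C, fun v S => hC _ S⟩
  | pop k f q ih =>
    obtain ⟨C, hC⟩ := ih
    refine ⟨C, fun v S => ?_⟩
    refine (hC _ _).trans ?_
    have h1 := sz_update_le S k (S k).tail 0 (by
      simpa using sz_sublist_le (List.tail_sublist (S k)))
    omega
  | load a q ih =>
    obtain ⟨C, hC⟩ := ih
    exact ⟨C, fun v S => hC _ S⟩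
  | branch f q₁ q₂ ih₁ ih₂ =>
    obtain ⟨C₁, hC₁⟩ := ih₁
    obtain ⟨C₂, hC₂⟩ := ih₂
    refine ⟨C₁ + C₂, fun v S => ?_⟩
    simp only [auxN]
    have := hC₁ v S
    have := hC₂ v S
    cases f v <;> simp only [cond_true, cond_false] <;> omega
  | goto f => exact ⟨0, fun v S => le_rfl⟩
  | halt => exact ⟨0, fun v S => le_rfl⟩

theorem sz_stepN (T : Set (Σ k, Γ k)) [Finite T] [Enc T] (M : Λ → Stmt Γ Λ σ) :
    ∃ C : ℕ, ∀ (n : ℕ) (c : Option Λ × σ × (K → List (Option T))),
      sz ((stepN T M)^[n] c) ≤ sz c.2.2 + n * C + C := by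
  obtain ⟨C1, h1⟩ := exists_sz_bound (Option Λ)
  obtain ⟨C2, h2⟩ := exists_sz_bound σ
  choose C3 h3 using fun l : Λ => sz_auxN T (M l)
  obtain ⟨C4, h4⟩ : ∃ C4, ∀ l, C3 l ≤ C4 := by
    have : Fintype Λ := Fintype.ofFinite Λ
    exact ⟨Finset.univ.sup C3, fun l => Finset.le_sup (Finset.mem_univ l)⟩
  have key : ∀ (n : ℕ) (c : Option Λ × σ × (K → List (Option T))),
      sz ((stepN T M)^[n] c).2.2 ≤ sz c.2.2 + n * C4 := by
    intro n
    induction n with
    | zero => intro c; simp
    | succ n ih =>
      intro c
      rw [Function.iterate_succ_apply]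
      refine (ih _).trans ?_
      have : sz (stepN T M c).2.2 ≤ sz c.2.2 + C4 := by
        rcases c with ⟨_ | l, v, S⟩
        · exact Nat.le_add_right _ _
        · have h5 := h3 l v S
          have h6 := h4 l
          have h7 : stepN T M (some l, v, S) = auxN T (M l) v S := rfl
          rw [h7]
          simp only
          omega
      rw [Nat.add_mul]
      omega
  refine ⟨C1 + C2 + C4 + 2, fun n c => ?_⟩
  rw [sz_prod, sz_prod]
  have := key n c
  have := h1 ((stepN T M)^[n] c).1
  have := h2 ((stepN T M)^[n] c).2.1
  have : n * C4 ≤ n * (C1 + C2 + C4 + 2) := Nat.mul_le_mul_left _ (by omega)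
  omega

end sim

section final

open Turing

attribute [local instance] encPi

variable {α β : Type} [Enc α] [Enc β]

/-- The content of the output stack of a machine that computes on serialized trees is given by a
`Poly` function. -/
theorem Poly.of_tm2 {f : α → β}
    (h : Nonempty (TM2ComputableInPolyTime (fun a => (enc a).bits) (fun b => (enc b).bits) f)) :
    Poly f := by
  classical
  obtain ⟨⟨⟨tm, iA, oA⟩, time, hout⟩⟩ := h
  simp only at hout
  let _ : Fintype tm.K := tm.kFin
  let _ : Fintype tm.Λ := tm.ΛFin
  let _ : Fintype tm.σ := tm.σFin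
  let _ : Fintype (tm.Γ tm.k₀) := tm.Γk₀Fin
  let _ : Enc tm.Λ := encFin _
  let _ : Enc tm.σ := encFin _
  set T : Set (Σ k, tm.Γ k) := (⋃ l, pushed (tm.m l)) ∪
    Set.range (fun x : tm.Γ tm.k₀ => (⟨tm.k₀, x⟩ : Σ k, tm.Γ k)) with hTdef
  have hTfin : T.Finite :=
    (Set.finite_iUnion fun l => pushed_finite _).union (Set.finite_range _)
  have _ : Finite T := hTfin
  let _ : Enc T := encFin _
  have hT : ∀ l, pushed (tm.m l) ⊆ T := fun l z hz => Or.inl (Set.mem_iUnion.2 ⟨l, hz⟩)
  have hT0 : ∀ x : tm.Γ tm.k₀, (⟨tm.k₀, x⟩ : Σ k, tm.Γ k) ∈ T := fun x => Or.inr ⟨x, rfl⟩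
  -- the initial configuration
  let init : α → Option tm.Λ × tm.σ × (tm.K → List (Option T)) := fun a =>
    (Option.some tm.main, tm.initialState, Function.update (fun _ => []) tm.k₀
      ((enc a).bits.map (fun b => eS T tm.k₀ (iA.symm b))))
  have hbits : Poly (fun a : α => (enc a).bits) :=
    Poly.comp (f := fun d : D => d.bits) Poly.bitsD (Poly.encD Poly.id)
  have hinit : Poly init := by
    refine Poly.pair (Poly.const _) (Poly.pair (Poly.const _) (Poly.updL (Poly.const _) ?_ _))
    exact Poly.map (f := fun (_ : α) (b : Bool) => eS T tm.k₀ (iA.symm b))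
      (Poly.comp (f := fun b : Bool => eS T tm.k₀ (iA.symm b)) (Poly.ofFinite _) Poly.snd) hbits
  have hN : Poly (fun a : α => time.eval (enc a).bits.length) := Poly.evalP hbits.length time
  obtain ⟨C, hC⟩ := sz_stepN T tm.m
  have hfin : Poly (fun a => (stepN T tm.m)^[time.eval (enc a).bits.length] (init a)) := by
    refine Poly.iterate (f := fun (_ : α) c => stepN T tm.m c) (s := init)
      (n := fun a => time.eval (enc a).bits.length)
      (B := fun a => sz (init a).2.2 + sz (time.eval (enc a).bits.length) * C + C)
      (Poly.comp (poly_stepN T tm.m) Poly.snd) hinit hN ?_ ?_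
    · have h1 : Poly (fun a => (init a).2.2) := Poly.comp Poly.snd (Poly.comp Poly.snd hinit)
      exact (h1.sz_le.add (hN.sz_le.mul (PBdd.const C))).add (PBdd.const C)
    · intro a k hk
      refine (hC k (init a)).trans ?_
      have h1 : k ≤ sz (time.eval (enc a).bits.length) := by rw [sz_nat]; omega
      have := Nat.mul_le_mul_right C h1
      omega
  -- the result
  have hres : ∀ a, (((stepN T tm.m)^[time.eval (enc a).bits.length] (init a)).2.2 tm.k₁).map
      (fun t => ((dS T tm.k₁ t).map oA).getD false) = (enc (f a)).bits := by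
    intro a
    obtain ⟨⟨n, hn⟩, hle⟩ := hout a
    simp only at hle
    have hR0 : RelC T (initList tm (List.map iA.invFun (enc a).bits)) (init a) := by
      refine ⟨rfl, rfl, ?_⟩
      intro k
      by_cases hk : k = tm.k₀
      · subst hk
        simp only [initList, init, Function.update_self, dite_true]
        refine ⟨?_, fun x _ => hT0 x⟩
        have e5 : (List.map iA.invFun (enc a).bits).map (eS T tm.k₀) =
            (enc a).bits.map (fun b => eS T tm.k₀ (iA.symm b)) := by
          rw [List.map_map]; rfl
        rw [← e5]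
        rfl
      · simp only [initList, init, Function.update_of_ne hk, dif_neg hk]
        exact ⟨rfl, fun x hx => by simp at hx⟩
    have hR1 := rel_iter hT n _ _ _ hR0 hn
    have hhalt : ((stepN T tm.m)^[n] (init a)).1 = none := hR1.1
    have e1 : (stepN T tm.m)^[time.eval (enc a).bits.length] (init a) =
        (stepN T tm.m)^[n] (init a) := by
      have : time.eval (enc a).bits.length = (time.eval (enc a).bits.length - n) + n := by omega
      rw [this, Function.iterate_add_apply]
      exact stepN_halt hhalt _
    rw [e1]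
    obtain ⟨e2, e3⟩ := hR1.2.2 tm.k₁
    have e4 : (haltList tm (List.map oA.invFun (enc (f a)).bits)).stk tm.k₁ =
        List.map oA.invFun (enc (f a)).bits := by
      simp [haltList]
    rw [e4] at e2 e3
    rw [e2, List.map_map]
    apply List.ext_getElem
    · simp
    · intro i h1 h2
      simp only [List.getElem_map, Function.comp_apply]
      rw [dS_eS (e3 _ (by
        rw [List.mem_map]
        exact ⟨_, List.getElem_mem h2, rfl⟩))]
      simp
  have hout2 : Poly (fun a => (enc (f a)).bits) := by
    have h1 : Poly (fun a =>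
        ((stepN T tm.m)^[time.eval (enc a).bits.length] (init a)).2.2 tm.k₁) :=
      Poly.appL (Poly.comp Poly.snd (Poly.comp Poly.snd hfin)) tm.k₁
    have h2 := Poly.map (f := fun (_ : α) (t : Option T) =>
      ((dS T tm.k₁ t).map oA).getD false)
      (Poly.comp (f := fun t : Option T => ((dS T tm.k₁ t).map oA).getD false)
        (Poly.ofFinite _) Poly.snd) h1
    refine (show (fun a => (enc (f a)).bits) = _ from ?_) ▸ h2
    funext a
    exact (hres a).symm
  have h3 := Poly.parse hout2
  refine h3.congr_enc fun a => ?_
  rw [parse_eq]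
  rfl

end final

end Pool.Agent.H.MP_0447ec_lc.PT
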