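import Pool.Agent.H.MP_0447ec_lc.PS.Defs

/-!
# Basic lemmas on formulas and derivations
-/

namespace Pool.Agent.H.MP_0447ec_lc.PS

open Fm

/-- Names of variables. -/
abbrev Nm := List Bool

theorem Fm.subst_subst (A : Fm) (s t : Nm → Fm) :
    (A.subst s).subst t = A.subst (fun n => (s n).subst t) := by
  induction A with
  | var n => rfl
  | neg A ih => simp [Fm.subst, ih]
  | and A B ih1 ih2 => simp [Fm.subst, ih1, ih2]
  | or A B ih1 ih2 => simp [Fm.subst, ih1, ih2]
  | imp A B ih1 ih2 => simp [Fm.subst, ih1, ih2]

theorem Fm.eval_subst (A : Fm) (s : Nm → Fm) (v : Nm → Prop) :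
    (A.subst s).Eval v ↔ A.Eval (fun n => (s n).Eval v) := by
  induction A with
  | var n => rfl
  | neg A ih => simp [Fm.subst, Fm.Eval, ih]
  | and A B ih1 ih2 => simp [Fm.subst, Fm.Eval, ih1, ih2]
  | or A B ih1 ih2 => simp [Fm.subst, Fm.Eval, ih1, ih2]
  | imp A B ih1 ih2 => simp [Fm.subst, Fm.Eval, ih1, ih2]

theorem Fm.subst_congr {A : Fm} {s t : Nm → Fm} (h : ∀ x ∈ A.vars, s x = t x) :
    A.subst s = A.subst t := by
  induction A with
  | var n => exact h n rfl
  | neg A ih => simp only [Fm.subst]; rw [ih h]
  | and A B ih1 ih2 =>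
    simp only [Fm.subst]
    rw [ih1 (fun x hx => h x (Or.inl hx)), ih2 (fun x hx => h x (Or.inr hx))]
  | or A B ih1 ih2 =>
    simp only [Fm.subst]
    rw [ih1 (fun x hx => h x (Or.inl hx)), ih2 (fun x hx => h x (Or.inr hx))]
  | imp A B ih1 ih2 =>
    simp only [Fm.subst]
    rw [ih1 (fun x hx => h x (Or.inl hx)), ih2 (fun x hx => h x (Or.inr hx))]

theorem Fm.subst_var (A : Fm) : A.subst var = A := by
  induction A with
  | var n => rfl
  | neg A ih => simp [Fm.subst, ih]
  | and A B ih1 ih2 => simp [Fm.subst, ih1, ih2]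
  | or A B ih1 ih2 => simp [Fm.subst, ih1, ih2]
  | imp A B ih1 ih2 => simp [Fm.subst, ih1, ih2]

theorem Fm.subst_eq_self {A : Fm} {s : Nm → Fm} (h : ∀ x ∈ A.vars, s x = var x) :
    A.subst s = A := by
  rw [Fm.subst_congr h, Fm.subst_var]

/-- The list of subformulas. -/
def subs : Fm → List Fm
  | .var w => [.var w]
  | .neg A => .neg A :: subs A
  | .and A B => .and A B :: (subs A ++ subs B)
  | .or A B => .or A B :: (subs A ++ subs B)
  | .imp A B => .imp A B :: (subs A ++ subs B)

/-- The list of variables. -/
def nms : Fm → List Nm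
  | .var w => [w]
  | .neg A => nms A
  | .and A B => nms A ++ nms B
  | .or A B => nms A ++ nms B
  | .imp A B => nms A ++ nms B

theorem mem_nms {A : Fm} {x : Nm} : x ∈ nms A ↔ x ∈ A.vars := by
  induction A with
  | var w => simp [nms, Fm.vars]
  | neg A ih => simpa [nms, Fm.vars] using ih
  | and A B ih1 ih2 => simp [nms, Fm.vars, ih1, ih2]
  | or A B ih1 ih2 => simp [nms, Fm.vars, ih1, ih2]
  | imp A B ih1 ih2 => simp [nms, Fm.vars, ih1, ih2]

theorem self_mem_subs (A : Fm) : A ∈ subs A := by
  cases A <;> simp [subs]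

theorem mem_subs_subst {A : Fm} {s : Nm → Fm} {x : Nm} (h : x ∈ A.vars) :
    s x ∈ subs (A.subst s) := by
  induction A with
  | var n =>
    simp only [Fm.vars, Set.mem_singleton_iff] at h
    subst h; simp [Fm.subst, self_mem_subs]
  | neg A ih => simp only [Fm.subst, subs, List.mem_cons]; exact Or.inr (ih h)
  | and A B ih1 ih2 =>
    simp only [Fm.subst, subs, List.mem_cons, List.mem_append]
    rcases h with h | h
    · exact Or.inr (Or.inl (ih1 h))
    · exact Or.inr (Or.inr (ih2 h))
  | or A B ih1 ih2 =>
    simp only [Fm.subst, subs, List.mem_cons, List.mem_append]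
    rcases h with h | h
    · exact Or.inr (Or.inl (ih1 h))
    · exact Or.inr (Or.inr (ih2 h))
  | imp A B ih1 ih2 =>
    simp only [Fm.subst, subs, List.mem_cons, List.mem_append]
    rcases h with h | h
    · exact Or.inr (Or.inl (ih1 h))
    · exact Or.inr (Or.inr (ih2 h))

/-! ### Derivations -/

/-- A step relation is monotone in the set of earlier lines. -/
def Mono (step : List Fm → Fm → Prop) : Prop :=
  ∀ π π' B, (∀ C ∈ π, C ∈ π') → step π B → step π' B

theorem mono_ruleStep (F : List Rule) : Mono (RuleStep F) := by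
  rintro π π' B h ⟨r, hr, s, hs, hc⟩
  exact ⟨r, hr, s, fun P hP => h _ (hs P hP), hc⟩

theorem mono_permStep : Mono PermStep := by
  rintro π π' B h ⟨C, hC, ρ, hρ, hB⟩
  exact ⟨C, h C hC, ρ, hρ, hB⟩

/-- One step with a rule or with the permutation rule. -/
def FP (F : List Rule) (σ : List Fm) (B : Fm) : Prop := RuleStep F σ B ∨ PermStep σ B

theorem mono_perm (F : List Rule) : Mono (FP F) := by
  rintro π π' B h (h1 | h1)
  · exact Or.inl (mono_ruleStep F π π' B h h1)
  · exact Or.inr (mono_permStep π π' B h h1)

theorem Deriv.imp_step {step step' : List Fm → Fm → Prop} {π : List Fm}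
    (h : Deriv step π) (hs : ∀ σ B, step σ B → step' σ B) : Deriv step' π := by
  induction h with
  | nil => exact Deriv.nil
  | snoc _ h2 ih => exact Deriv.snoc ih (hs _ _ h2)

theorem ruleStep_subst {F : List Rule} {π : List Fm} {B : Fm} (h : RuleStep F π B)
    (s : Nm → Fm) : RuleStep F (π.map (Fm.subst s)) (B.subst s) := by
  obtain ⟨r, hr, t, ht, hc⟩ := h
  refine ⟨r, hr, fun n => (t n).subst s, ?_, ?_⟩
  · intro P hP
    rw [← Fm.subst_subst]
    exact List.mem_map_of_mem (ht P hP)
  · rw [← hc, Fm.subst_subst]

theorem Deriv.map_subst {F : List Rule} {π : List Fm} (h : Deriv (RuleStep F) π)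
    (s : Nm → Fm) : Deriv (RuleStep F) (π.map (Fm.subst s)) := by
  induction h with
  | nil => exact Deriv.nil
  | snoc _ h2 ih =>
    rw [List.map_append]
    exact Deriv.snoc ih (ruleStep_subst h2 s)

/-- All lines of `σ` can be obtained, one after the other, from `π` and the previous ones. -/
def Just (step : List Fm → Fm → Prop) : List Fm → List Fm → Prop
  | _, [] => True
  | π, C :: σ => (C ∈ π ∨ step π C) ∧ Just step (π ++ [C]) σ

theorem Just.mono {step : List Fm → Fm → Prop} (hm : Mono step) {σ : List Fm} :
    ∀ {π π' : List Fm}, (∀ C ∈ π, C ∈ π') → Just step π σ → Just step π' σ := by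
  induction σ with
  | nil => intro π π' _ _; trivial
  | cons C σ ih =>
    intro π π' h hj
    refine ⟨?_, ih ?_ hj.2⟩
    · rcases hj.1 with h1 | h1
      · exact Or.inl (h C h1)
      · exact Or.inr (hm _ _ _ h h1)
    · intro B hB
      rcases List.mem_append.1 hB with hB | hB
      · exact List.mem_append_left _ (h B hB)
      · exact List.mem_append_right _ hB

theorem Just.append {step : List Fm → Fm → Prop} {σ τ : List Fm} :
    ∀ {π : List Fm}, Just step π σ → Just step (π ++ σ) τ → Just step π (σ ++ τ) := by
  induction σ with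
  | nil => intro π _ h; simpa using h
  | cons C σ ih =>
    intro π h1 h2
    refine ⟨h1.1, ih h1.2 ?_⟩
    simpa [List.append_assoc] using h2

theorem Just.flatMap {step : List Fm → Fm → Prop} (hm : Mono step) {α : Type} (f : α → List Fm)
    (L : List α) (π : List Fm) (h : ∀ a ∈ L, Just step π (f a)) :
    Just step π (L.flatMap f) := by
  induction L with
  | nil => trivial
  | cons a L ih =>
    rw [List.flatMap_cons]
    refine Just.append (h a (by simp)) ?_
    refine Just.mono hm (fun C hC => List.mem_append_left _ hC)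
      (ih (fun b hb => h b (List.mem_cons_of_mem _ hb)))

theorem Deriv.just {step : List Fm → Fm → Prop} (hm : Mono step) {σ : List Fm}
    (h : Deriv step σ) (π : List Fm) : Just step π σ := by
  induction h with
  | nil => trivial
  | @snoc σ B _ h2 ih =>
    refine Just.append ih ⟨Or.inr (hm _ _ _ ?_ h2), trivial⟩
    exact fun C hC => List.mem_append_right _ hC

/-- Append the lines that are not yet present. -/
def app (π σ : List Fm) : List Fm :=
  σ.foldl (fun π C => if C ∈ π then π else π ++ [C]) π

theorem mem_app {σ : List Fm} {C : Fm} : ∀ {π : List Fm}, C ∈ app π σ ↔ C ∈ π ∨ C ∈ σ := by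
  induction σ with
  | nil => intro π; simp [app]
  | cons B σ ih =>
    intro π
    have h1 : app π (B :: σ) = app (if B ∈ π then π else π ++ [B]) σ := rfl
    rw [h1, ih]
    by_cases h : B ∈ π
    · simp only [h, if_true, List.mem_cons]
      constructor
      · rintro (h2 | h2)
        · exact Or.inl h2
        · exact Or.inr (Or.inr h2)
      · rintro (h2 | rfl | h2)
        · exact Or.inl h2
        · exact Or.inl h
        · exact Or.inr h2
    · simp only [h, if_false, List.mem_append, List.mem_cons, List.not_mem_nil, or_false]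
      tauto

theorem deriv_app {step : List Fm → Fm → Prop} (hm : Mono step) {σ : List Fm} :
    ∀ {π : List Fm}, Deriv step π → Just step π σ → Deriv step (app π σ) := by
  induction σ with
  | nil => intro π h _; exact h
  | cons B σ ih =>
    intro π h hj
    have h1 : app π (B :: σ) = app (if B ∈ π then π else π ++ [B]) σ := rfl
    rw [h1]
    by_cases hB : B ∈ π
    · rw [if_pos hB]
      refine ih h (Just.mono hm ?_ hj.2)
      intro C hC
      rcases List.mem_append.1 hC with hC | hC
      · exact hC
      · simp only [List.mem_singleton] at hC; subst hC; exact hB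
    · rw [if_neg hB]
      refine ih (Deriv.snoc h ?_) hj.2
      rcases hj.1 with h2 | h2
      · exact absurd h2 hB
      · exact h2

/-- The lines up to the first occurrence of `B`, which is made the last one. -/
def cutAt (B : Fm) (π : List Fm) : List Fm :=
  π.takeWhile (fun C => !decide (C = B)) ++ [B]

theorem deriv_cutAt {step : List Fm → Fm → Prop} {π : List Fm} {B : Fm}
    (h : Deriv step π) (hB : B ∈ π) :
    Deriv step (cutAt B π) ∧ (cutAt B π).getLast? = some B := by
  refine ⟨?_, by simp [cutAt]⟩
  induction h with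
  | nil => simp at hB
  | @snoc π C h1 h2 ih =>
    by_cases hBπ : B ∈ π
    · have h3 : cutAt B (π ++ [C]) = cutAt B π := by
        unfold cutAt
        congr 1
        rw [List.takeWhile_append]
        split_ifs with h4
        · exfalso
          have h5 : List.takeWhile (fun C => !decide (C = B)) π = π :=
            List.IsPrefix.eq_of_length (List.takeWhile_prefix _) h4
          have h6 := List.takeWhile_eq_self_iff.1 h5 B hBπ
          simp at h6
        · rfl
      rw [h3]
      exact ih hBπ
    · have hBC : B = C := by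
        rcases List.mem_append.1 hB with hB | hB
        · exact absurd hB hBπ
        · simpa using hB
      subst hBC
      have h5 : List.takeWhile (fun C => !decide (C = B)) π = π := by
        rw [List.takeWhile_eq_self_iff]
        intro x hx
        have : x ≠ B := by rintro rfl; exact hBπ hx
        simpa using this
      have h3 : cutAt B (π ++ [B]) = π ++ [B] := by
        unfold cutAt
        congr 1
        rw [List.takeWhile_append, if_pos (by rw [h5])]
        simp
      rw [h3]
      exact Deriv.snoc h1 h2

/-- Instantiation of a fixed derivation. -/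
def inst (D : List Fm) (s : Nm → Fm) : List Fm := D.map (Fm.subst s)

/-- `D` is a derivation of `B` from `Γ` in `F`. -/
structure Sch (F : List Rule) (Γ : List Fm) (B : Fm) (D : List Fm) : Prop where
  der : Deriv (fun σ C => C ∈ Γ ∨ RuleStep F σ C) D
  mem : B ∈ D

theorem exists_sch {F : List Rule} (hF : IsFrege F) (Γ : List Fm) (B : Fm)
    (h : ∀ v : Nm → Prop, (∀ P ∈ Γ, P.Eval v) → B.Eval v) : ∃ D, Sch F Γ B D := by
  obtain ⟨D, h1, h2⟩ := hF.complete Γ B h
  exact ⟨D, h1, List.mem_of_getLast? h2⟩

theorem Sch.just {F : List Rule} {Γ : List Fm} {B : Fm} {D : List Fm} (h : Sch F Γ B D)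
    {step : List Fm → Fm → Prop} (hm : Mono step) (hF : ∀ σ C, RuleStep F σ C → step σ C)
    (s : Nm → Fm) (π : List Fm) (hΓ : ∀ P ∈ Γ, P.subst s ∈ π) : Just step π (inst D s) := by
  have key : ∀ σ, Deriv (fun σ C => C ∈ Γ ∨ RuleStep F σ C) σ → Just step π (inst σ s) := by
    intro σ hσ
    induction hσ with
    | nil => trivial
    | @snoc σ C h1 h2 ih =>
      have h3 : inst (σ ++ [C]) s = inst σ s ++ [C.subst s] := by simp [inst]
      rw [h3]
      refine Just.append ih ⟨?_, trivial⟩
      rcases h2 with h2 | h2
      · exact Or.inl (List.mem_append_left _ (hΓ C h2))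
      · exact Or.inr (hF _ _ (mono_ruleStep F _ _ _
          (fun C hC => List.mem_append_right _ hC) (ruleStep_subst h2 s)))
  exact key D h.der

theorem Sch.mem_inst {F : List Rule} {Γ : List Fm} {B : Fm} {D : List Fm} (h : Sch F Γ B D)
    (s : Nm → Fm) : B.subst s ∈ inst D s :=
  List.mem_map_of_mem h.mem

end Pool.Agent.H.MP_0447ec_lc.PS
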