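import Mathlib

/-!
# Frege systems, extended Frege and Frege with the permutation rule; p-simulation
-/

namespace Pool.Agent.H.MP_0447ec_lc.PS

/-- Propositional formulas over the basis negation, conjunction, disjunction, implication.
The variables are `var w` for binary words `w` (their binary names). -/
inductive Fm : Type where
  | var (w : List Bool) : Fm
  | neg (A : Fm) : Fm
  | and (A B : Fm) : Fm
  | or (A B : Fm) : Fm
  | imp (A B : Fm) : Fm
  deriving DecidableEq

namespace Fm

/-- Truth of a formula under an assignment. -/
def Eval (v : List Bool → Prop) : Fm → Prop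
  | var w => v w
  | neg A => ¬ A.Eval v
  | and A B => A.Eval v ∧ B.Eval v
  | or A B => A.Eval v ∨ B.Eval v
  | imp A B => A.Eval v → B.Eval v

/-- The set of variables that occur in a formula. -/
def vars : Fm → Set (List Bool)
  | var w => {w}
  | neg A => A.vars
  | and A B => A.vars ∪ B.vars
  | or A B => A.vars ∪ B.vars
  | imp A B => A.vars ∪ B.vars

/-- Simultaneous substitution of formulas for variables. -/
def subst (s : List Bool → Fm) : Fm → Fm
  | var w => s w
  | neg A => neg (A.subst s)
  | and A B => and (A.subst s) (B.subst s)
  | or A B => or (A.subst s) (B.subst s)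
  | imp A B => imp (A.subst s) (B.subst s)

/-- The biconditional, as an abbreviation. -/
def iff (A B : Fm) : Fm := and (imp A B) (imp B A)

/-- Polish (prefix) notation: the tokens `(0, w)` for the variable `w` and
`(1, []), (2, []), (3, []), (4, [])` for the connectives. -/
def pol : Fm → List (ℕ × List Bool)
  | var w => [(0, w)]
  | neg A => (1, []) :: A.pol
  | and A B => (2, []) :: (A.pol ++ B.pol)
  | or A B => (3, []) :: (A.pol ++ B.pol)
  | imp A B => (4, []) :: (A.pol ++ B.pol)

end Fm

open Fm

/-- A schematic rule: finitely many premises and a conclusion. -/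
structure Rule where
  prem : List Fm
  concl : Fm

/-- `B` follows from lines in `π` by a substitution instance of a rule of `F`. -/
def RuleStep (F : List Rule) (π : List Fm) (B : Fm) : Prop :=
  ∃ r ∈ F, ∃ s : List Bool → Fm, (∀ P ∈ r.prem, P.subst s ∈ π) ∧ r.concl.subst s = B

/-- `Deriv step π`: every line of the sequence `π` is obtained from the earlier lines
by `step`. -/
inductive Deriv (step : List Fm → Fm → Prop) : List Fm → Prop
  | nil : Deriv step []
  | snoc {π : List Fm} {B : Fm} : Deriv step π → step π B → Deriv step (π ++ [B])

/-- `F` is a Frege system: a finite list of sound schematic rules that is implicationally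
complete, i.e. whenever `Γ ⊨ B` for a finite list `Γ`, there is a sequence ending in `B` each
line of which belongs to `Γ` or follows from earlier lines by a rule of `F`. -/
structure IsFrege (F : List Rule) : Prop where
  sound : ∀ r ∈ F, ∀ v : List Bool → Prop, (∀ P ∈ r.prem, P.Eval v) → r.concl.Eval v
  complete : ∀ (Γ : List Fm) (B : Fm),
    (∀ v : List Bool → Prop, (∀ P ∈ Γ, P.Eval v) → B.Eval v) →
    ∃ π : List Fm, Deriv (fun σ C => C ∈ Γ ∨ RuleStep F σ C) π ∧ π.getLast? = some B

/-- The permutation rule: from a line `C` derive the result of applying to it a permutation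
of the set of variables that occur in `C`. -/
def PermStep (π : List Fm) (B : Fm) : Prop :=
  ∃ C ∈ π, ∃ ρ : Equiv.Perm (List Bool),
    (∀ x, x ∉ C.vars → ρ x = x) ∧ B = C.subst (fun w => var (ρ w))

/-- The extension rule in a proof of `A`: the line `q ↔ φ`, where `q` occurs neither in `φ`, nor
in an earlier line, nor in `A`. -/
def ExtStep (A : Fm) (π : List Fm) (B : Fm) : Prop :=
  ∃ (q : List Bool) (φ : Fm),
    B = Fm.iff (var q) φ ∧ q ∉ φ.vars ∧ (∀ C ∈ π, q ∉ C.vars) ∧ q ∉ A.vars

/-- `π` is an `F`-proof of `A`. -/
def FregeProof (F : List Rule) (A : Fm) (π : List Fm) : Prop :=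
  Deriv (RuleStep F) π ∧ π.getLast? = some A

/-- `π` is a proof of `A` in `F` with the permutation rule. -/
def PermProof (F : List Rule) (A : Fm) (π : List Fm) : Prop :=
  Deriv (fun σ B => RuleStep F σ B ∨ PermStep σ B) π ∧ π.getLast? = some A

/-- `π` is a proof of `A` in `F` with the extension rule (extended Frege). -/
def ExtProof (F : List Rule) (A : Fm) (π : List Fm) : Prop :=
  Deriv (fun σ B => RuleStep F σ B ∨ ExtStep A σ B) π ∧ π.getLast? = some A

/-- Self-delimiting binary code of a word. -/
def codeWord (w : List Bool) : List Bool :=
  w.flatMap (fun b => if b then [true, true, false, false] else [true, false]) ++ [false]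

/-- Binary code of a token: its number in unary, then its word. -/
def codeTok (t : ℕ × List Bool) : List Bool :=
  true :: ((List.replicate t.1 [true, false]).flatten ++ [false] ++ codeWord t.2)

/-- Binary code of a formula: the codes of its tokens, each preceded by `true`, then `false`. -/
def codeFm (A : Fm) : List Bool :=
  A.pol.flatMap (fun t => true :: codeTok t) ++ [false]

/-- Binary code of a sequence of formulas: the codes of its members, each preceded by `true`,
then `false`. -/
def codeProof (π : List Fm) : List Bool :=
  π.flatMap (fun A => true :: codeFm A) ++ [false]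

/-- The proof system `P` p-simulates the proof system `Q`: some function computable in polynomial
time (by a Turing machine with binary codes of sequences of formulas as input and output) maps
every `Q`-proof of a formula `A` to a `P`-proof of `A`. -/
def PSimulates (P Q : Fm → List Fm → Prop) : Prop :=
  ∃ f : List Fm → List Fm,
    Nonempty (Turing.TM2ComputableInPolyTime codeProof codeProof f) ∧
    ∀ (A : Fm) (π : List Fm), Q A π → P A (f π)

end Pool.Agent.H.MP_0447ec_lc.PS
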