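import Pool.Agent.H.MP_0447ec_lc.PS.PolyAlg
import Pool.Agent.H.MP_0447ec_lc.PS.FromTM
import Pool.Agent.H.MP_0447ec_lc.PS.DefsR

/-!
# Final theorems
-/

namespace Pool.Agent.H.MP_0447ec_lc.PS

open Pool.Agent.H.MP_0447ec_lc.PT

theorem codeWord_eq (w : List Bool) : codeWord w = (enc w).bits := by
  induction w with
  | nil => rfl
  | cons b w ih =>
    have h1 : codeWord (b :: w) =
        (if b then [true, true, false, false] else [true, false]) ++ codeWord w := by
      simp [codeWord]
    rw [h1, ih, enc_lcons]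
    cases b <;> simp [D.bits]

theorem codeTok_eq (t : ℕ × List Bool) : codeTok t = (enc t).bits := by
  obtain ⟨n, w⟩ := t
  have h1 : ∀ n : ℕ, (List.replicate n [true, false]).flatten ++ [false] = (enc n).bits := by
    intro n
    induction n with
    | zero => rfl
    | succ n ih =>
      rw [List.replicate_succ, List.flatten_cons, enc_succ]
      simp only [D.bits, ← ih]
      simp
  simp only [codeTok, enc_pair, D.bits, codeWord_eq, ← h1]

theorem code_list {α : Type} [Enc α] {c : α → List Bool} (h : ∀ a, c a = (enc a).bits)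
    (l : List α) : l.flatMap (fun a => true :: c a) ++ [false] = (enc l).bits := by
  induction l with
  | nil => rfl
  | cons a l ih =>
    rw [List.flatMap_cons, enc_lcons, List.append_assoc, ih]
    simp [D.bits, h]

theorem codeFm_eq (A : Fm) : codeFm A = (enc A).bits := code_list codeTok_eq A.pol

theorem codeProof_eq (π : List Fm) : codeProof π = (enc π).bits := code_list codeFm_eq π

theorem tm2_iff_poly {α β : Type} [Enc α] [Enc β] {ca : α → List Bool} {cb : β → List Bool}
    (ha : ∀ a, ca a = (enc a).bits) (hb : ∀ b, cb b = (enc b).bits) (f : α → β) :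
    Nonempty (Turing.TM2ComputableInPolyTime ca cb f) ↔ Poly f := by
  obtain rfl : ca = fun a => (enc a).bits := funext ha
  obtain rfl : cb = fun b => (enc b).bits := funext hb
  exact ⟨Poly.of_tm2, Poly.tm2⟩

theorem psim_iff {P Q : Fm → List Fm → Prop} : PSimulates P Q ↔
    ∃ f : List Fm → List Fm, Poly f ∧ ∀ (A : Fm) (π : List Fm), Q A π → P A (f π) := by
  unfold PSimulates
  constructor
  · rintro ⟨f, h1, h2⟩
    exact ⟨f, (tm2_iff_poly codeProof_eq codeProof_eq f).1 h1, h2⟩
  · rintro ⟨f, h1, h2⟩
    exact ⟨f, (tm2_iff_poly codeProof_eq codeProof_eq f).2 h1, h2⟩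

/-- The restricted proof. -/
theorem collapse {F : List Rule} (hF : IsFrege F)
    (h : PSimulates (FregeProof F) (PermProof F)) :
    PSimulates (FregeProof F) (ExtProof F) := by
  obtain ⟨k⟩ := exists_kit hF
  rw [psim_iff] at h ⊢
  obtain ⟨f, hf, hsim⟩ := h
  refine ⟨fun π => T3 k (lastF π) (extL (lastF π) π) ((f (T1 k π)).map (fun B =>
    B.subst (cst (rT (extL (lastF π) π)) (rF (lenB π) (extL (lastF π) π))))), ?_, ?_⟩
  · refine Poly.T3 k (by fun_prop) (by fun_prop) ?_
    have h1 : Poly (fun π : List Fm => f (T1 k π)) := Poly.comp hf (Poly.T1 k Poly.id)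
    refine PT.Poly.map (f := fun (π : List Fm) (B : Fm) =>
      B.subst (cst (rT (extL (lastF π) π)) (rF (lenB π) (extL (lastF π) π)))) ?_ h1
    exact Poly.substCst (by fun_prop) (by fun_prop) (by fun_prop)
  · intro A π hπ
    have h1 := hsim _ _ (T1_spec k hπ)
    have hl : lastF π = A := lastF_eq hπ.2
    simp only [hl]
    have h2 := h1.1.map_subst (cst (rT (extL A π)) (rF (lenB π) (extL A π)))
    refine T3_spec k (mono_ruleStep F) (fun _ _ h => h) A (extL A π) _ h2 ?_
    rw [← restrict_pad hπ]
    exact List.mem_map_of_mem (List.mem_of_getLast? h1.2)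

theorem codeNames_eq (T : List (List Bool)) : codeNames T = (enc T).bits :=
  code_list codeWord_eq T

theorem codeInput_eq (x : (List (List Bool) × List (List Bool)) × List Fm) :
    codeInput x = (enc x).bits := by
  obtain ⟨⟨T, U⟩, π⟩ := x
  simp only [codeInput, codeNames_eq, codeProof_eq, enc_pair, D.bits]

theorem closed_iff {P : Fm → List Fm → Prop} : ClosedUnderRestrictions P ↔
    ∃ g : (List (List Bool) × List (List Bool)) × List Fm → List Fm, Poly g ∧
    ∀ (A : Fm) (π : List Fm) (T U : List (List Bool)), P A π →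
      P (A.restrict T U) (g ((T, U), π)) := by
  unfold ClosedUnderRestrictions
  constructor
  · rintro ⟨f, h1, h2⟩
    exact ⟨f, (tm2_iff_poly codeInput_eq codeProof_eq f).1 h1, h2⟩
  · rintro ⟨f, h1, h2⟩
    exact ⟨f, (tm2_iff_poly codeInput_eq codeProof_eq f).2 h1, h2⟩

theorem restrict_eq (T U : List (List Bool)) (A : Fm) : A.restrict T U = A.subst (cst T U) := rfl

theorem simulates_of_closed {F : List Rule} (hF : IsFrege F)
    (h : ClosedUnderRestrictions (PermProof F)) :
    PSimulates (PermProof F) (ExtProof F) := by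
  obtain ⟨k⟩ := exists_kit hF
  rw [closed_iff] at h
  rw [psim_iff]
  obtain ⟨g, hg, hcl⟩ := h
  refine ⟨fun π => T3 k (lastF π) (extL (lastF π) π)
    (g ((rT (extL (lastF π) π), rF (lenB π) (extL (lastF π) π)), T1 k π)), ?_, ?_⟩
  · refine Poly.T3 k (by fun_prop) (by fun_prop) ?_
    refine Poly.comp hg (Poly.pair (by fun_prop) (Poly.T1 k Poly.id))
  · intro A π hπ
    have hl : lastF π = A := lastF_eq hπ.2
    simp only [hl]
    have h1 := hcl _ _ (rT (extL A π)) (rF (lenB π) (extL A π)) (T1_spec k hπ)
    rw [restrict_eq, restrict_pad hπ] at h1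
    exact T3_spec k (mono_perm F) (fun _ _ h => Or.inl h) A (extL A π) _ h1.1
      (List.mem_of_getLast? h1.2)

end Pool.Agent.H.MP_0447ec_lc.PS
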