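import Pool.Agent.H.MP_0447ec_lc.PT.Main

/-!
# More polynomial-time computable functions: equality tests, membership, and so on
-/

namespace Pool.Agent.H.MP_0447ec_lc.PT

theorem run_encLoop' (m b c : List Bool) : ∀ (a l : List Bool),
    Run encLoop (mk4 ((enc l).bits ++ m) a b c) (mk4 ((enc (a.reverse ++ l)).bits ++ m) [] b c)
      (5 * a.length + 1) := by
  intro a
  induction a with
  | nil => intro l; exact Run.loop_e rfl
  | cons v a ih =>
    intro l
    have key := ih (v :: l)
    have : (v :: a).reverse ++ l = a.reverse ++ v :: l := by simp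
    rw [this]
    have h2 : 4 + (5 * a.length + 1) + 1 ≤ 5 * (v :: a).length + 1 := by simp; omega
    refine Run.mono ?_ h2
    cases v
    · refine Run.loop_f (l := a) rfl (n := 4) ?_ key
      rw [upd_A]
      have h1 := Run.push (k := .M) (b := false) (s := mk4 ((enc l).bits ++ m) a b c)
      have h2 := Run.push (k := .M) (b := true) (s := mk4 (false :: ((enc l).bits ++ m)) a b c)
      rw [mk4_M, upd_M] at h1 h2
      refine Run.mono (Run.seq h1 h2) (by omega)
    · refine Run.loop_t (l := a) rfl (n := 4) ?_ key
      rw [upd_A]
      have h1 := Run.push (k := .M) (b := false) (s := mk4 ((enc l).bits ++ m) a b c)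
      have h2 := Run.push (k := .M) (b := false) (s := mk4 (false :: ((enc l).bits ++ m)) a b c)
      have h3 := Run.push (k := .M) (b := true)
        (s := mk4 (false :: false :: ((enc l).bits ++ m)) a b c)
      have h4 := Run.push (k := .M) (b := true)
        (s := mk4 (true :: false :: false :: ((enc l).bits ++ m)) a b c)
      rw [mk4_M, upd_M] at h1 h2 h3 h4
      refine Run.mono (Run.seq h1 (Run.seq h2 (Run.seq h3 h4))) (by omega)

/-- The serialization of a tree, as a list of booleans. -/
theorem Poly.bitsD : Poly (fun d : D => d.bits) := by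
  refine ⟨.seq (mv 1 true false) (.seq (.push .M false) encLoop),
    11 * Polynomial.X + 10, fun d m => ?_⟩
  have h1 := run_mv true false m [] [] [enc d]
  have h2 := Run.push (k := .M) (b := false)
    (s := mk4 m (cpre true (lbits [enc d]).reverse []) (cpre false (lbits [enc d]).reverse []) [])
  rw [mk4_M, upd_M] at h2
  have h3 := run_encLoop' m [] [] (enc d).bits.reverse []
  have e0 : stk [enc d] m = mk4 (lbits [enc d] ++ m) [] [] [] := rfl
  have e1 : stk [enc d.bits] m =
      mk4 ((enc ((enc d).bits.reverse.reverse ++ [])).bits ++ m) [] [] [] := by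
    have : enc d = d := rfl
    rw [this]
    simp [stk]
  have e2 : mk4 (false :: m) (cpre true (lbits [enc d]).reverse [])
      (cpre false (lbits [enc d]).reverse []) [] =
      mk4 ((enc ([] : List Bool)).bits ++ m) (enc d).bits.reverse [] [] := by
    simp [cpre, D.bits]
  rw [← e2] at h3
  rw [e0, e1]
  refine Run.mono (Run.seq h1 (Run.seq h2 h3)) ?_
  simp [D.bits_length, sz]
  omega

theorem D.bits_prefixfree : ∀ (x y : D) (s t : List Bool), x.bits ++ s = y.bits ++ t →
    x = y ∧ s = t := by
  intro x
  induction x with
  | nil =>
    intro y s t h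
    cases y with
    | nil => simpa [D.bits] using h
    | cons a b => simp [D.bits] at h
  | cons a b iha ihb =>
    intro y s t h
    cases y with
    | nil => simp [D.bits] at h
    | cons c d =>
      simp only [D.bits, List.cons_append, List.append_assoc, List.cons.injEq, true_and] at h
      obtain ⟨h1, h2⟩ := iha c _ _ h
      obtain ⟨h3, h4⟩ := ihb d _ _ h2
      exact ⟨by rw [h1, h3], h4⟩

theorem D.bits_inj {x y : D} (h : x.bits = y.bits) : x = y :=
  (D.bits_prefixfree x y [] [] (by simpa using h)).1

section

variable {α β γ δ : Type} [Enc α] [Enc β] [Enc γ] [Enc δ]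

/-- Comparison of two lists of booleans. -/
theorem Poly.lbeq {f g : α → List Bool} (hf : Poly f) (hg : Poly g) :
    Poly (fun a => decide (f a = g a)) := by
  have e : ∀ (l m : List Bool) (ok : Bool),
      (l.foldl (fun (s : Bool × List Bool) b =>
        ((s.1 && !s.2.isEmpty) && (s.2.headD false == b), s.2.tail)) (ok, m)) =
      (ok && decide (l <+: m), m.drop l.length) := by
    intro l
    induction l with
    | nil => intro m ok; simp
    | cons x l ih =>
      intro m ok
      rw [List.foldl_cons, ih]
      cases m with
      | nil => simp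
      | cons y m =>
        simp only [List.isEmpty_cons, Bool.not_false, Bool.and_true, List.headD_cons,
          List.tail_cons, List.length_cons, List.drop_succ_cons, Prod.mk.injEq, and_true]
        rw [Bool.and_assoc]
        congr 1
        by_cases h1 : x = y
        · subst h1; simp
        · have h2 : (y == x) = false := by
            rw [beq_eq_false_iff_ne]; exact fun h => h1 h.symm
          have h3 : ¬ (x :: l <+: y :: m) := by
            rw [List.cons_prefix_cons]; exact fun h => h1 h.1
          simp [h2, h3]
  have key := Poly.foldl (f := fun p : α × (Bool × List Bool) × Bool =>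
      ((p.2.1.1 && !p.2.1.2.isEmpty) && (p.2.1.2.headD false == p.2.2), p.2.1.2.tail))
    (l := f) (s0 := fun a => (true, g a)) (B := fun a => sz (g a) + 4)
    (by fun_prop) hf (by fun_prop) (hg.sz_le.add (PBdd.const 4)) (by
      intro a l₁ l₂ _
      simp only
      rw [e]
      have h1 := sz_sublist_le (List.drop_sublist l₁.length (g a))
      have h2 := sz_bool_le (true && decide (l₁ <+: g a))
      rw [sz_pair]
      omega)
  have h2 : Poly (fun a => ((f a).foldl (fun (s : Bool × List Bool) b =>
        ((s.1 && !s.2.isEmpty) && (s.2.headD false == b), s.2.tail)) (true, g a)).1 &&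
      ((f a).foldl (fun (s : Bool × List Bool) b =>
        ((s.1 && !s.2.isEmpty) && (s.2.headD false == b), s.2.tail)) (true, g a)).2.isEmpty) :=
    Poly.and (Poly.comp Poly.fst key) (Poly.isEmpty (Poly.comp Poly.snd key))
  refine (show (fun a => decide (f a = g a)) = _ from ?_) ▸ h2
  funext a
  rw [e]
  simp only [Bool.true_and]
  by_cases h : f a = g a
  · simp [h]
  · have : ¬ (f a <+: g a ∧ (g a).drop (f a).length = []) := by
      rintro ⟨h1, h2⟩
      apply h
      rw [List.drop_eq_nil_iff] at h2
      exact List.IsPrefix.eq_of_length_le h1 h2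
    by_cases h1 : f a <+: g a
    · have h2 : (g a).drop (f a).length ≠ [] := fun h2 => this ⟨h1, h2⟩
      simp only [h, h1, decide_false, decide_true, Bool.true_and]
      cases hd : (g a).drop (f a).length with
      | nil => exact absurd hd h2
      | cons => rfl
    · simp [h, h1]

theorem Poly.encD {f : α → β} (hf : Poly f) : Poly (fun a => (enc (f a) : D)) :=
  hf.congr_enc fun _ => rfl

/-- Equality tests. -/
@[fun_prop]
theorem Poly.decEq [DecidableEq β] {f g : α → β} (hf : Poly f) (hg : Poly g) :
    Poly (fun a => decide (f a = g a)) := by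
  have := Poly.lbeq (Poly.comp Poly.bitsD hf.encD) (Poly.comp Poly.bitsD hg.encD)
  refine (show (fun a => decide (f a = g a)) = _ from ?_) ▸ this
  funext a
  by_cases h : f a = g a
  · simp [h]
  · have h2 : ¬ ((enc (f a)).bits = (enc (g a)).bits) := by
      intro h2
      exact h (Enc.inj (D.bits_inj h2))
    simp [h, h2]

/-- Membership tests. -/
@[fun_prop]
theorem Poly.decMem [DecidableEq β] {f : α → β} {l : α → List β}
    [inst : ∀ a, Decidable (f a ∈ l a)] (hf : Poly f) (hl : Poly l) :
    Poly (fun a => decide (f a ∈ l a)) := by
  have : Poly (fun a => (l a).any (fun b => decide (f a = b))) := by fun_prop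
  refine (show (fun a => decide (f a ∈ l a)) = _ from ?_) ▸ this
  funext a
  by_cases h : f a ∈ l a
  · simp [h]
  · have h2 : ∀ x ∈ l a, ¬ f a = x := by rintro x hx rfl; exact h hx
    simp only [h, decide_false]
    symm
    rw [List.any_eq_false]
    intro x hx
    simpa using h2 x hx

@[fun_prop]
theorem Poly.take1 {l : α → List β} (hl : Poly l) : Poly (fun a => (l a).take 1) := by
  have := Poly.lcase (f := fun _ => ([] : List β)) (g := fun _ x _ => [x]) hl (by fun_prop)
    (by fun_prop)
  refine (show (fun a => (l a).take 1) = _ from ?_) ▸ this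
  funext a; cases l a <;> rfl

theorem Poly.takeWhile {f : α → β → Bool} {l : α → List β}
    (hf : Poly (fun p : α × β => f p.1 p.2)) (hl : Poly l) :
    Poly (fun a => (l a).takeWhile (f a)) := by
  have e : ∀ (g : β → Bool) (l : List β),
      l.foldr (fun b s => bif g b then b :: s else []) [] = l.takeWhile g := by
    intro g l
    induction l with
    | nil => simp
    | cons x l ih => cases h : g x <;> simp [h, ih]
  have key := Poly.foldr (f := fun p : α × List β × β => bif f p.1 p.2.2 then p.2.2 :: p.2.1
      else []) (l := l)
    (s0 := fun _ => []) (B := fun a => sz (l a))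
    (Poly.cond (hf.comp (g := fun p : α × List β × β => (p.1, p.2.2)) (by fun_prop))
      (by fun_prop) (by fun_prop)) hl (by fun_prop) hl.sz_le (by
      intro a l₁ l₂ h
      simp only
      rw [e, h]
      exact sz_sublist_le ((List.takeWhile_sublist _).trans (List.sublist_append_right _ _)))
  simpa [e] using key

end

end Pool.Agent.H.MP_0447ec_lc.PT
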