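import Pool.Agent.H.MP_0447ec_lc.PS.PolyAux
import Pool.Agent.H.MP_0447ec_lc.PS.Basic

/-!
# Formulas as data for polynomial-time computations
-/

namespace Pool.Agent.H.MP_0447ec_lc.PS

open Pool.Agent.H.MP_0447ec_lc.PT

/-- Unique readability of Polish notation. -/
theorem Fm.pol_prefixfree : ∀ (A B : Fm) (s t : List (ℕ × List Bool)),
    A.pol ++ s = B.pol ++ t → A = B ∧ s = t := by
  intro A
  induction A with
  | var w =>
    intro B s t h
    cases B with
    | var w' => simp only [Fm.pol, List.cons_append, List.nil_append, List.cons.injEq,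
        Prod.mk.injEq, true_and] at h; exact ⟨by rw [h.1], h.2⟩
    | neg B => simp [Fm.pol] at h
    | and B C => simp [Fm.pol] at h
    | or B C => simp [Fm.pol] at h
    | imp B C => simp [Fm.pol] at h
  | neg A ih =>
    intro B s t h
    cases B with
    | var w' => simp [Fm.pol] at h
    | neg B =>
      simp only [Fm.pol, List.cons_append, List.cons.injEq, true_and] at h
      obtain ⟨h1, h2⟩ := ih B s t h
      exact ⟨by rw [h1], h2⟩
    | and B C => simp [Fm.pol] at h
    | or B C => simp [Fm.pol] at h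
    | imp B C => simp [Fm.pol] at h
  | and A A' ih ih' =>
    intro B s t h
    cases B with
    | var w' => simp [Fm.pol] at h
    | neg B => simp [Fm.pol] at h
    | and B C =>
      simp only [Fm.pol, List.cons_append, List.cons.injEq, true_and, List.append_assoc] at h
      obtain ⟨h1, h2⟩ := ih B _ _ h
      obtain ⟨h3, h4⟩ := ih' C _ _ h2
      exact ⟨by rw [h1, h3], h4⟩
    | or B C => simp [Fm.pol] at h
    | imp B C => simp [Fm.pol] at h
  | or A A' ih ih' =>
    intro B s t h
    cases B with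
    | var w' => simp [Fm.pol] at h
    | neg B => simp [Fm.pol] at h
    | and B C => simp [Fm.pol] at h
    | or B C =>
      simp only [Fm.pol, List.cons_append, List.cons.injEq, true_and, List.append_assoc] at h
      obtain ⟨h1, h2⟩ := ih B _ _ h
      obtain ⟨h3, h4⟩ := ih' C _ _ h2
      exact ⟨by rw [h1, h3], h4⟩
    | imp B C => simp [Fm.pol] at h
  | imp A A' ih ih' =>
    intro B s t h
    cases B with
    | var w' => simp [Fm.pol] at h
    | neg B => simp [Fm.pol] at h
    | and B C => simp [Fm.pol] at h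
    | or B C => simp [Fm.pol] at h
    | imp B C =>
      simp only [Fm.pol, List.cons_append, List.cons.injEq, true_and, List.append_assoc] at h
      obtain ⟨h1, h2⟩ := ih B _ _ h
      obtain ⟨h3, h4⟩ := ih' C _ _ h2
      exact ⟨by rw [h1, h3], h4⟩

theorem Fm.pol_inj {A B : Fm} (h : A.pol = B.pol) : A = B :=
  (Fm.pol_prefixfree A B [] [] (by simpa using h)).1

instance : Enc Fm := ⟨fun A => enc A.pol, fun _ _ h => Fm.pol_inj (Enc.inj h)⟩

theorem enc_fm (A : Fm) : enc A = enc A.pol := rfl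

theorem sz_fm (A : Fm) : sz A = sz A.pol := rfl

theorem sz_var (w : List Bool) : sz (Fm.var w) = sz w + 4 := by
  rw [sz_fm, Fm.pol, sz_lcons, sz_pair, sz_nat, sz_lnil]
  omega

theorem sz_neg (A : Fm) : sz (Fm.neg A) = sz A + 6 := by
  rw [sz_fm, Fm.pol, sz_lcons, sz_pair, sz_nat, sz_lnil, sz_fm]
  omega

theorem sz_and (A B : Fm) : sz (Fm.and A B) = sz A + sz B + 7 := by
  have := sz_append A.pol B.pol
  have h1 := sz_pos A.pol
  rw [sz_fm, Fm.pol, sz_lcons, sz_pair, sz_nat, sz_lnil, sz_fm A, sz_fm B]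
  omega

theorem sz_or (A B : Fm) : sz (Fm.or A B) = sz A + sz B + 9 := by
  have := sz_append A.pol B.pol
  have h1 := sz_pos A.pol
  rw [sz_fm, Fm.pol, sz_lcons, sz_pair, sz_nat, sz_lnil, sz_fm A, sz_fm B]
  omega

theorem sz_imp (A B : Fm) : sz (Fm.imp A B) = sz A + sz B + 11 := by
  have := sz_append A.pol B.pol
  have h1 := sz_pos A.pol
  rw [sz_fm, Fm.pol, sz_lcons, sz_pair, sz_nat, sz_lnil, sz_fm A, sz_fm B]
  omega

theorem sz_iff (A B : Fm) : sz (Fm.iff A B) = 2 * sz A + 2 * sz B + 29 := by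
  rw [Fm.iff, sz_and, sz_imp, sz_imp]; omega

section

variable {α β γ : Type} [Enc α] [Enc β] [Enc γ]

theorem Poly.polOf {G : α → Fm} (h : Poly G) : Poly (fun a => (G a).pol) :=
  h.congr_enc fun _ => rfl

theorem Poly.ofPol {G : α → Fm} (h : Poly (fun a => (G a).pol)) : Poly G :=
  h.congr_enc fun _ => rfl

@[fun_prop]
theorem Poly.fmVar {w : α → List Bool} (hw : Poly w) : Poly (fun a => Fm.var (w a)) :=
  Poly.ofPol (by
    have : Poly (fun a => [((0 : ℕ), w a)]) := by fun_prop
    exact this)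

@[fun_prop]
theorem Poly.fmNeg {G : α → Fm} (hG : Poly G) : Poly (fun a => Fm.neg (G a)) :=
  Poly.ofPol (by
    have h1 := Poly.polOf hG
    have : Poly (fun a => ((1 : ℕ), ([] : List Bool)) :: (G a).pol) := by fun_prop
    exact this)

@[fun_prop]
theorem Poly.fmAnd {G H : α → Fm} (hG : Poly G) (hH : Poly H) :
    Poly (fun a => Fm.and (G a) (H a)) :=
  Poly.ofPol (by
    have h1 := Poly.polOf hG
    have h2 := Poly.polOf hH
    have : Poly (fun a => ((2 : ℕ), ([] : List Bool)) :: ((G a).pol ++ (H a).pol)) := by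
      fun_prop
    exact this)

@[fun_prop]
theorem Poly.fmOr {G H : α → Fm} (hG : Poly G) (hH : Poly H) :
    Poly (fun a => Fm.or (G a) (H a)) :=
  Poly.ofPol (by
    have h1 := Poly.polOf hG
    have h2 := Poly.polOf hH
    have : Poly (fun a => ((3 : ℕ), ([] : List Bool)) :: ((G a).pol ++ (H a).pol)) := by
      fun_prop
    exact this)

@[fun_prop]
theorem Poly.fmImp {G H : α → Fm} (hG : Poly G) (hH : Poly H) :
    Poly (fun a => Fm.imp (G a) (H a)) :=
  Poly.ofPol (by
    have h1 := Poly.polOf hG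
    have h2 := Poly.polOf hH
    have : Poly (fun a => ((4 : ℕ), ([] : List Bool)) :: ((G a).pol ++ (H a).pol)) := by
      fun_prop
    exact this)

@[fun_prop]
theorem Poly.fmIff {G H : α → Fm} (hG : Poly G) (hH : Poly H) :
    Poly (fun a => Fm.iff (G a) (H a)) := by
  unfold Fm.iff
  fun_prop

/-! ### Structural recursion on formulas -/

/-- Structural recursion. -/
def fmFold (gv : List Bool → γ) (gn : γ → γ) (g2 : ℕ → γ → γ → γ) : Fm → γ
  | .var w => gv w
  | .neg A => gn (fmFold gv gn g2 A)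
  | .and A B => g2 2 (fmFold gv gn g2 A) (fmFold gv gn g2 B)
  | .or A B => g2 3 (fmFold gv gn g2 A) (fmFold gv gn g2 B)
  | .imp A B => g2 4 (fmFold gv gn g2 A) (fmFold gv gn g2 B)

/-- One step of the stack machine. -/
def stS (gv : List Bool → γ) (gn : γ → γ) (g2 : ℕ → γ → γ → γ) (t : ℕ × List Bool)
    (st : List γ) : List γ :=
  if t.1 = 0 then gv t.2 :: st
  else if t.1 = 1 then
    match st with
    | [] => []
    | x :: s => gn x :: s
  else
    match st with
    | [] => []
    | x :: s =>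
      match s with
      | [] => []
      | y :: s' => g2 t.1 x y :: s'

omit [Enc γ] in
theorem stS_pol (gv : List Bool → γ) (gn : γ → γ) (g2 : ℕ → γ → γ → γ) :
    ∀ (A : Fm) (st : List γ),
    A.pol.foldr (stS gv gn g2) st = fmFold gv gn g2 A :: st := by
  intro A
  induction A with
  | var w => intro st; simp [Fm.pol, stS, fmFold]
  | neg A ih => intro st; simp [Fm.pol, fmFold, ih, stS]
  | and A B ih1 ih2 => intro st; simp [Fm.pol, List.foldr_append, fmFold, ih1, ih2, stS]
  | or A B ih1 ih2 => intro st; simp [Fm.pol, List.foldr_append, fmFold, ih1, ih2, stS]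
  | imp A B ih1 ih2 => intro st; simp [Fm.pol, List.foldr_append, fmFold, ih1, ih2, stS]

omit [Enc γ] in
theorem stS_suffix2 (gv : List Bool → γ) (gn : γ → γ) (g2 : ℕ → γ → γ → γ) (A B : Fm)
    (ih1 : ∀ l₁ l₂, A.pol = l₁ ++ l₂ → ∃ Gs : List Fm, (∀ G ∈ Gs, G ∈ subs A) ∧
      Gs.length ≤ l₂.length ∧
      ∀ st, l₂.foldr (stS gv gn g2) st = Gs.map (fmFold gv gn g2) ++ st)
    (ih2 : ∀ l₁ l₂, B.pol = l₁ ++ l₂ → ∃ Gs : List Fm, (∀ G ∈ Gs, G ∈ subs B) ∧
      Gs.length ≤ l₂.length ∧
      ∀ st, l₂.foldr (stS gv gn g2) st = Gs.map (fmFold gv gn g2) ++ st) :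
    ∀ l₁ l₂, A.pol ++ B.pol = l₁ ++ l₂ → ∃ Gs : List Fm,
      (∀ G ∈ Gs, G ∈ subs A ++ subs B) ∧
      Gs.length ≤ l₂.length ∧
      ∀ st, l₂.foldr (stS gv gn g2) st = Gs.map (fmFold gv gn g2) ++ st := by
  intro l₁ l₂ h
  rcases List.append_eq_append_iff.1 h with ⟨a', h1, h2⟩ | ⟨c', h1, h2⟩
  · obtain ⟨Gs, g1, g2', g3⟩ := ih2 a' l₂ h2
    exact ⟨Gs, fun G hG => List.mem_append_right _ (g1 G hG), g2', g3⟩
  · obtain ⟨Gs, g1, g2', g3⟩ := ih1 l₁ c' h1
    refine ⟨Gs ++ [B], ?_, ?_, ?_⟩
    · intro G hG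
      rcases List.mem_append.1 hG with hG | hG
      · exact List.mem_append_left _ (g1 G hG)
      · rw [List.mem_singleton] at hG
        subst hG
        exact List.mem_append_right _ (self_mem_subs _)
    · rw [h2]
      have : 1 ≤ B.pol.length := by cases B <;> simp [Fm.pol]
      simp only [List.length_append, List.length_singleton]
      omega
    · intro st
      rw [h2, List.foldr_append, stS_pol, g3]
      simp

omit [Enc γ] in
theorem stS_suffix (gv : List Bool → γ) (gn : γ → γ) (g2 : ℕ → γ → γ → γ) :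
    ∀ (A : Fm) (l₁ l₂ : List (ℕ × List Bool)), A.pol = l₁ ++ l₂ →
    ∃ Gs : List Fm, (∀ G ∈ Gs, G ∈ subs A) ∧ Gs.length ≤ l₂.length ∧
      ∀ st, l₂.foldr (stS gv gn g2) st = Gs.map (fmFold gv gn g2) ++ st := by
  intro A
  induction A with
  | var w =>
    intro l₁ l₂ h
    cases l₁ with
    | nil =>
      rw [List.nil_append] at h
      refine ⟨[.var w], by simp [subs], by rw [← h]; simp [Fm.pol], ?_⟩
      intro st
      rw [← h, stS_pol]
      rfl
    | cons t l₁ =>
      simp only [Fm.pol, List.cons_append, List.cons.injEq] at h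
      have h3 : l₂ = [] := (List.append_eq_nil_iff.1 h.2.symm).2
      subst h3
      exact ⟨[], by simp, by simp, by simp⟩
  | neg A ih =>
    intro l₁ l₂ h
    cases l₁ with
    | nil =>
      rw [List.nil_append] at h
      refine ⟨[.neg A], by simp [subs], by rw [← h]; simp [Fm.pol], ?_⟩
      intro st
      rw [← h, stS_pol]
      rfl
    | cons t l₁ =>
      simp only [Fm.pol, List.cons_append, List.cons.injEq] at h
      obtain ⟨Gs, g1, g2', g3⟩ := ih l₁ l₂ h.2
      exact ⟨Gs, fun G hG => List.mem_cons_of_mem _ (g1 G hG), g2', g3⟩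
  | and A B ih1 ih2 =>
    intro l₁ l₂ h
    cases l₁ with
    | nil =>
      rw [List.nil_append] at h
      refine ⟨[.and A B], by simp [subs], by rw [← h]; simp [Fm.pol], ?_⟩
      intro st
      rw [← h, stS_pol]
      rfl
    | cons t l₁ =>
      simp only [Fm.pol, List.cons_append, List.cons.injEq] at h
      obtain ⟨Gs, g1, g2', g3⟩ := stS_suffix2 gv gn g2 A B ih1 ih2 l₁ l₂ h.2
      exact ⟨Gs, fun G hG => List.mem_cons_of_mem _ (g1 G hG), g2', g3⟩
  | or A B ih1 ih2 =>
    intro l₁ l₂ h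
    cases l₁ with
    | nil =>
      rw [List.nil_append] at h
      refine ⟨[.or A B], by simp [subs], by rw [← h]; simp [Fm.pol], ?_⟩
      intro st
      rw [← h, stS_pol]
      rfl
    | cons t l₁ =>
      simp only [Fm.pol, List.cons_append, List.cons.injEq] at h
      obtain ⟨Gs, g1, g2', g3⟩ := stS_suffix2 gv gn g2 A B ih1 ih2 l₁ l₂ h.2
      exact ⟨Gs, fun G hG => List.mem_cons_of_mem _ (g1 G hG), g2', g3⟩
  | imp A B ih1 ih2 =>
    intro l₁ l₂ h
    cases l₁ with
    | nil =>
      rw [List.nil_append] at h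
      refine ⟨[.imp A B], by simp [subs], by rw [← h]; simp [Fm.pol], ?_⟩
      intro st
      rw [← h, stS_pol]
      rfl
    | cons t l₁ =>
      simp only [Fm.pol, List.cons_append, List.cons.injEq] at h
      obtain ⟨Gs, g1, g2', g3⟩ := stS_suffix2 gv gn g2 A B ih1 ih2 l₁ l₂ h.2
      exact ⟨Gs, fun G hG => List.mem_cons_of_mem _ (g1 G hG), g2', g3⟩

theorem Poly.ofFold {G : α → Fm} {gv : α → List Bool → γ} {gn : α → γ → γ}
    {g2 : α → ℕ → γ → γ → γ} {B : α → ℕ} (hG : Poly G)
    (hv : Poly (fun p : α × List Bool => gv p.1 p.2)) (hn : Poly (fun p : α × γ => gn p.1 p.2))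
    (h2 : Poly (fun p : α × ℕ × γ × γ => g2 p.1 p.2.1 p.2.2.1 p.2.2.2)) (hB : PBdd B)
    (h : ∀ a, ∀ A ∈ subs (G a), sz (fmFold (gv a) (gn a) (g2 a) A) ≤ B a) :
    Poly (fun a => fmFold (gv a) (gn a) (g2 a) (G a)) := by
  -- the step function
  have hstep : Poly (fun p : α × List γ × (ℕ × List Bool) =>
      stS (gv p.1) (gn p.1) (g2 p.1) p.2.2 p.2.1) := by
    unfold stS
    have hv' : Poly (fun p : α × List γ × (ℕ × List Bool) => gv p.1 p.2.2.2) :=
      hv.comp (g := fun p : α × List γ × (ℕ × List Bool) => (p.1, p.2.2.2)) (by fun_prop)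
    have hn' : Poly (fun p : α × List γ × (ℕ × List Bool) =>
        match p.2.1 with
        | [] => ([] : List γ)
        | x :: s => gn p.1 x :: s) := by
      refine Poly.lcase (f := fun _ => ([] : List γ))
        (g := fun (p : α × List γ × (ℕ × List Bool)) x s => gn p.1 x :: s)
        (by fun_prop) (by fun_prop) ?_
      refine Poly.lcons ?_ (by fun_prop)
      exact hn.comp (g := fun p : (α × List γ × (ℕ × List Bool)) × γ × List γ =>
        (p.1.1, p.2.1)) (by fun_prop)
    have h2' : Poly (fun p : α × List γ × (ℕ × List Bool) =>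
        match p.2.1 with
        | [] => ([] : List γ)
        | x :: s =>
          match s with
          | [] => []
          | y :: s' => g2 p.1 p.2.2.1 x y :: s') := by
      refine Poly.lcase (f := fun _ => ([] : List γ))
        (g := fun (p : α × List γ × (ℕ × List Bool)) x s =>
          match s with
          | [] => []
          | y :: s' => g2 p.1 p.2.2.1 x y :: s')
        (by fun_prop) (by fun_prop) ?_
      refine Poly.lcase (f := fun _ => ([] : List γ))
        (g := fun (p : (α × List γ × (ℕ × List Bool)) × γ × List γ) y s' =>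
          g2 p.1.1 p.1.2.2.1 p.2.1 y :: s')
        (by fun_prop) (by fun_prop) ?_
      refine Poly.lcons ?_ (by fun_prop)
      exact h2.comp (g := fun p : ((α × List γ × (ℕ × List Bool)) × γ × List γ) × γ × List γ =>
        (p.1.1.1, p.1.1.2.2.1, p.1.2.1, p.2.1)) (by fun_prop)
    fun_prop
  have key := Poly.foldr (l := fun a => (G a).pol) (s0 := fun _ => ([] : List γ))
    (B := fun a => sz (G a) * (B a + 1) + 1) hstep (Poly.polOf hG) (by fun_prop)
    ((hG.sz_le.mul (hB.add (PBdd.const 1))).add (PBdd.const 1)) (by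
      intro a l₁ l₂ hl
      simp only
      obtain ⟨Gs, g1, g2', g3⟩ := stS_suffix (gv a) (gn a) (g2 a) (G a) l₁ l₂ hl
      rw [g3, List.append_nil]
      refine (sz_le_of_forall _ (B a) ?_).trans ?_
      · intro c hc
        obtain ⟨A, hA, rfl⟩ := List.mem_map.1 hc
        exact h a A (g1 A hA)
      · rw [List.length_map]
        have h1 : l₂.length ≤ sz (G a) := by
          have := length_lt_sz (G a).pol
          rw [hl] at this
          rw [sz_fm, hl]
          simp only [List.length_append] at this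
          omega
        have h2 : Gs.length ≤ sz (G a) := g2'.trans h1
        have := Nat.mul_le_mul_right (B a + 1) h2
        omega)
  rcases isEmpty_or_nonempty α with he | ⟨⟨a₀⟩⟩
  · exact ⟨.skip, 0, fun a => (he.false a).elim⟩
  have key2 : Poly (fun a => ((G a).pol.foldr (stS (gv a) (gn a) (g2 a)) []).headD
      (fmFold (gv a₀) (gn a₀) (g2 a₀) (G a₀))) :=
    Poly.headD key (by fun_prop)
  refine (show (fun a => fmFold (gv a) (gn a) (g2 a) (G a)) = _ from ?_) ▸ key2
  funext a
  rw [stS_pol]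
  rfl

end

end Pool.Agent.H.MP_0447ec_lc.PS
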