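import Pool.Agent.H.MP_0447ec_lc.PS.Sim3

/-!
# The simulation by extended Frege is computable in polynomial time
-/

namespace Pool.Agent.H.MP_0447ec_lc.PS

open Pool.Agent.H.MP_0447ec_lc.PT

section sizes

theorem sz_subst_le {s : Nm → Fm} {K : ℕ} (hK : 1 ≤ K) : ∀ (A : Fm),
    (∀ w ∈ A.vars, sz (s w) ≤ K) → sz (A.subst s) ≤ K * sz A := by
  intro A
  induction A with
  | var w =>
    intro h
    have h1 := h w rfl
    have h2 := sz_pos (Fm.var w)
    show sz (s w) ≤ _
    exact h1.trans (Nat.le_mul_of_pos_right K h2)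
  | neg A ih =>
    intro h
    have := ih h
    rw [Fm.subst, sz_neg, sz_neg, Nat.mul_add]
    omega
  | and A B ih1 ih2 =>
    intro h
    have h1 := ih1 fun w hw => h w (Or.inl hw)
    have h2 := ih2 fun w hw => h w (Or.inr hw)
    rw [Fm.subst, sz_and, sz_and, Nat.mul_add, Nat.mul_add]
    omega
  | or A B ih1 ih2 =>
    intro h
    have h1 := ih1 fun w hw => h w (Or.inl hw)
    have h2 := ih2 fun w hw => h w (Or.inr hw)
    rw [Fm.subst, sz_or, sz_or, Nat.mul_add, Nat.mul_add]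
    omega
  | imp A B ih1 ih2 =>
    intro h
    have h1 := ih1 fun w hw => h w (Or.inl hw)
    have h2 := ih2 fun w hw => h w (Or.inr hw)
    rw [Fm.subst, sz_imp, sz_imp, Nat.mul_add, Nat.mul_add]
    omega

theorem sz_substC (P : Fm) : ∃ c : ℕ, ∀ (s : Nm → Fm) (K : ℕ), (∀ x, sz (s x) ≤ K) →
    sz (P.subst s) ≤ c * (K + 1) := by
  refine ⟨sz P, fun s K h => ?_⟩
  have := sz_subst_le (K := K + 1) (by omega) P (fun w _ => (h w).trans (by omega))
  rwa [Nat.mul_comm]

theorem sz_instC (D : List Fm) : ∃ c : ℕ, ∀ (s : Nm → Fm) (K : ℕ), (∀ x, sz (s x) ≤ K) →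
    sz (inst D s) ≤ c * (K + 1) := by
  induction D with
  | nil => exact ⟨1, fun s K _ => by simp [inst]⟩
  | cons P D ih =>
    obtain ⟨c, hc⟩ := ih
    obtain ⟨c', hc'⟩ := sz_substC P
    refine ⟨c + c' + 1, fun s K h => ?_⟩
    have h1 := hc s K h
    have h2 := hc' s K h
    have e : inst (P :: D) s = P.subst s :: inst D s := rfl
    rw [e, sz_lcons, Nat.add_mul, Nat.add_mul]
    omega

theorem sz_s3_le {X Y Z : Fm} {K : ℕ} (hX : sz X ≤ K) (hY : sz Y ≤ K) (hZ : sz Z ≤ K) (w : Nm) :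
    sz (s3 X Y Z w) ≤ K := by
  rcases w with _ | ⟨_, _ | ⟨_, _ | ⟨_, _⟩⟩⟩
  · exact hX
  · exact hY
  · exact hZ
  · exact hX

theorem sz_s5_le {X Y Z U V : Fm} {K : ℕ} (hX : sz X ≤ K) (hY : sz Y ≤ K) (hZ : sz Z ≤ K)
    (hU : sz U ≤ K) (hV : sz V ≤ K) (w : Nm) : sz (s5 X Y Z U V w) ≤ K := by
  rcases w with _ | ⟨_, _ | ⟨_, _ | ⟨_, _ | ⟨_, _ | ⟨_, _⟩⟩⟩⟩⟩
  · exact hX
  · exact hY
  · exact hZ
  · exact hU
  · exact hV
  · exact hX

theorem sz_replicateTrue (n : ℕ) : sz (List.replicate n true) = 4 * n + 1 := by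
  induction n with
  | zero => rfl
  | succ n ih => rw [List.replicate_succ, sz_lcons, ih]; simp; ring

theorem sz_qn_le (L s : ℕ) (t : Nm) : sz (qn L s t) ≤ sz t + 4 * (L + s) + 2 := by
  unfold qn
  split_ifs
  · omega
  · have h1 := sz_append t (false :: List.replicate (L + s) true)
    rw [sz_lcons, sz_replicateTrue, sz_false] at h1
    omega

theorem sz_ren_le (xs ys : List Nm) (w : Nm) : sz (ren xs ys w) ≤ sz w + sz ys := by
  rcases ren_mem xs ys w with h | h
  · rw [h]; omega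
  · have := sz_mem_lt h; omega

theorem sz_name_le {A : Fm} {w : Nm} (h : w ∈ A.vars) : sz w ≤ sz A := by
  have h1 := sz_mem_lt (mem_nms.2 h)
  have h2 := sz_nms_le A
  omega

/-- A bound for the size of the names in an instance of a formula. -/
def bndN (L s : ℕ) (ys : List Nm) (C : Fm) : ℕ := sz C + sz ys + 4 * (L + s) + 6

theorem sz_qr_le {L s : ℕ} {xs ys : List Nm} {C : Fm} {w : Nm} (h : w ∈ C.vars) :
    sz (qr L s xs ys w) ≤ bndN L s ys C := by
  unfold qr bndN
  rw [sz_var]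
  have h1 := sz_qn_le L s (ren xs ys w)
  have h2 := sz_ren_le xs ys w
  have h3 := sz_name_le h
  omega

theorem sz_ap_le (L s : ℕ) (xs ys : List Nm) (C : Fm) :
    sz (ap L s xs ys C) ≤ bndN L s ys C * sz C :=
  sz_subst_le (by unfold bndN; omega) C (fun _ hw => sz_qr_le hw)

theorem bndN_mono {L s : ℕ} {ys : List Nm} {C G : Fm} (h : sz G ≤ sz C) :
    bndN L s ys G ≤ bndN L s ys C := by unfold bndN; omega

end sizes

section

variable {α β γ : Type} [Enc α] [Enc β] [Enc γ]

@[fun_prop]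
theorem Poly.drop {l : α → List β} {n : α → ℕ} (hl : Poly l) (hn : Poly n) :
    Poly (fun a => (l a).drop (n a)) := by
  have e : ∀ (k : ℕ) (l : List β), (fun m : List β => m.tail)^[k] l = l.drop k := by
    intro k
    induction k with
    | zero => intro l; rfl
    | succ k ih => intro l; rw [Function.iterate_succ_apply, ih]; cases l <;> simp
  have := Poly.iterate (f := fun (_ : α) (m : List β) => m.tail) (s := l) (n := n)
    (B := fun a => sz (l a)) (by fun_prop) hl hn hl.sz_le (by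
      intro a k _
      rw [e]
      exact sz_sublist_le (List.drop_sublist k (l a)))
  simpa [e] using this

@[fun_prop]
theorem Poly.tl {l : α → List β} (hl : Poly l) : Poly (fun a => tl (l a)) := by
  unfold PS.tl
  fun_prop

@[fun_prop]
theorem Poly.dd {l : α → List Nm} (hl : Poly l) : Poly (fun a => dd (l a)) := by
  unfold PS.dd
  refine Poly.foldr (f := fun p : α × List Nm × Nm =>
      if p.2.2 ∈ p.2.1 then p.2.1 else p.2.2 :: p.2.1)
    (s0 := fun _ => []) (B := fun a => sz (l a)) (by fun_prop) hl (by fun_prop) hl.sz_le ?_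
  intro a l₁ l₂ h
  have h1 := sz_sublist_le (dd_sublist l₂)
  have h2 : sz l₂ ≤ sz (l a) := by
    rw [h]; exact sz_sublist_le (List.sublist_append_right _ _)
  have h3 : l₂.foldr (fun b s => (fun p : α × List Nm × Nm =>
      if p.2.2 ∈ p.2.1 then p.2.1 else p.2.2 :: p.2.1) (a, s, b)) [] = PS.dd l₂ := rfl
  rw [h3]
  omega

@[fun_prop]
theorem Poly.qn {L s : α → ℕ} {t : α → Nm} (hL : Poly L) (hs : Poly s) (ht : Poly t) :
    Poly (fun a => qn (L a) (s a) (t a)) := by
  unfold PS.qn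
  fun_prop

@[fun_prop]
theorem Poly.ren {xs ys : α → List Nm} {w : α → Nm} (hx : Poly xs) (hy : Poly ys)
    (hw : Poly w) : Poly (fun a => ren (xs a) (ys a) (w a)) := by
  unfold PS.ren
  have h1 : Poly (fun a => (xs a).takeWhile (fun x => !decide (x = w a))) :=
    Poly.takeWhile (f := fun a x => !decide (x = w a)) (by fun_prop) hx
  fun_prop

@[fun_prop]
theorem Poly.qrA {L s : α → ℕ} {xs ys : α → List Nm} {w : α → Nm} (hL : Poly L) (hs : Poly s)
    (hx : Poly xs) (hy : Poly ys) (hw : Poly w) :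
    Poly (fun a => qr (L a) (s a) (xs a) (ys a) (w a)) := by
  unfold PS.qr
  fun_prop

@[fun_prop]
theorem Poly.ap {L s : α → ℕ} {xs ys : α → List Nm} {G : α → Fm} (hL : Poly L) (hs : Poly s)
    (hx : Poly xs) (hy : Poly ys) (hG : Poly G) :
    Poly (fun a => ap (L a) (s a) (xs a) (ys a) (G a)) := by
  have e : ∀ (L s : ℕ) (xs ys : List Nm) (A : Fm), fmFold (fun w => PS.qr L s xs ys w)
      (fun A => Fm.neg A) (fun n A B => PS.conn n A B) A = PS.ap L s xs ys A := by
    intro L s xs ys A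
    unfold PS.ap
    induction A with
    | var w => rfl
    | neg A ih => simp [fmFold, Fm.subst, ih]
    | and A B ih1 ih2 => simp [fmFold, Fm.subst, conn_two, ih1, ih2]
    | or A B ih1 ih2 => simp [fmFold, Fm.subst, conn_three, ih1, ih2]
    | imp A B ih1 ih2 => simp [fmFold, Fm.subst, conn_four, ih1, ih2]
  have key := Poly.ofFold (gv := fun a w => PS.qr (L a) (s a) (xs a) (ys a) w)
    (gn := fun _ A => Fm.neg A)
    (g2 := fun _ n A B => PS.conn n A B)
    (B := fun a => (sz (G a) + sz (ys a) + 4 * (sz (L a) + sz (s a)) + 6) * sz (G a))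
    hG (by fun_prop) (by fun_prop) (by fun_prop)
    ((((hG.sz_le.add hy.sz_le).add ((PBdd.const 4).mul (hL.sz_le.add hs.sz_le))).add
      (PBdd.const 6)).mul hG.sz_le) (by
      intro a A hA
      rw [e]
      refine (sz_ap_le _ _ _ _ A).trans ?_
      have h2 := sz_le_of_mem_subs hA
      have h3 : L a ≤ sz (L a) := by rw [sz_nat]; omega
      have h4 : s a ≤ sz (s a) := by rw [sz_nat]; omega
      refine Nat.mul_le_mul ?_ h2
      unfold bndN
      omega)
  simpa [e] using key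

@[fun_prop]
theorem Poly.cnd {L : α → ℕ} {C : α → Fm} {c : α → Cd} (hL : Poly L) (hC : Poly C)
    (hc : Poly c) : Poly (fun a => cnd (L a) (C a) (c a)) := by
  unfold PS.cnd
  fun_prop

@[fun_prop]
theorem Poly.ite3 {G X Y : α → Fm} (hG : Poly G) (hX : Poly X) (hY : Poly Y) :
    Poly (fun a => ite3 (G a) (X a) (Y a)) := by
  unfold PS.ite3
  fun_prop

@[fun_prop]
theorem Poly.axs {V : α → List Nm} {L : α → ℕ} {C : α → Fm} {c : α → Cd} {s s' : α → ℕ}
    (hV : Poly V) (hL : Poly L) (hC : Poly C) (hc : Poly c) (hs : Poly s) (hs' : Poly s') :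
    Poly (fun a => axs (V a) (L a) (C a) (c a) (s a) (s' a)) := by
  unfold PS.axs
  fun_prop

@[fun_prop]
theorem Poly.stg {r m : α → ℕ} (hr : Poly r) (hm : Poly m) :
    Poly (fun a => stg (r a) (m a)) := by
  unfold PS.stg
  fun_prop

@[fun_prop]
theorem Poly.candsOf {C : α → Fm} {rest : α → List Fm} (hC : Poly C) (hr : Poly rest) :
    Poly (fun a => candsOf (C a) (rest a)) := by
  unfold PS.candsOf
  fun_prop

@[fun_prop]
theorem Poly.chainAx {V : α → List Nm} {L : α → ℕ} {C : α → Fm} {r : α → ℕ}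
    {cs : α → List Cd} (hV : Poly V) (hL : Poly L) (hC : Poly C) (hr : Poly r) (hcs : Poly cs) :
    Poly (fun a => chainAx (V a) (L a) (C a) (r a) (cs a)) := by
  unfold PS.chainAx
  fun_prop

@[fun_prop]
theorem Poly.AxP {V : α → List Nm} {L : α → ℕ} {π : α → List Fm}
    (hV : Poly V) (hL : Poly L) (hπ : Poly π) : Poly (fun a => AxP (V a) (L a) (π a)) := by
  unfold PS.AxP
  fun_prop

end

end Pool.Agent.H.MP_0447ec_lc.PS
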