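import Pool.Agent.H.MP_0447ec_lc.PS.Sim

/-!
# Extended Frege simulates Frege with the permutation rule: the derivation
-/

namespace Pool.Agent.H.MP_0447ec_lc.PS

open Fm

/-- Fixed derivations of the schematic inferences that are used. -/
structure Kit2 (F : List Rule) where
  En : List Fm
  Ea : List Fm
  Eo : List Fm
  Ei : List Fm
  L1 : List Fm
  L2 : List Fm
  R1 : List Fm
  R2 : List Fm
  Sf : List Fm
  FD : List (Rule × List Nm × List Fm)
  hn : Sch F [imp v0 (Fm.iff v1 v2)] (imp v0 (Fm.iff (neg v1) (neg v2))) En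
  ha : Sch F [imp v0 (Fm.iff v1 v2), imp v0 (Fm.iff v3 v4)]
    (imp v0 (Fm.iff (Fm.and v1 v3) (Fm.and v2 v4))) Ea
  ho : Sch F [imp v0 (Fm.iff v1 v2), imp v0 (Fm.iff v3 v4)]
    (imp v0 (Fm.iff (Fm.or v1 v3) (Fm.or v2 v4))) Eo
  hi : Sch F [imp v0 (Fm.iff v1 v2), imp v0 (Fm.iff v3 v4)]
    (imp v0 (Fm.iff (imp v1 v3) (imp v2 v4))) Ei
  h1 : Sch F [Fm.iff v0 (ite3 v1 v2 v3)] (imp v1 (Fm.iff v0 v2)) L1
  h2 : Sch F [Fm.iff v0 (ite3 v1 v2 v3)] (imp (neg v1) (Fm.iff v0 v3)) L2
  r1 : Sch F [v0, imp (Fm.and (neg v1) (neg v2)) (Fm.iff v0 v2)]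
    (neg (Fm.and (neg v1) (neg v2))) R1
  r2 : Sch F [v0, neg v1, imp (neg v1) (Fm.iff v0 v2)] v2 R2
  hs : Sch F [neg (Fm.and (neg v0) (neg v0))] v0 Sf
  cov : ∀ r ∈ F, ∃ t ∈ FD, t.1 = r
  vrs : ∀ t ∈ FD, (∀ P ∈ t.1.prem, ∀ x ∈ P.vars, x ∈ t.2.1) ∧
    (∀ x ∈ t.1.concl.vars, x ∈ t.2.1) ∧
    (∀ x ∈ t.2.1, (∃ P ∈ t.1.prem, x ∈ P.vars) ∨ x ∈ t.1.concl.vars)
  sch : ∀ t ∈ FD, Sch F (t.1.prem.map (fun P => neg (Fm.and (neg t.1.concl) (neg P))))
    t.1.concl t.2.2

theorem exists_kit2 {F : List Rule} (hF : IsFrege F) : Nonempty (Kit2 F) := by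
  obtain ⟨En, hn⟩ := exists_sch hF [imp v0 (Fm.iff v1 v2)]
    (imp v0 (Fm.iff (neg v1) (neg v2))) (by
      intro v hv
      have h1 := hv _ (List.mem_singleton.2 rfl)
      simp only [Fm.Eval, Fm.iff] at h1 ⊢
      tauto)
  obtain ⟨Ea, ha⟩ := exists_sch hF [imp v0 (Fm.iff v1 v2), imp v0 (Fm.iff v3 v4)]
    (imp v0 (Fm.iff (Fm.and v1 v3) (Fm.and v2 v4))) (by
      intro v hv
      have h1 := hv (imp v0 (Fm.iff v1 v2)) (by simp)
      have h2 := hv (imp v0 (Fm.iff v3 v4)) (by simp)
      simp only [Fm.Eval, Fm.iff] at h1 h2 ⊢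
      tauto)
  obtain ⟨Eo, ho⟩ := exists_sch hF [imp v0 (Fm.iff v1 v2), imp v0 (Fm.iff v3 v4)]
    (imp v0 (Fm.iff (Fm.or v1 v3) (Fm.or v2 v4))) (by
      intro v hv
      have h1 := hv (imp v0 (Fm.iff v1 v2)) (by simp)
      have h2 := hv (imp v0 (Fm.iff v3 v4)) (by simp)
      simp only [Fm.Eval, Fm.iff] at h1 h2 ⊢
      tauto)
  obtain ⟨Ei, hi⟩ := exists_sch hF [imp v0 (Fm.iff v1 v2), imp v0 (Fm.iff v3 v4)]
    (imp v0 (Fm.iff (imp v1 v3) (imp v2 v4))) (by
      intro v hv
      have h1 := hv (imp v0 (Fm.iff v1 v2)) (by simp)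
      have h2 := hv (imp v0 (Fm.iff v3 v4)) (by simp)
      simp only [Fm.Eval, Fm.iff] at h1 h2 ⊢
      tauto)
  obtain ⟨L1, h1⟩ := exists_sch hF [Fm.iff v0 (ite3 v1 v2 v3)] (imp v1 (Fm.iff v0 v2)) (by
      intro v hv
      have h1 := hv _ (List.mem_singleton.2 rfl)
      simp only [Fm.Eval, Fm.iff, ite3] at h1 ⊢
      tauto)
  obtain ⟨L2, h2⟩ := exists_sch hF [Fm.iff v0 (ite3 v1 v2 v3)] (imp (neg v1) (Fm.iff v0 v3)) (by
      intro v hv
      have h1 := hv _ (List.mem_singleton.2 rfl)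
      simp only [Fm.Eval, Fm.iff, ite3] at h1 ⊢
      tauto)
  obtain ⟨R1, r1⟩ := exists_sch hF [v0, imp (Fm.and (neg v1) (neg v2)) (Fm.iff v0 v2)]
    (neg (Fm.and (neg v1) (neg v2))) (by
      intro v hv
      have h1 := hv v0 (by simp)
      have h2 := hv (imp (Fm.and (neg v1) (neg v2)) (Fm.iff v0 v2)) (by simp)
      simp only [Fm.Eval, Fm.iff] at h1 h2 ⊢
      tauto)
  obtain ⟨R2, r2⟩ := exists_sch hF [v0, neg v1, imp (neg v1) (Fm.iff v0 v2)] v2 (by
      intro v hv
      have h1 := hv v0 (by simp)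
      have h2 := hv (neg v1) (by simp)
      have h3 := hv (imp (neg v1) (Fm.iff v0 v2)) (by simp)
      simp only [Fm.Eval, Fm.iff] at h1 h2 h3 ⊢
      tauto)
  obtain ⟨Sf, hs⟩ := exists_sch hF [neg (Fm.and (neg v0) (neg v0))] v0 (by
      intro v hv
      have h1 := hv _ (List.mem_singleton.2 rfl)
      simp only [Fm.Eval] at h1 ⊢
      tauto)
  have key : ∀ r ∈ F, ∃ D, Sch F (r.prem.map (fun P => neg (Fm.and (neg r.concl) (neg P))))
      r.concl D := by
    intro r hr
    apply exists_sch hF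
    intro v hv
    by_contra h0
    apply h0
    apply hF.sound r hr
    intro P hP
    have := hv _ (List.mem_map_of_mem (f := fun P => neg (Fm.and (neg r.concl) (neg P))) hP)
    simp only [Fm.Eval] at this
    tauto
  have gen : ∀ G : List Rule, (∀ r ∈ G, r ∈ F) →
      ∃ FD : List (Rule × List Nm × List Fm), (∀ r ∈ G, ∃ t ∈ FD, t.1 = r) ∧
    (∀ t ∈ FD, (∀ P ∈ t.1.prem, ∀ x ∈ P.vars, x ∈ t.2.1) ∧
      (∀ x ∈ t.1.concl.vars, x ∈ t.2.1) ∧
      (∀ x ∈ t.2.1, (∃ P ∈ t.1.prem, x ∈ P.vars) ∨ x ∈ t.1.concl.vars)) ∧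
    (∀ t ∈ FD, Sch F (t.1.prem.map (fun P => neg (Fm.and (neg t.1.concl) (neg P))))
      t.1.concl t.2.2) := by
    intro G
    induction G with
    | nil => intro _; exact ⟨[], by simp, by simp, by simp⟩
    | cons r G ih =>
      intro hG
      obtain ⟨FD, a, b, c⟩ := ih (fun r' hr' => hG r' (List.mem_cons_of_mem _ hr'))
      obtain ⟨D, hD⟩ := key r (hG r (by simp))
      refine ⟨(r, r.prem.flatMap nms ++ nms r.concl, D) :: FD, ?_, ?_, ?_⟩
      · intro r' hr'
        rcases List.mem_cons.1 hr' with rfl | hr'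
        · exact ⟨_, List.mem_cons_self, rfl⟩
        · obtain ⟨t, ht, e⟩ := a r' hr'
          exact ⟨t, List.mem_cons_of_mem _ ht, e⟩
      · intro t ht
        rcases List.mem_cons.1 ht with rfl | ht
        · refine ⟨?_, ?_, ?_⟩
          · intro P hP x hx
            exact List.mem_append_left _ (List.mem_flatMap.2 ⟨P, hP, mem_nms.2 hx⟩)
          · intro x hx
            exact List.mem_append_right _ (mem_nms.2 hx)
          · intro x hx
            rcases List.mem_append.1 hx with hx | hx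
            · obtain ⟨P, hP, hx⟩ := List.mem_flatMap.1 hx
              exact Or.inl ⟨P, hP, mem_nms.1 hx⟩
            · exact Or.inr (mem_nms.1 hx)
        · exact b t ht
      · intro t ht
        rcases List.mem_cons.1 ht with rfl | ht
        · exact hD
        · exact c t ht
  obtain ⟨FD, a, b, c⟩ := gen F (fun r hr => hr)
  exact ⟨⟨En, Ea, Eo, Ei, L1, L2, R1, R2, Sf, FD, hn, ha, ho, hi, h1, h2, r1, r2, hs, a, b, c⟩⟩

section

variable {F : List Rule} (k : Kit2 F)

/-! ### Replacement of equivalents -/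

/-- Lines that derive the equivalence of two instances of a formula under a hypothesis. -/
def eqL (H : Fm) (σ τ : Nm → Fm) (leaf : Nm → List Fm) : Fm → List Fm
  | .var w => leaf w
  | .neg A => eqL H σ τ leaf A ++ inst k.En (s3 H (A.subst σ) (A.subst τ))
  | .and A B => (eqL H σ τ leaf A ++ eqL H σ τ leaf B) ++
      inst k.Ea (s5 H (A.subst σ) (A.subst τ) (B.subst σ) (B.subst τ))
  | .or A B => (eqL H σ τ leaf A ++ eqL H σ τ leaf B) ++
      inst k.Eo (s5 H (A.subst σ) (A.subst τ) (B.subst σ) (B.subst τ))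
  | .imp A B => (eqL H σ τ leaf A ++ eqL H σ τ leaf B) ++
      inst k.Ei (s5 H (A.subst σ) (A.subst τ) (B.subst σ) (B.subst τ))

theorem eqL_bin {step : List Fm → Fm → Prop} (hm : Mono step)
    (hF : ∀ σ C, RuleStep F σ C → step σ C) {D : List Fm} {H X X' Y Y' : Fm}
    {c : Fm → Fm → Fm}
    (hc : ∀ A B s, (c A B).subst s = c (A.subst s) (B.subst s))
    (hD : Sch F [imp v0 (Fm.iff v1 v2), imp v0 (Fm.iff v3 v4)]
      (imp v0 (Fm.iff (c v1 v3) (c v2 v4))) D) (Δ l₁ l₂ : List Fm)
    (h1 : Just step Δ l₁ ∧ imp H (Fm.iff X X') ∈ Δ ++ l₁)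
    (h2 : Just step Δ l₂ ∧ imp H (Fm.iff Y Y') ∈ Δ ++ l₂) :
    Just step Δ ((l₁ ++ l₂) ++ inst D (s5 H X X' Y Y')) ∧
      imp H (Fm.iff (c X Y) (c X' Y')) ∈ Δ ++ ((l₁ ++ l₂) ++ inst D (s5 H X X' Y Y')) := by
  have j1 : Just step Δ (l₁ ++ l₂) :=
    Just.append h1.1 (Just.mono hm (fun C hC => List.mem_append_left _ hC) h2.1)
  have m1 : imp H (Fm.iff X X') ∈ Δ ++ (l₁ ++ l₂) := by
    rw [← List.append_assoc]; exact List.mem_append_left _ h1.2
  have m2 : imp H (Fm.iff Y Y') ∈ Δ ++ (l₁ ++ l₂) := by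
    rcases List.mem_append.1 h2.2 with h | h
    · exact List.mem_append_left _ h
    · exact List.mem_append_right _ (List.mem_append_right _ h)
  have j2 := hD.just hm hF (s5 H X X' Y Y') (Δ ++ (l₁ ++ l₂)) (by
    intro P hP
    simp only [List.mem_cons, List.not_mem_nil, or_false] at hP
    rcases hP with rfl | rfl
    · exact m1
    · exact m2)
  refine ⟨Just.append j1 j2, ?_⟩
  have := hD.mem_inst (s5 H X X' Y Y')
  have e : (imp v0 (Fm.iff (c v1 v3) (c v2 v4))).subst (s5 H X X' Y Y') =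
      imp H (Fm.iff (c X Y) (c X' Y')) := by
    simp only [Fm.subst, Fm.iff, hc]
    rfl
  rw [e] at this
  exact List.mem_append_right _ (List.mem_append_right _ this)

theorem eqL_just {step : List Fm → Fm → Prop} (hm : Mono step)
    (hF : ∀ σ C, RuleStep F σ C → step σ C) (H : Fm) (σ τ : Nm → Fm) (leaf : Nm → List Fm)
    (Δ : List Fm) : ∀ (A : Fm), (∀ w ∈ A.vars, Just step Δ (leaf w) ∧
      imp H (Fm.iff (σ w) (τ w)) ∈ Δ ++ leaf w) →
    Just step Δ (eqL k H σ τ leaf A) ∧
      imp H (Fm.iff (A.subst σ) (A.subst τ)) ∈ Δ ++ eqL k H σ τ leaf A := by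
  intro A
  induction A with
  | var w => intro h; exact h w rfl
  | neg A ih =>
    intro h
    obtain ⟨j1, m1⟩ := ih h
    have j2 := k.hn.just hm hF (s3 H (A.subst σ) (A.subst τ)) (Δ ++ eqL k H σ τ leaf A) (by
      intro P hP
      rw [List.mem_singleton] at hP
      subst hP
      exact m1)
    refine ⟨Just.append j1 j2, ?_⟩
    exact List.mem_append_right _ (List.mem_append_right _
      (k.hn.mem_inst (s3 H (A.subst σ) (A.subst τ))))
  | and A B ih1 ih2 =>
    intro h
    exact eqL_bin hm hF (c := Fm.and) (fun _ _ _ => rfl) k.ha Δ _ _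
      (ih1 fun w hw => h w (Or.inl hw)) (ih2 fun w hw => h w (Or.inr hw))
  | or A B ih1 ih2 =>
    intro h
    exact eqL_bin hm hF (c := Fm.or) (fun _ _ _ => rfl) k.ho Δ _ _
      (ih1 fun w hw => h w (Or.inl hw)) (ih2 fun w hw => h w (Or.inr hw))
  | imp A B ih1 ih2 =>
    intro h
    exact eqL_bin hm hF (c := Fm.imp) (fun _ _ _ => rfl) k.hi Δ _ _
      (ih1 fun w hw => h w (Or.inl hw)) (ih2 fun w hw => h w (Or.inr hw))

/-! ### One candidate -/

/-- Values for the leaf schemas. -/
def lf (L : ℕ) (C : Fm) (c : Cd) (s' s'' : ℕ) (w : Nm) : Nm → Fm :=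
  s5 (var (qn L s' w)) (cnd L C c) (var (qn L c.2.1 (ren c.2.2.1 c.2.2.2 w)))
    (var (qn L s'' w)) (var (qn L s' w))

/-- Lines for one candidate. -/
def blkC (L : ℕ) (C : Fm) (c : Cd) (s' s'' : ℕ) : List Fm :=
  ((eqL k (cnd L C c) (qr L s' [] []) (qr L c.2.1 c.2.2.1 c.2.2.2)
      (fun w => inst k.L1 (lf L C c s' s'' w)) C ++
    eqL k (neg (cnd L C c)) (qr L s' [] []) (qr L s'' [] [])
      (fun w => inst k.L2 (lf L C c s' s'' w)) C) ++
    inst k.R1 (s3 (ap L s' [] [] C) (ap L c.2.1 [] [] c.1) (ap L c.2.1 c.2.2.1 c.2.2.2 C))) ++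
    inst k.R2 (s3 (ap L s' [] [] C) (cnd L C c) (ap L s'' [] [] C))

theorem blkC_just {step : List Fm → Fm → Prop} (hm : Mono step)
    (hF : ∀ σ C, RuleStep F σ C → step σ C) (V : List Nm) (L : ℕ) (C : Fm) (c : Cd)
    (s' s'' : ℕ) (Δ : List Fm) (hV : ∀ x ∈ C.vars, x ∈ V)
    (hax : ∀ e ∈ axs V L C c s' s'', eAx e ∈ Δ) (hC : ap L s' [] [] C ∈ Δ) :
    Just step Δ (blkC k L C c s' s'') ∧ neg (cnd L C c) ∈ Δ ++ blkC k L C c s' s'' ∧
      ap L s'' [] [] C ∈ Δ ++ blkC k L C c s' s'' := by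
  have hleaf : ∀ w ∈ C.vars, Fm.iff (var (qn L s' w)) (ite3 (cnd L C c)
      (var (qn L c.2.1 (ren c.2.2.1 c.2.2.2 w))) (var (qn L s'' w))) ∈ Δ := by
    intro w hw
    exact hax _ (List.mem_map_of_mem (f := fun t => (qn L s' t,
      ite3 (cnd L C c) (var (qn L c.2.1 (ren c.2.2.1 c.2.2.2 t))) (var (qn L s'' t)))) (hV w hw))
  obtain ⟨j1, m1⟩ := eqL_just k hm hF (cnd L C c) (qr L s' [] [])
    (qr L c.2.1 c.2.2.1 c.2.2.2) (fun w => inst k.L1 (lf L C c s' s'' w)) Δ C (by
      intro w hw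
      refine ⟨k.h1.just hm hF (lf L C c s' s'' w) Δ ?_, List.mem_append_right _
        (k.h1.mem_inst (lf L C c s' s'' w))⟩
      intro P hP
      rw [List.mem_singleton] at hP
      subst hP
      exact hleaf w hw)
  obtain ⟨j2, m2⟩ := eqL_just k hm hF (neg (cnd L C c)) (qr L s' [] [])
    (qr L s'' [] []) (fun w => inst k.L2 (lf L C c s' s'' w)) Δ C (by
      intro w hw
      refine ⟨k.h2.just hm hF (lf L C c s' s'' w) Δ ?_, List.mem_append_right _
        (k.h2.mem_inst (lf L C c s' s'' w))⟩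
      intro P hP
      rw [List.mem_singleton] at hP
      subst hP
      exact hleaf w hw)
  set l₁ := eqL k (cnd L C c) (qr L s' [] []) (qr L c.2.1 c.2.2.1 c.2.2.2)
      (fun w => inst k.L1 (lf L C c s' s'' w)) C with hl₁
  set l₂ := eqL k (neg (cnd L C c)) (qr L s' [] []) (qr L s'' [] [])
      (fun w => inst k.L2 (lf L C c s' s'' w)) C with hl₂
  set t₁ := s3 (ap L s' [] [] C) (ap L c.2.1 [] [] c.1) (ap L c.2.1 c.2.2.1 c.2.2.2 C) with ht₁
  set t₂ := s3 (ap L s' [] [] C) (cnd L C c) (ap L s'' [] [] C) with ht₂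
  have j12 : Just step Δ (l₁ ++ l₂) :=
    Just.append j1 (Just.mono hm (fun C hC => List.mem_append_left _ hC) j2)
  have j3 := k.r1.just hm hF t₁ (Δ ++ (l₁ ++ l₂)) (by
    intro P hP
    simp only [List.mem_cons, List.not_mem_nil, or_false] at hP
    rcases hP with rfl | rfl
    · exact List.mem_append_left _ hC
    · have : imp (cnd L C c) (Fm.iff (C.subst (qr L s' [] []))
        (C.subst (qr L c.2.1 c.2.2.1 c.2.2.2))) ∈ Δ ++ (l₁ ++ l₂) := by
        rw [← List.append_assoc]; exact List.mem_append_left _ m1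
      exact this)
  have m3 : neg (cnd L C c) ∈ inst k.R1 t₁ := k.r1.mem_inst t₁
  have j4 := k.r2.just hm hF t₂ (Δ ++ ((l₁ ++ l₂) ++ inst k.R1 t₁)) (by
    intro P hP
    simp only [List.mem_cons, List.not_mem_nil, or_false] at hP
    rcases hP with rfl | rfl | rfl
    · exact List.mem_append_left _ hC
    · exact List.mem_append_right _ (List.mem_append_right _ m3)
    · rcases List.mem_append.1 m2 with h | h
      · exact List.mem_append_left _ h
      · exact List.mem_append_right _ (List.mem_append_left _ (List.mem_append_right _ h)))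
  have m4 : ap L s'' [] [] C ∈ inst k.R2 t₂ := k.r2.mem_inst t₂
  refine ⟨Just.append (Just.append j12 j3) j4, ?_, ?_⟩
  · exact List.mem_append_right _ (List.mem_append_left _ (List.mem_append_right _ m3))
  · exact List.mem_append_right _ (List.mem_append_right _ m4)

/-- Lines for all candidates of a line. -/
def blkCs (L : ℕ) (C : Fm) (r : ℕ) (cs : List Cd) : List Fm :=
  (tl cs).flatMap (fun p => blkC k L C p.1 (stg r (p.2.length + 1)) (stg r p.2.length))

theorem blkCs_just {step : List Fm → Fm → Prop} (hm : Mono step)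
    (hF : ∀ σ C, RuleStep F σ C → step σ C) (V : List Nm) (L : ℕ) (C : Fm) (r : ℕ)
    (hV : ∀ x ∈ C.vars, x ∈ V) : ∀ (cs : List Cd) (Δ : List Fm),
    (∀ e ∈ chainAx V L C r cs, eAx e ∈ Δ) → ap L (stg r cs.length) [] [] C ∈ Δ →
    Just step Δ (blkCs k L C r cs) ∧ ∀ c ∈ cs, neg (cnd L C c) ∈ Δ ++ blkCs k L C r cs := by
  intro cs
  induction cs with
  | nil => intro Δ _ _; exact ⟨trivial, by simp⟩
  | cons c cs ih =>
    intro Δ hax hC
    rw [chainAx_cons] at hax
    obtain ⟨j1, m1, m2⟩ := blkC_just k hm hF V L C c (stg r (cs.length + 1)) (stg r cs.length) Δ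
      hV (fun e he => hax e (List.mem_append_right _ he)) hC
    obtain ⟨j2, m3⟩ := ih (Δ ++ blkC k L C c (stg r (cs.length + 1)) (stg r cs.length))
      (fun e he => List.mem_append_left _ (hax e (List.mem_append_left _ he))) m2
    have e1 : blkCs k L C r (c :: cs) =
        blkC k L C c (stg r (cs.length + 1)) (stg r cs.length) ++ blkCs k L C r cs := by
      unfold blkCs
      rw [tl_cons, List.flatMap_cons]
    rw [e1]
    refine ⟨Just.append j1 j2, ?_⟩
    intro c' hc'
    rcases List.mem_cons.1 hc' with rfl | hc'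
    · rcases List.mem_append.1 m1 with h | h
      · exact List.mem_append_left _ h
      · exact List.mem_append_right _ (List.mem_append_left _ h)
    · rw [← List.append_assoc]
      exact m3 c' hc'

/-! ### The top lines -/

/-- Lines for the possible uses of one rule. -/
def topR (L : ℕ) (t : Rule × List Nm × List Fm) (cands pre : List Fm) (C : Fm) (s₀ : ℕ) :
    List Fm :=
  (assigns t.2.1.length cands).flatMap (fun vals =>
    if ((t.1.prem.all (fun P => decide (P.subst (lsub t.2.1 vals) ∈ pre))) &&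
      decide (t.1.concl.subst (lsub t.2.1 vals) = C)) = true
    then inst t.2.2 (fun x => ap L s₀ [] [] (lsub t.2.1 vals x)) else [])

/-- Lines for the possible uses of the permutation rule. -/
def topP (L : ℕ) (pre : List Fm) (C : Fm) (s₀ : ℕ) : List Fm :=
  pre.flatMap (fun B => if ap L s₀ (nms B) (nms C) B = ap L s₀ [] [] C
    then inst k.Sf (s3 (ap L s₀ [] [] C) C C) else [])

/-- All lines for one line of the proof. -/
def blk (L : ℕ) (cands pre : List Fm) (C : Fm) (rest : List Fm) : List Fm :=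
  (k.FD.flatMap (fun t => topR L t cands pre C (rest.length * (rest.length + 1))) ++
    topP k L pre C (rest.length * (rest.length + 1))) ++
    blkCs k L C rest.length (candsOf C rest)

/-- All lines. -/
def blks (L : ℕ) (cands : List Fm) (π : List Fm) : List Fm :=
  (sp [] π).flatMap (fun p => blk k L cands p.1 p.2.1 p.2.2)

theorem deriv_split {step : List Fm → Fm → Prop} {π : List Fm} (h : Deriv step π) :
    ∀ pre C rest, π = pre ++ C :: rest → step pre C := by
  induction h with
  | nil => intro pre C rest h; simp at h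
  | @snoc σ B h1 h2 ih =>
    intro pre C rest h
    rcases List.eq_nil_or_concat rest with rfl | ⟨rest', B', rfl⟩
    · obtain ⟨rfl, h4⟩ := List.append_inj' h rfl
      simp only [List.cons.injEq, and_true] at h4
      rw [← h4]; exact h2
    · have e : pre ++ C :: (rest' ++ [B']) = (pre ++ C :: rest') ++ [B'] := by simp
      rw [List.concat_eq_append] at h
      rw [e] at h
      obtain ⟨h3, -⟩ := List.append_inj' h rfl
      exact ih pre C rest' h3

/-- The hypotheses about earlier lines. -/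
def Inv (L : ℕ) (pre rest Δ : List Fm) : Prop :=
  ∀ p B t, pre = p ++ B :: t → ∀ c ∈ candsOf B (t ++ rest), neg (cnd L B c) ∈ Δ

theorem inv_use {L : ℕ} {pre rest Δ : List Fm} {C : Fm} (h : Inv L pre (C :: rest) Δ) :
    (∀ B ∈ pre, neg (Fm.and (neg (ap L (rest.length * (rest.length + 1)) [] [] C))
      (neg (ap L (rest.length * (rest.length + 1)) [] [] B))) ∈ Δ) ∧
    (∀ B ∈ pre, neg (Fm.and (neg (ap L (rest.length * (rest.length + 1)) [] [] C))
      (neg (ap L (rest.length * (rest.length + 1)) (nms B) (nms C) B))) ∈ Δ) := by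
  have key : ∀ B ∈ pre, ∃ p t, pre = p ++ B :: t ∧ (C, rest) ∈ tl (t ++ C :: rest) := by
    intro B hB
    obtain ⟨p, t, hp⟩ := List.append_of_mem hB
    exact ⟨p, t, hp, mem_tl.2 ⟨t, rfl⟩⟩
  constructor
  · intro B hB
    obtain ⟨p, t, hp, hm⟩ := key B hB
    exact h p B t hp (C, rest.length * (rest.length + 1), [], [])
      (List.mem_flatMap.2 ⟨_, hm, by simp⟩)
  · intro B hB
    obtain ⟨p, t, hp, hm⟩ := key B hB
    exact h p B t hp (C, rest.length * (rest.length + 1), nms B, nms C)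
      (List.mem_flatMap.2 ⟨_, hm, by simp⟩)

theorem top_just {step : List Fm → Fm → Prop} (hm : Mono step)
    (hF : ∀ σ C, RuleStep F σ C → step σ C) (L : ℕ) (cands pre rest Δ : List Fm) (C : Fm)
    (hc : ∀ B ∈ C :: pre, ∀ G ∈ subs B, G ∈ cands)
    (hI : Inv L pre (C :: rest) Δ) (hC : FP F pre C) :
    Just step Δ (k.FD.flatMap (fun t => topR L t cands pre C (rest.length * (rest.length + 1))) ++
      topP k L pre C (rest.length * (rest.length + 1))) ∧
    ap L (rest.length * (rest.length + 1)) [] [] C ∈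
      Δ ++ (k.FD.flatMap (fun t => topR L t cands pre C (rest.length * (rest.length + 1))) ++
      topP k L pre C (rest.length * (rest.length + 1))) := by
  obtain ⟨u1, u2⟩ := inv_use hI
  set s₀ := rest.length * (rest.length + 1) with hs₀
  have hap : ∀ (P : Fm) (s : Nm → Fm), P.subst (fun x => ap L s₀ [] [] (s x)) =
      ap L s₀ [] [] (P.subst s) := by
    intro P s
    unfold ap
    rw [Fm.subst_subst]
  have j1 : Just step Δ (k.FD.flatMap (fun t => topR L t cands pre C s₀)) := by
    apply Just.flatMap hm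
    intro t ht
    apply Just.flatMap hm
    intro vals hvals
    split_ifs with hcond
    · rw [Bool.and_eq_true, List.all_eq_true, decide_eq_true_iff] at hcond
      refine (k.sch t ht).just hm hF _ _ ?_
      intro P hP
      obtain ⟨P', hP', rfl⟩ := List.mem_map.1 hP
      have h1 := hcond.1 P' hP'
      rw [decide_eq_true_iff] at h1
      have h2 := u1 _ h1
      have h3 : (neg (Fm.and (neg t.1.concl) (neg P'))).subst
          (fun x => ap L s₀ [] [] (lsub t.2.1 vals x)) =
          neg (Fm.and (neg (ap L s₀ [] [] C))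
            (neg (ap L s₀ [] [] (P'.subst (lsub t.2.1 vals))))) := by
        simp only [Fm.subst, hap, hcond.2]
      rw [h3]
      exact h2
    · trivial
  have j2 : Just step Δ (topP k L pre C s₀) := by
    apply Just.flatMap hm
    intro B hB
    split_ifs with hcond
    · refine k.hs.just hm hF _ _ ?_
      intro P hP
      rw [List.mem_singleton] at hP
      subst hP
      have h2 := u2 B hB
      rw [hcond] at h2
      exact h2
    · trivial
  refine ⟨Just.append j1 (Just.mono hm (fun C hC => List.mem_append_left _ hC) j2), ?_⟩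
  apply List.mem_append_right
  rcases hC with ⟨r, hr, s, hs1, hs2⟩ | ⟨B, hB, ρ, hρ, hB2⟩
  · apply List.mem_append_left
    obtain ⟨t, ht, rfl⟩ := k.cov r hr
    obtain ⟨w1, w2, w3⟩ := k.vrs t ht
    rw [List.mem_flatMap]
    refine ⟨t, ht, ?_⟩
    unfold topR
    rw [List.mem_flatMap]
    have hP : ∀ P ∈ t.1.prem, P.subst (lsub t.2.1 (t.2.1.map s)) = P.subst s := by
      intro P hP
      exact Fm.subst_congr (fun x hx => lsub_map s _ _ (w1 P hP x hx))
    have hCc : t.1.concl.subst (lsub t.2.1 (t.2.1.map s)) = t.1.concl.subst s :=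
      Fm.subst_congr (fun x hx => lsub_map s _ _ (w2 x hx))
    refine ⟨t.2.1.map s, ?_, ?_⟩
    · have := mem_assigns (c := cands) (vs := t.2.1.map s) (by
        intro v hv
        obtain ⟨x, hx, rfl⟩ := List.mem_map.1 hv
        rcases w3 x hx with ⟨P, hP, hxP⟩ | hxC
        · exact hc _ (List.mem_cons_of_mem _ (hs1 P hP)) _ (mem_subs_subst hxP)
        · refine hc C (by simp) _ ?_
          rw [← hs2]
          exact mem_subs_subst hxC)
      rwa [List.length_map] at this
    · rw [if_pos]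
      · have := (k.sch t ht).mem_inst (fun x => ap L s₀ [] [] (lsub t.2.1 (t.2.1.map s) x))
        rwa [hap, hCc, hs2] at this
      · rw [Bool.and_eq_true, List.all_eq_true, decide_eq_true_iff]
        refine ⟨?_, by rw [hCc, hs2]⟩
        intro P hP'
        rw [decide_eq_true_iff, hP P hP']
        exact hs1 P hP'
  · apply List.mem_append_right
    unfold topP
    rw [List.mem_flatMap]
    refine ⟨B, hB, ?_⟩
    rw [if_pos (by rw [hB2]; exact ap_ren L s₀ B ρ)]
    exact k.hs.mem_inst (s3 (ap L s₀ [] [] C) C C)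

theorem blks_aux {step : List Fm → Fm → Prop} (hm : Mono step)
    (hF : ∀ σ C, RuleStep F σ C → step σ C) (V : List Nm) (L : ℕ) (cands π : List Fm)
    (hc : ∀ B ∈ π, ∀ G ∈ subs B, G ∈ cands) (hV : ∀ C ∈ π, ∀ x ∈ C.vars, x ∈ V)
    (hπ : Deriv (FP F) π) : ∀ (rest pre Δ : List Fm), π = pre ++ rest →
    (∀ e ∈ AxP V L rest, eAx e ∈ Δ) → Inv L pre rest Δ →
    Just step Δ ((sp pre rest).flatMap (fun p => blk k L cands p.1 p.2.1 p.2.2)) ∧
      ∀ (p : List Fm) (C : Fm), rest = p ++ [C] →
        C ∈ Δ ++ (sp pre rest).flatMap (fun p => blk k L cands p.1 p.2.1 p.2.2) := by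
  intro rest
  induction rest with
  | nil =>
    intro pre Δ _ _ _
    exact ⟨trivial, by intro p C h; simp at h⟩
  | cons C rest ih =>
    intro pre Δ hpr hax hI
    have hCπ : C ∈ π := by rw [hpr]; simp
    rw [AxP_cons] at hax
    obtain ⟨j1, m1⟩ := top_just k hm hF L cands pre rest Δ C (by
      intro B hB
      refine hc B ?_
      rw [hpr]
      rcases List.mem_cons.1 hB with rfl | hB
      · simp
      · exact List.mem_append_left _ hB) hI (deriv_split hπ pre C rest hpr)
    set top := k.FD.flatMap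
      (fun t => topR L t cands pre C (rest.length * (rest.length + 1))) ++
      topP k L pre C (rest.length * (rest.length + 1)) with htop
    obtain ⟨j2, m2⟩ := blkCs_just k hm hF V L C rest.length (hV C hCπ) (candsOf C rest)
      (Δ ++ top) (fun e he => List.mem_append_left _ (hax e (List.mem_append_right _ he))) (by
        rw [candsOf_length, stg_full]
        exact m1)
    have hb : blk k L cands pre C rest = top ++ blkCs k L C rest.length (candsOf C rest) := rfl
    have jb : Just step Δ (blk k L cands pre C rest) := by rw [hb]; exact Just.append j1 j2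
    obtain ⟨j3, m3⟩ := ih (pre ++ [C]) (Δ ++ blk k L cands pre C rest) (by rw [hpr]; simp)
      (fun e he => List.mem_append_left _ (hax e (List.mem_append_left _ he))) (by
        intro p B t hp c hc'
        rcases List.eq_nil_or_concat t with rfl | ⟨t', B', rfl⟩
        · obtain ⟨rfl, h4⟩ := List.append_inj' hp rfl
          simp only [List.cons.injEq, and_true] at h4
          subst h4
          rw [hb, ← List.append_assoc]
          exact m2 c hc'
        · have e : p ++ B :: (t' ++ [B']) = (p ++ B :: t') ++ [B'] := by simp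
          rw [List.concat_eq_append] at hp hc'
          rw [e] at hp
          obtain ⟨h3, h4⟩ := List.append_inj' hp rfl
          simp only [List.cons.injEq, and_true] at h4
          subst h4
          refine List.mem_append_left _ (hI p B t' h3 c ?_)
          simpa using hc')
    refine ⟨?_, ?_⟩
    · rw [sp, List.flatMap_cons]
      exact Just.append jb j3
    · intro p D h
      rw [sp, List.flatMap_cons, ← List.append_assoc]
      cases p with
      | nil =>
        simp only [List.nil_append, List.cons.injEq] at h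
        obtain ⟨rfl, rfl⟩ := h
        apply List.mem_append_left
        have : ap L 0 [] [] C ∈ Δ ++ top := m1
        rw [ap_zero] at this
        rw [hb, ← List.append_assoc]
        exact List.mem_append_left _ this
      | cons a p =>
        simp only [List.cons_append, List.cons.injEq] at h
        exact m3 p D h.2

end

end Pool.Agent.H.MP_0447ec_lc.PS
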